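import Pool.Agent.H43.Gauss3

set_option autoImplicit false

namespace Pool.Agent.H43.Gauss

open MeasureTheory ProbabilityTheory Module Real
open scoped ENNReal RealInnerProductSpace

/-- Stadium region in the plane. -/
def St (ρ : ℝ) : Set (Fin 2 → ℝ) := {y | y 0 ∈ Set.Ioc (-1 : ℝ) 1 ∧ |y 1| < ρ + √(1 - y 0 ^ 2)}

theorem volume_St {ρ : ℝ} (hρ : 0 ≤ ρ) : volume (St ρ) = ENNReal.ofReal (π + 4 * ρ) := by
  have h1 : St ρ = (MeasurableEquiv.finTwoArrow (α := ℝ)) ⁻¹'
      (regionBetween (fun x : ℝ => -(ρ + √(1 - x ^ 2))) (fun x : ℝ => ρ + √(1 - x ^ 2))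
        (Set.Ioc (-1 : ℝ) 1)) := by
    ext y
    simp only [St, regionBetween, Set.mem_preimage, Set.mem_ofPred_eq, MeasurableEquiv.finTwoArrow_apply, Set.mem_Ioo,
      abs_lt]
  have hmeas : MeasurableSet (regionBetween (fun x : ℝ => -(ρ + √(1 - x ^ 2)))
      (fun x : ℝ => ρ + √(1 - x ^ 2)) (Set.Ioc (-1 : ℝ) 1)) :=
    measurableSet_regionBetween (by fun_prop) (by fun_prop) measurableSet_Ioc
  rw [h1, (volume_preserving_finTwoArrow ℝ).measure_preimage hmeas.nullMeasurableSet,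
    Measure.volume_eq_prod, volume_regionBetween_eq_integral]
  · congr 1
    rw [← intervalIntegral.integral_of_le (by norm_num)]
    have : ∀ x : ℝ, ((fun x : ℝ => ρ + √(1 - x ^ 2)) - fun x : ℝ => -(ρ + √(1 - x ^ 2))) x =
        2 * ρ + 2 * √(1 - x ^ 2) := by
      intro x; simp only [Pi.sub_apply]; ring
    simp_rw [this]
    rw [intervalIntegral.integral_add (by simp) (by
      apply Continuous.intervalIntegrable; fun_prop), intervalIntegral.integral_const,
      intervalIntegral.integral_const_mul, integral_sqrt_one_sub_sq]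
    simp only [smul_eq_mul]
    ring
  · apply Continuous.integrableOn_Ioc; fun_prop
  · apply Continuous.integrableOn_Ioc; fun_prop
  · exact measurableSet_Ioc
  · intro x _
    have := Real.sqrt_nonneg (1 - x ^ 2)
    linarith

set_option linter.unusedSectionVars false

variable {E : Type*} [NormedAddCommGroup E] [InnerProductSpace ℝ E] [FiniteDimensional ℝ E]
  [MeasurableSpace E] [BorelSpace E]

/-- The cylinder over a unit ball, with axis `e`. -/
def Cyl (e : E) : Set E := {x | |⟪e, x⟫| ≤ 1 ∧ ‖x‖ ^ 2 - ⟪e, x⟫ ^ 2 ≤ 1}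

/-- Frame used for the planar projection of the cylinder. -/
theorem exists_frame {e a b : E} (he : ‖e‖ = 1) (hq : 0 < Q a b e) (hD : 0 < G2 a b - Q a b e) :
    ∃ q1 q2 : E, ∃ ρ : ℝ, 0 < ρ ∧ ρ = √(Q a b e / (G2 a b - Q a b e)) ∧
      ‖q1‖ ^ 2 = 1 ∧ ‖q2‖ ^ 2 = 1 ∧ ⟪q1, q2⟫ = 0 ∧ ⟪e, q1⟫ = 0 ∧ ⟪e, q2⟫ = 0 ∧
      ⟪a, q2⟫ = ⟪a, e⟫ / ρ ∧ ⟪b, q2⟫ = ⟪b, e⟫ / ρ ∧
      |⟪a, q1⟫ * (⟪b, e⟫ / ρ) - (⟪a, e⟫ / ρ) * ⟪b, q1⟫| = √(G2 a b - Q a b e) := by
  have hee : ⟪e, e⟫ = 1 := by rw [real_inner_self_eq_norm_sq, he]; norm_num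
  set q := Q a b e with hqdef
  set D := G2 a b - q with hDdef
  set x := ⟪a, e⟫ with hx
  set y := ⟪b, e⟫ with hy
  have hea : ⟪e, a⟫ = x := real_inner_comm _ _
  have heb : ⟪e, b⟫ = y := real_inner_comm _ _
  set A := ‖a‖ ^ 2 with hA
  set B := ‖b‖ ^ 2 with hB
  set C := ⟪a, b⟫ with hC
  have hba : ⟪b, a⟫ = C := real_inner_comm _ _
  have haa : ⟪a, a⟫ = A := real_inner_self_eq_norm_sq _
  have hbb : ⟪b, b⟫ = B := real_inner_self_eq_norm_sq _
  have hqe : q = x ^ 2 * B - 2 * C * x * y + y ^ 2 * A := by rw [hqdef, Q_eq]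
  have hDe : D = A * B - C ^ 2 - (x ^ 2 * B - 2 * C * x * y + y ^ 2 * A) := by
    rw [hDdef, G2, hqe]
  have hsq : 0 < √q := Real.sqrt_pos.2 hq
  have hsq2 : √q ^ 2 = q := Real.sq_sqrt hq.le
  have hρ : 0 < √(q / D) := Real.sqrt_pos.2 (div_pos hq hD)
  have hρ2 : √(q / D) ^ 2 = q / D := Real.sq_sqrt (div_pos hq hD).le
  set ρ := √(q / D) with hρdef
  have hρD : D * ρ ^ 2 = q := by rw [hρ2]; field_simp
  set q1 : E := (√q)⁻¹ • (x • b - y • a) with hq1
  set q2 : E := (D * ρ)⁻¹ • ((B * x - C * y) • (a - x • e) + (A * y - C * x) • (b - y • e)) with hq2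
  have haq1 : ⟪a, q1⟫ = (√q)⁻¹ * (x * C - y * A) := by
    rw [hq1, real_inner_smul_right, inner_sub_right, real_inner_smul_right, real_inner_smul_right,
      haa]
  have hbq1 : ⟪b, q1⟫ = (√q)⁻¹ * (x * B - y * C) := by
    rw [hq1, real_inner_smul_right, inner_sub_right, real_inner_smul_right, real_inner_smul_right,
      hbb, hba]
  have heq1 : ⟪e, q1⟫ = 0 := by
    rw [hq1, real_inner_smul_right, inner_sub_right, real_inner_smul_right, real_inner_smul_right,
      hea, heb]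
    ring
  have heq2 : ⟪e, q2⟫ = 0 := by
    rw [hq2, real_inner_smul_right, inner_add_right, real_inner_smul_right, real_inner_smul_right,
      inner_sub_right, inner_sub_right, real_inner_smul_right, real_inner_smul_right,
      hea, heb, hee]
    ring
  have hDρ : D * ρ ≠ 0 := (mul_pos hD hρ).ne'
  have haq2 : ⟪a, q2⟫ = x / ρ := by
    rw [hq2, real_inner_smul_right, inner_add_right, real_inner_smul_right, real_inner_smul_right,
      inner_sub_right, inner_sub_right, real_inner_smul_right, real_inner_smul_right,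
      haa, ← hx]
    rw [inv_mul_eq_div, div_eq_div_iff hDρ hρ.ne', hDe]
    ring
  have hbq2 : ⟪b, q2⟫ = y / ρ := by
    rw [hq2, real_inner_smul_right, inner_add_right, real_inner_smul_right, real_inner_smul_right,
      inner_sub_right, inner_sub_right, real_inner_smul_right, real_inner_smul_right,
      hbb, hba, ← hy]
    rw [inv_mul_eq_div, div_eq_div_iff hDρ hρ.ne', hDe]
    ring
  refine ⟨q1, q2, ρ, hρ, rfl, ?_, ?_, ?_, heq1, heq2, haq2, hbq2, ?_⟩
  · rw [← real_inner_self_eq_norm_sq]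
    nth_rewrite 1 [hq1]
    rw [real_inner_smul_left, inner_sub_left, real_inner_smul_left, real_inner_smul_left, haq1, hbq1]
    have : (√q)⁻¹ * (x * ((√q)⁻¹ * (x * B - y * C)) - y * ((√q)⁻¹ * (x * C - y * A))) =
        (x ^ 2 * B - 2 * C * x * y + y ^ 2 * A) / √q ^ 2 := by
      field_simp
      ring
    rw [this, ← hqe, hsq2, div_self hq.ne']
  · rw [← real_inner_self_eq_norm_sq]
    nth_rewrite 1 [hq2]
    rw [real_inner_smul_left, inner_add_left, real_inner_smul_left, real_inner_smul_left,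
      inner_sub_left, inner_sub_left, real_inner_smul_left, real_inner_smul_left, haq2, hbq2, heq2]
    have : (D * ρ)⁻¹ * ((B * x - C * y) * (x / ρ - x * 0) + (A * y - C * x) * (y / ρ - y * 0)) =
        (x ^ 2 * B - 2 * C * x * y + y ^ 2 * A) / (D * ρ ^ 2) := by
      field_simp
      ring
    rw [this, ← hqe, hρD, div_self hq.ne']
  · nth_rewrite 1 [hq1]
    rw [real_inner_smul_left, inner_sub_left, real_inner_smul_left, real_inner_smul_left, haq2, hbq2]
    ring
  · rw [haq1, hbq1]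
    have : (√q)⁻¹ * (x * C - y * A) * (y / ρ) - x / ρ * ((√q)⁻¹ * (x * B - y * C)) =
        -((x ^ 2 * B - 2 * C * x * y + y ^ 2 * A) / (√q * ρ)) := by
      field_simp
      ring
    rw [this, ← hqe, abs_neg, abs_of_pos (by positivity)]
    have h1 : √q = √D * ρ := by
      rw [hρdef, ← Real.sqrt_mul hD.le, mul_div_cancel₀ _ hD.ne']
    have h2 : √D ≠ 0 := (Real.sqrt_pos.2 hD).ne'
    rw [h1]
    rw [div_eq_iff (by positivity)]
    have h3 : √D ^ 2 = D := Real.sq_sqrt hD.le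
    calc q = D * ρ ^ 2 := hρD.symm
      _ = √D ^ 2 * ρ ^ 2 := by rw [h3]
      _ = _ := by ring

/-- Lower bound for the area of a planar linear image of the cylinder. -/
theorem area_lower {e a b : E} (he : ‖e‖ = 1) (hq : 0 < Q a b e) (hD : 0 < G2 a b - Q a b e) :
    ENNReal.ofReal (π * √(G2 a b - Q a b e) + 4 * √(Q a b e)) ≤
      volume ((fun x : E => (![⟪a, x⟫, ⟪b, x⟫] : Fin 2 → ℝ)) '' Cyl e) := by
  obtain ⟨q1, q2, ρ, hρ, hρe, h11, h22, h12, he1, he2, ha2, hb2, hdet⟩ := exists_frame he hq hD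
  have hee : ⟪e, e⟫ = 1 := by rw [real_inner_self_eq_norm_sq, he]; norm_num
  set M : Matrix (Fin 2) (Fin 2) ℝ := !![⟪a, q1⟫, ⟪a, e⟫ / ρ; ⟪b, q1⟫, ⟪b, e⟫ / ρ] with hM
  have hMdet : |M.det| = √(G2 a b - Q a b e) := by
    rw [hM, Matrix.det_fin_two_of, ← hdet]
  have hvol : volume ((Matrix.toLin' M) '' (St ρ)) =
      ENNReal.ofReal (π * √(G2 a b - Q a b e) + 4 * √(Q a b e)) := by
    rw [Measure.addHaar_image_linearMap, LinearMap.det_toLin', hMdet, volume_St hρ.le,
      ← ENNReal.ofReal_mul (Real.sqrt_nonneg _)]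
    congr 1
    have h1 : √(Q a b e) = √(G2 a b - Q a b e) * ρ := by
      rw [hρe, ← Real.sqrt_mul hD.le, mul_div_cancel₀ _ hD.ne']
    rw [h1]; ring
  rw [← hvol]
  apply measure_mono
  rintro z ⟨y, hy, rfl⟩
  obtain ⟨hy0, hy1⟩ := hy
  have hy01 : y 0 ^ 2 ≤ 1 := by
    have := hy0.1; have := hy0.2; nlinarith
  set w := √(1 - y 0 ^ 2) with hw
  have hw0 : 0 ≤ w := Real.sqrt_nonneg _
  have hw2 : w ^ 2 = 1 - y 0 ^ 2 := Real.sq_sqrt (by linarith)
  have hρw : 0 < ρ + w := by linarith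
  set s := y 1 * ρ / (ρ + w) with hs
  set t := y 1 * w / (ρ + w) with ht
  have hst : s + t = y 1 := by rw [hs, ht]; field_simp
  have hsabs : |s / ρ| ≤ 1 := by
    have : s / ρ = y 1 / (ρ + w) := by rw [hs]; field_simp
    rw [this, abs_div, abs_of_pos hρw, div_le_one hρw]
    exact hy1.le
  have htabs : t ^ 2 ≤ w ^ 2 := by
    have h1 : t = w * (y 1 / (ρ + w)) := by rw [ht]; field_simp
    have h2 : |y 1 / (ρ + w)| ≤ 1 := by
      rw [abs_div, abs_of_pos hρw, div_le_one hρw]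
      exact hy1.le
    have h3 : (y 1 / (ρ + w)) ^ 2 ≤ 1 := (sq_le_one_iff_abs_le_one _).2 h2
    rw [h1, mul_pow]
    nlinarith [sq_nonneg w]
  refine ⟨(s / ρ) • e + y 0 • q1 + t • q2, ⟨?_, ?_⟩, ?_⟩
  · rw [inner_add_right, inner_add_right, real_inner_smul_right, real_inner_smul_right,
      real_inner_smul_right, hee, he1, he2]
    simpa using hsabs
  · have h1 : ⟪e, (s / ρ) • e + y 0 • q1 + t • q2⟫ = s / ρ := by
      rw [inner_add_right, inner_add_right, real_inner_smul_right, real_inner_smul_right,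
        real_inner_smul_right, hee, he1, he2]
      ring
    have h2 : ‖(s / ρ) • e + y 0 • q1 + t • q2‖ ^ 2 = (s / ρ) ^ 2 + y 0 ^ 2 + t ^ 2 := by
      rw [← real_inner_self_eq_norm_sq]
      have h21 : ⟪q2, q1⟫ = 0 := by rw [real_inner_comm]; exact h12
      have h1e : ⟪q1, e⟫ = 0 := by rw [real_inner_comm]; exact he1
      have h2e : ⟪q2, e⟫ = 0 := by rw [real_inner_comm]; exact he2
      rw [← real_inner_self_eq_norm_sq] at h11 h22
      simp only [inner_add_right, inner_add_left, real_inner_smul_right, real_inner_smul_left,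
        hee, he1, he2, h12, h21, h1e, h2e, h11, h22]
      ring
    rw [h1, h2]
    linarith
  · ext i
    fin_cases i
    · simp only [hM, Fin.zero_eta, Matrix.cons_val_zero, Matrix.toLin'_apply, Matrix.mulVec,
        dotProduct, Fin.sum_univ_two, Matrix.of_apply, Matrix.cons_val_one, Matrix.cons_val_fin_one]
      rw [inner_add_right, inner_add_right, real_inner_smul_right, real_inner_smul_right,
        real_inner_smul_right, ha2, ← hst]
      ring
    · simp only [hM, Fin.mk_one, Matrix.cons_val_one, Matrix.toLin'_apply, Matrix.mulVec,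
        dotProduct, Fin.sum_univ_two, Matrix.of_apply, Matrix.cons_val_zero, Matrix.cons_val_fin_one]
      rw [inner_add_right, inner_add_right, real_inner_smul_right, real_inner_smul_right,
        real_inner_smul_right, hb2, ← hst]
      ring

theorem norm_proj_line {e : E} (he : ‖e‖ = 1) (a : E) :
    ‖(ℝ ∙ e).orthogonalProjectionOnto a‖ = |⟪e, a⟫| := by
  have h : ‖(ℝ ∙ e).orthogonalProjectionOnto a‖ = ‖(ℝ ∙ e).starProjection a‖ := rfl
  rw [h, Submodule.starProjection_unit_singleton ℝ he, norm_smul, he, mul_one, Real.norm_eq_abs]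

theorem norm_sub_line {e : E} (he : ‖e‖ = 1) (a : E) :
    ‖a - ⟪e, a⟫ • e‖ ^ 2 = ‖a‖ ^ 2 - ⟪e, a⟫ ^ 2 := by
  rw [norm_sub_sq_real, real_inner_smul_right, norm_smul, he, real_inner_comm a e, mul_one,
    Real.norm_eq_abs, sq_abs]
  ring

theorem norm_proj_line_orth {e : E} (he : ‖e‖ = 1) (a : E) :
    ‖(ℝ ∙ e)ᗮ.orthogonalProjectionOnto a‖ = ‖a - ⟪e, a⟫ • e‖ := by
  have h1 := (ℝ ∙ e).norm_sq_eq_add_norm_sq_projection a
  rw [norm_proj_line he, sq_abs] at h1
  have h2 := norm_sub_line he a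
  have h3 : ‖(ℝ ∙ e)ᗮ.orthogonalProjectionOnto a‖ ^ 2 = ‖a - ⟪e, a⟫ • e‖ ^ 2 := by
    rw [h2]; linarith
  exact (sq_eq_sq₀ (norm_nonneg _) (norm_nonneg _)).1 h3

/-- Length of a linear image of the cylinder. -/
theorem length_eq {e : E} (he : ‖e‖ = 1) (a : E) :
    volume ((fun x : E => (fun _ : Fin 1 => ⟪a, x⟫)) '' Cyl e) =
      ENNReal.ofReal (2 * ‖(ℝ ∙ e)ᗮ.orthogonalProjectionOnto a‖ +
        2 * ‖(ℝ ∙ e).orthogonalProjectionOnto a‖) := by
  rw [norm_proj_line he, norm_proj_line_orth he]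
  have hee : ⟪e, e⟫ = 1 := by rw [real_inner_self_eq_norm_sq, he]; norm_num
  set h0 := |⟪e, a⟫| with hh0
  set a' := a - ⟪e, a⟫ • e with ha'
  set h := ‖a'‖ + h0 with hh
  have hh_nonneg : 0 ≤ h := by positivity
  have hea' : ⟪e, a'⟫ = 0 := by
    rw [ha', inner_sub_right, real_inner_smul_right, hee]; ring
  have hset : ((fun x : E => (fun _ : Fin 1 => ⟪a, x⟫)) '' Cyl e) =
      Set.Icc (fun _ : Fin 1 => -h) (fun _ : Fin 1 => h) := by
    apply Set.Subset.antisymm
    · rintro y ⟨x, ⟨hx1, hx2⟩, rfl⟩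
      have hx3 : ‖x - ⟪e, x⟫ • e‖ ^ 2 ≤ 1 := by rw [norm_sub_line he]; exact hx2
      have hx4 : ‖x - ⟪e, x⟫ • e‖ ≤ 1 := by
        have := norm_nonneg (x - ⟪e, x⟫ • e)
        nlinarith
      have h1 : ⟪a, x⟫ = ⟪e, a⟫ * ⟪e, x⟫ + ⟪a', x - ⟪e, x⟫ • e⟫ := by
        have h2 : ⟪a', e⟫ = 0 := by rw [real_inner_comm]; exact hea'
        rw [inner_sub_right, real_inner_smul_right, h2, ha', inner_sub_left, real_inner_smul_left]
        ring
      have h3 : |⟪a, x⟫| ≤ h := by
        rw [h1]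
        calc _ ≤ |⟪e, a⟫ * ⟪e, x⟫| + |⟪a', x - ⟪e, x⟫ • e⟫| := abs_add_le _ _
          _ ≤ h0 * 1 + ‖a'‖ * 1 := by
            apply add_le_add
            · rw [abs_mul]
              exact mul_le_mul_of_nonneg_left hx1 (abs_nonneg _)
            · exact (abs_real_inner_le_norm _ _).trans
                (mul_le_mul_of_nonneg_left hx4 (norm_nonneg _))
          _ = h := by rw [hh]; ring
      rw [abs_le] at h3
      exact ⟨fun _ => h3.1, fun _ => h3.2⟩
    · rintro y ⟨hy1, hy2⟩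
      have hy : |y 0| ≤ h := abs_le.2 ⟨hy1 0, hy2 0⟩
      set x0 : E := (⟪e, a⟫ / |⟪e, a⟫|) • e + ‖a'‖⁻¹ • a' with hx0
      have hex0 : ⟪e, x0⟫ = ⟪e, a⟫ / |⟪e, a⟫| := by
        rw [hx0, inner_add_right, real_inner_smul_right, real_inner_smul_right, hee, hea']; ring
      have habs : abs (⟪e, a⟫ / abs ⟪e, a⟫) ≤ 1 := by
        rw [abs_div, abs_abs]
        exact div_self_le_one _
      have hn : ‖x0 - ⟪e, x0⟫ • e‖ ≤ 1 := by
        rw [hex0, hx0, add_sub_cancel_left, norm_smul, norm_inv, norm_norm]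
        exact inv_mul_le_one
      have hax0 : ⟪a, x0⟫ = h := by
        rw [hx0, inner_add_right, real_inner_smul_right, real_inner_smul_right, real_inner_comm e a]
        have h1 : ⟪a, a'⟫ = ‖a'‖ ^ 2 := by
          rw [← real_inner_self_eq_norm_sq]
          nth_rewrite 2 [ha']
          rw [inner_sub_left, real_inner_smul_left, hea']; ring
        rw [h1, hh, hh0]
        have h2 : ⟪e, a⟫ / |⟪e, a⟫| * ⟪e, a⟫ = |⟪e, a⟫| := by
          rcases eq_or_ne ⟪e, a⟫ 0 with h0' | h0'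
          · simp [h0']
          · have : |⟪e, a⟫| ≠ 0 := abs_ne_zero.2 h0'
            field_simp
            rw [sq_abs]
        have h3 : ‖a'‖⁻¹ * ‖a'‖ ^ 2 = ‖a'‖ := by
          rcases eq_or_ne ‖a'‖ 0 with h0' | h0'
          · simp [h0']
          · field_simp
        rw [h2, h3]; ring
      refine ⟨(y 0 / h) • x0, ⟨?_, ?_⟩, ?_⟩
      · rw [real_inner_smul_right, hex0, abs_mul]
        have h1 : |y 0 / h| ≤ 1 := by
          rw [abs_div, abs_of_nonneg hh_nonneg]
          exact div_le_one_of_le₀ hy hh_nonneg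
        calc _ ≤ 1 * 1 := mul_le_mul h1 habs (abs_nonneg _) (by norm_num)
          _ = 1 := by norm_num
      · rw [← norm_sub_line he, real_inner_smul_right, mul_smul, ← smul_sub, norm_smul, mul_pow]
        have h1 : ‖y 0 / h‖ ≤ 1 := by
          rw [Real.norm_eq_abs, abs_div, abs_of_nonneg hh_nonneg]
          exact div_le_one_of_le₀ hy hh_nonneg
        have h2 : ‖y 0 / h‖ ^ 2 ≤ 1 := by nlinarith [norm_nonneg (y 0 / h)]
        have h3 : ‖x0 - ⟪e, x0⟫ • e‖ ^ 2 ≤ 1 := by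
          nlinarith [norm_nonneg (x0 - ⟪e, x0⟫ • e)]
        nlinarith [sq_nonneg ‖y 0 / h‖, sq_nonneg ‖x0 - ⟪e, x0⟫ • e‖]
      · funext i
        have hi : i = 0 := Subsingleton.elim _ _
        subst hi
        simp only
        rw [real_inner_smul_right, hax0]
        rcases eq_or_ne h 0 with h0' | h0'
        · rw [h0'] at hy ⊢
          have := abs_nonpos_iff.1 hy
          simp [this]
        · field_simp
  rw [hset, Real.volume_Icc_pi]
  simp only [Finset.univ_unique, Finset.prod_const, Finset.card_singleton, pow_one]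
  congr 1
  rw [hh]; ring

end Pool.Agent.H43.Gauss
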