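import Mathlib

set_option autoImplicit false

namespace Pool.Agent.H43.Gauss

open MeasureTheory ProbabilityTheory Module Real
open scoped ENNReal RealInnerProductSpace

variable {E : Type*} [NormedAddCommGroup E] [InnerProductSpace ℝ E] [FiniteDimensional ℝ E]
  [MeasurableSpace E] [BorelSpace E]

omit [InnerProductSpace ℝ E] [FiniteDimensional ℝ E] [MeasurableSpace E] [BorelSpace E] in
theorem cexp_eq (x : E) : Complex.exp (-(1 / 2) * (‖x‖ : ℂ) ^ 2) =
    ((Real.exp (-‖x‖ ^ 2 / 2) : ℝ) : ℂ) := by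
  push_cast
  congr 1
  ring

/-- The unnormalised Gaussian density. -/
theorem integrable_gauss : Integrable (fun x : E => Real.exp (-‖x‖ ^ 2 / 2)) := by
  have h := GaussianFourier.integrable_cexp_neg_mul_sq_norm_add (V := E) (b := (1 / 2 : ℂ))
    (by norm_num) 0 (0 : E)
  have h2 := h.re
  refine h2.congr (Filter.Eventually.of_forall fun x => ?_)
  simp only [zero_mul, add_zero]
  rw [cexp_eq]
  exact Complex.ofReal_re _

theorem integral_gauss_pos : 0 < ∫ x : E, Real.exp (-‖x‖ ^ 2 / 2) := by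
  have h := GaussianFourier.integral_rexp_neg_mul_sq_norm (V := E) (b := 1 / 2) (by norm_num)
  have h2 : (fun x : E => Real.exp (-‖x‖ ^ 2 / 2)) = fun x : E => Real.exp (-(1 / 2) * ‖x‖ ^ 2) := by
    funext x; congr 1; ring
  rw [h2, h]
  positivity

variable (E) in
/-- normalising constant -/
noncomputable def cG : ℝ := (∫ x : E, Real.exp (-‖x‖ ^ 2 / 2))⁻¹

variable (E) in
theorem cG_pos : 0 < cG E := inv_pos.2 integral_gauss_pos

theorem stdGaussian_eq_withDensity :
    stdGaussian E = (volume : Measure E).withDensity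
      (fun x => ENNReal.ofReal (cG E * Real.exp (-‖x‖ ^ 2 / 2))) := by
  have hint : Integrable (fun x : E => cG E * Real.exp (-‖x‖ ^ 2 / 2)) :=
    (integrable_gauss (E := E)).const_mul _
  have : IsFiniteMeasure ((volume : Measure E).withDensity
      (fun x => ENNReal.ofReal (cG E * Real.exp (-‖x‖ ^ 2 / 2)))) :=
    isFiniteMeasure_withDensity_ofReal hint.2
  apply Measure.ext_of_charFun
  ext t
  rw [charFun_stdGaussian, charFun_apply]
  rw [integral_withDensity_eq_integral_toReal_smul₀ (by fun_prop)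
    (Filter.Eventually.of_forall fun x => ENNReal.ofReal_lt_top)]
  have h1 : ∀ x : E, (ENNReal.ofReal (cG E * Real.exp (-‖x‖ ^ 2 / 2))).toReal •
      Complex.exp (⟪x, t⟫ * Complex.I) =
      (cG E : ℂ) * Complex.exp (-(1 / 2) * (‖x‖ : ℂ) ^ 2 + Complex.I * ⟪t, x⟫) := by
    intro x
    rw [ENNReal.toReal_ofReal (by have := cG_pos E; positivity), Complex.exp_add, cexp_eq,
      Complex.real_smul, real_inner_comm]
    push_cast
    ring_nf
  simp_rw [h1]
  rw [integral_const_mul, GaussianFourier.integral_cexp_neg_mul_sq_norm_add (by norm_num)]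
  have h2 : (cG E : ℂ) * (π / (1 / 2)) ^ (finrank ℝ E / 2 : ℂ) = 1 := by
    have h := GaussianFourier.integral_cexp_neg_mul_sq_norm (V := E) (b := 1 / 2) (by norm_num)
    rw [← h]
    simp_rw [cexp_eq]
    rw [integral_complex_ofReal, cG]
    norm_cast
    exact inv_mul_cancel₀ (integral_gauss_pos (E := E)).ne'
  rw [← mul_assoc, h2, one_mul]
  congr 1
  rw [Complex.I_sq]
  ring

/-- Polar coordinates for lower integrals. -/
theorem lintegral_polar [Nontrivial E] (μ : Measure E) [μ.IsAddHaarMeasure] {F : E → ℝ≥0∞}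
    (hF : Measurable F) :
    ∫⁻ x, F x ∂μ = ∫⁻ θ : Metric.sphere (0 : E) 1, ∫⁻ r : Set.Ioi (0 : ℝ), F (r.1 • θ.1)
      ∂(Measure.volumeIoiPow (finrank ℝ E - 1)) ∂μ.toSphere := by
  have h1 : ∫⁻ x, F x ∂μ = ∫⁻ x : ({(0)}ᶜ : Set E), F x.1 ∂(μ.comap (↑)) := by
    rw [lintegral_subtype_comap (measurableSet_singleton _).compl, restrict_compl_singleton]
  rw [h1]
  have h2 := μ.measurePreserving_homeomorphUnitSphereProd.lintegral_comp_emb
    (Homeomorph.measurableEmbedding _) (fun p => F (p.2.1 • p.1.1))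
  have h3 : ∀ x : ({(0)}ᶜ : Set E), (fun p : Metric.sphere (0 : E) 1 × Set.Ioi (0 : ℝ) =>
      F (p.2.1 • p.1.1)) (homeomorphUnitSphereProd E x) = F x.1 := by
    intro x
    have hx : ‖(x : E)‖ ≠ 0 := norm_ne_zero_iff.2 x.2
    simp [smul_smul, mul_inv_cancel₀ hx]
  simp_rw [h3] at h2
  rw [h2, lintegral_prod]
  refine Measurable.aemeasurable ?_
  exact hF.comp (by fun_prop)

/-- Lower integral against `volumeIoiPow` as a lower integral over `(0, ∞)`. -/
theorem lintegral_volumeIoiPow (n : ℕ) {f : ℝ → ℝ≥0∞} (hf : Measurable f) :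
    ∫⁻ r : Set.Ioi (0 : ℝ), f r.1 ∂(Measure.volumeIoiPow n) =
      ∫⁻ r in Set.Ioi (0 : ℝ), ENNReal.ofReal (r ^ n) * f r := by
  rw [Measure.volumeIoiPow, lintegral_withDensity_eq_lintegral_mul _ (by fun_prop) (by fun_prop)]
  simp only [Pi.mul_apply]
  rw [← lintegral_subtype_comap measurableSet_Ioi]

variable (E) in
/-- sphere functional -/
noncomputable def Sph (N : E → ℝ) : ℝ≥0∞ :=
  ∫⁻ θ : Metric.sphere (0 : E) 1, ENNReal.ofReal ((N θ.1)⁻¹ ^ finrank ℝ E) ∂(volume : Measure E).toSphere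

variable (E) in
/-- a radial Gaussian constant -/
noncomputable def Arad : ℝ≥0∞ :=
  ∫⁻ r in Set.Ioi (0 : ℝ), ENNReal.ofReal (r ^ (finrank ℝ E - 1)) *
    ENNReal.ofReal (cG E * Real.exp (-r ^ 2 / 2))

theorem gauss_homog [Nontrivial E] {N : E → ℝ} (hN : Measurable N)
    (hh : ∀ (r : ℝ) (x : E), 0 < r → N (r • x) = r * N x) :
    ∫⁻ x, ENNReal.ofReal ((‖x‖ / N x) ^ finrank ℝ E) ∂(stdGaussian E) = Sph E N * Arad E := by
  rw [stdGaussian_eq_withDensity, lintegral_withDensity_eq_lintegral_mul _ (by fun_prop) (by fun_prop)]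
  rw [lintegral_polar _ (by fun_prop), Sph, ← lintegral_mul_const _ (by fun_prop)]
  apply lintegral_congr
  intro θ
  have hθ : ‖(θ : E)‖ = 1 := by simp
  have h1 : ∀ r : Set.Ioi (0 : ℝ), ((fun x : E => ENNReal.ofReal (cG E * Real.exp (-‖x‖ ^ 2 / 2))) *
      fun x : E => ENNReal.ofReal ((‖x‖ / N x) ^ finrank ℝ E)) (r.1 • θ.1) =
      ENNReal.ofReal ((N θ.1)⁻¹ ^ finrank ℝ E) * ENNReal.ofReal (cG E * Real.exp (-r.1 ^ 2 / 2)) := by
    intro r
    have hr : 0 < r.1 := r.2
    simp only [Pi.mul_apply, norm_smul, hθ, mul_one, hh _ _ hr, Real.norm_eq_abs, sq_abs]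
    rw [mul_comm, abs_of_pos hr, mul_comm r.1 (N _), ← div_div, div_right_comm, div_self hr.ne',
      one_div]
  simp_rw [h1]
  rw [lintegral_const_mul _ (by fun_prop), Arad]
  congr 1
  exact lintegral_volumeIoiPow _ (f := fun r => ENNReal.ofReal (cG E * Real.exp (-r ^ 2 / 2)))
    (by fun_prop)

theorem exp_homog [Nontrivial E] {N : E → ℝ} (hN : Measurable N)
    (hh : ∀ (r : ℝ) (x : E), 0 < r → N (r • x) = r * N x) (hpos : ∀ x : E, x ≠ 0 → 0 < N x) :
    ∫⁻ x : E, ENNReal.ofReal (Real.exp (-N x)) =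
      Sph E N * ENNReal.ofReal (Real.Gamma (finrank ℝ E)) := by
  have hn : 0 < finrank ℝ E := finrank_pos
  rw [lintegral_polar _ (by fun_prop), Sph, ← lintegral_mul_const _ (by fun_prop)]
  apply lintegral_congr
  intro θ
  have hθ : ‖(θ : E)‖ = 1 := by simp
  have hθ0 : (θ : E) ≠ 0 := by
    intro h; rw [h] at hθ; simp at hθ
  have hNθ := hpos _ hθ0
  have h1 : ∀ r : Set.Ioi (0 : ℝ), ENNReal.ofReal (Real.exp (-N (r.1 • θ.1))) =
      (fun r : ℝ => ENNReal.ofReal (Real.exp (-(r * N θ.1)))) r.1 := by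
    intro r
    simp only [hh _ _ r.2]
  simp_rw [h1]
  refine (lintegral_volumeIoiPow _ (f := fun r : ℝ => ENNReal.ofReal (Real.exp (-(r * N θ.1))))
    (by fun_prop)).trans ?_
  have h2 : ∫⁻ r in Set.Ioi (0 : ℝ), ENNReal.ofReal (r ^ (finrank ℝ E - 1)) *
      ENNReal.ofReal (Real.exp (-(r * N θ.1))) =
      ∫⁻ r in Set.Ioi (0 : ℝ), ENNReal.ofReal (r ^ ((finrank ℝ E : ℝ) - 1) *
        Real.exp (-(N θ.1 * r))) := by
    apply setLIntegral_congr_fun measurableSet_Ioi
    intro r hr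
    have hr' : (0 : ℝ) < r := hr
    simp only
    rw [← ENNReal.ofReal_mul (by positivity)]
    congr 2
    · rw [← Real.rpow_natCast, Nat.cast_sub hn, Nat.cast_one]
    · rw [mul_comm]
  rw [h2, ← ofReal_integral_eq_lintegral_ofReal]
  · rw [Real.integral_rpow_mul_exp_neg_mul_Ioi (by exact_mod_cast hn) hNθ,
      ENNReal.ofReal_mul (by positivity), one_div, Real.rpow_natCast]
  · have := integrableOn_rpow_mul_exp_neg_mul_rpow (s := (finrank ℝ E : ℝ) - 1) (p := 1) (b := N θ.1)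
      (by have : (1 : ℝ) ≤ finrank ℝ E := by exact_mod_cast hn
          linarith) (by norm_num) hNθ
    simpa [IntegrableOn] using this
  · rw [Filter.EventuallyLE, ae_restrict_iff' measurableSet_Ioi]
    refine Filter.Eventually.of_forall fun r hr => ?_
    have hr' : (0 : ℝ) < r := hr
    simp only [Pi.zero_apply]
    positivity

variable (E) in
/-- `∫ exp (-‖x‖)` -/
noncomputable def Z : ℝ≥0∞ := ∫⁻ x : E, ENNReal.ofReal (Real.exp (-‖x‖))

theorem Sph_norm [Nontrivial E] : Sph E (fun x => ‖x‖) * Arad E = 1 := by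
  rw [← gauss_homog (by fun_prop)]
  · have : ∀ x : E, x ≠ 0 → ENNReal.ofReal ((‖x‖ / ‖x‖) ^ finrank ℝ E) = 1 := by
      intro x hx
      rw [div_self (norm_ne_zero_iff.2 hx)]
      simp
    have h2 : (fun x : E => ENNReal.ofReal ((‖x‖ / ‖x‖) ^ finrank ℝ E)) =ᵐ[stdGaussian E]
        fun _ => 1 := by
      have : ∀ᵐ x ∂(stdGaussian E), x ≠ 0 := by
        rw [stdGaussian_eq_withDensity]
        refine (withDensity_absolutelyContinuous _ _).ae_le ?_
        exact Measure.ae_ne volume (0 : E)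
      filter_upwards [this] with x hx
      rw [div_self (norm_ne_zero_iff.2 hx)]
      simp
    rw [lintegral_congr_ae h2]
    simp
  · intro r x hr
    rw [norm_smul, Real.norm_of_nonneg hr.le]

theorem gauss_eq [Nontrivial E] {N : E → ℝ} (hN : Measurable N)
    (hh : ∀ (r : ℝ) (x : E), 0 < r → N (r • x) = r * N x) (hpos : ∀ x : E, x ≠ 0 → 0 < N x) :
    (∫⁻ x, ENNReal.ofReal ((‖x‖ / N x) ^ finrank ℝ E) ∂(stdGaussian E)) * Z E =
      ∫⁻ x : E, ENNReal.ofReal (Real.exp (-N x)) := by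
  have hZ : Z E = Sph E (fun x => ‖x‖) * ENNReal.ofReal (Real.Gamma (finrank ℝ E)) := by
    rw [Z]
    apply exp_homog (by fun_prop)
    · intro r x hr
      rw [norm_smul, Real.norm_of_nonneg hr.le]
    · intro x hx; exact norm_pos_iff.2 hx
  rw [gauss_homog hN hh, exp_homog hN hh hpos, hZ]
  calc _ = Sph E N * ENNReal.ofReal (Real.Gamma (finrank ℝ E)) * (Sph E (fun x => ‖x‖) * Arad E) := by
        ring
    _ = _ := by rw [Sph_norm, mul_one]

/-- value of `∫ exp (-β ‖x‖)` -/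
theorem lintegral_exp_norm {β : ℝ} (hβ : 0 < β) :
    ∫⁻ x : E, ENNReal.ofReal (Real.exp (-(β * ‖x‖))) = ENNReal.ofReal (β⁻¹ ^ finrank ℝ E) * Z E := by
  have h := lintegral_map (μ := (volume : Measure E)) (g := fun x : E => β • x)
    (f := fun x : E => ENNReal.ofReal (Real.exp (-‖x‖))) (by fun_prop) (by fun_prop)
  rw [Measure.map_addHaar_smul _ hβ.ne', lintegral_smul_measure] at h
  simp only [norm_smul, Real.norm_of_nonneg hβ.le] at h
  rw [← h, Z, inv_pow, abs_of_pos (by positivity)]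
  rfl

theorem Z_eq [Nontrivial E] : Z E = ENNReal.ofReal (Real.Gamma (finrank ℝ E + 1)) *
    volume (Metric.ball (0 : E) 1) := by
  have hn : 0 < finrank ℝ E := finrank_pos
  have hZ : Z E = Sph E (fun x => ‖x‖) * ENNReal.ofReal (Real.Gamma (finrank ℝ E)) := by
    rw [Z]
    apply exp_homog (by fun_prop)
    · intro r x hr
      rw [norm_smul, Real.norm_of_nonneg hr.le]
    · intro x hx; exact norm_pos_iff.2 hx
  have h2 : Sph E (fun x => ‖x‖) = finrank ℝ E * volume (Metric.ball (0 : E) 1) := by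
    rw [Sph]
    have : ∀ θ : Metric.sphere (0 : E) 1, ENNReal.ofReal (‖(θ : E)‖⁻¹ ^ finrank ℝ E) = 1 := by
      intro θ
      have hθ : ‖(θ : E)‖ = 1 := by simp
      rw [hθ]; simp
    simp_rw [this]
    rw [lintegral_const, one_mul, Measure.toSphere_apply_univ]
  rw [hZ, h2, Real.Gamma_add_one (by positivity), ENNReal.ofReal_mul (by positivity),
    ENNReal.ofReal_natCast]
  ring

theorem lintegral_split (U : Submodule ℝ E) {f : U → ℝ≥0∞} {g : Uᗮ → ℝ≥0∞}
    (hf : Measurable f) (hg : Measurable g) :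
    ∫⁻ x : E, f (U.orthogonalProjectionOnto x) * g (Uᗮ.orthogonalProjectionOnto x) =
      (∫⁻ p : U, f p) * ∫⁻ w : Uᗮ, g w := by
  have hmp : MeasurePreserving (fun x : E => (U.orthogonalProjectionOnto x,
      Uᗮ.orthogonalProjectionOnto x)) := by
    have h := (WithLp.volume_preserving_ofLp U Uᗮ).comp
      (U.orthogonalDecomposition.measurePreserving)
    convert h using 1
    funext x
    simp
  have h2 := hmp.lintegral_comp (f := fun q : U × Uᗮ => f q.1 * g q.2)
    ((hf.comp measurable_fst).mul (hg.comp measurable_snd))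
  simp only at h2
  rw [h2, Measure.volume_eq_prod, lintegral_prod_mul hf.aemeasurable hg.aemeasurable]

theorem gauss_split [Nontrivial E] (U : Submodule ℝ E) {α β : ℝ} (hα : 0 < α) (hβ : 0 < β) :
    (∫⁻ x, ENNReal.ofReal ((‖x‖ / (α * ‖Uᗮ.orthogonalProjectionOnto x‖ +
      β * ‖U.orthogonalProjectionOnto x‖)) ^ finrank ℝ E) ∂(stdGaussian E)) * Z E =
      (ENNReal.ofReal (β⁻¹ ^ finrank ℝ U) * Z U) * (ENNReal.ofReal (α⁻¹ ^ finrank ℝ Uᗮ) * Z Uᗮ) := by
  rw [gauss_eq (by fun_prop)]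
  · rw [← lintegral_exp_norm hβ, ← lintegral_exp_norm hα, ← lintegral_split U (by fun_prop)
      (by fun_prop)]
    apply lintegral_congr
    intro x
    rw [← ENNReal.ofReal_mul (by positivity), ← Real.exp_add]
    congr 2
    ring
  · intro r x hr
    simp only [map_smul, norm_smul, Real.norm_of_nonneg hr.le]
    ring
  · intro x hx
    have h := U.norm_sq_eq_add_norm_sq_projection x
    by_contra hcon
    push Not at hcon
    have h1 : 0 ≤ ‖Uᗮ.orthogonalProjectionOnto x‖ := norm_nonneg _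
    have h2 : 0 ≤ ‖U.orthogonalProjectionOnto x‖ := norm_nonneg _
    have h3 : 0 ≤ α * ‖Uᗮ.orthogonalProjectionOnto x‖ := by positivity
    have h4 : 0 ≤ β * ‖U.orthogonalProjectionOnto x‖ := by positivity
    have h5 : α * ‖Uᗮ.orthogonalProjectionOnto x‖ = 0 := by linarith
    have h6 : β * ‖U.orthogonalProjectionOnto x‖ = 0 := by linarith
    have h7 := (mul_eq_zero.1 h5).resolve_left hα.ne'
    have h8 := (mul_eq_zero.1 h6).resolve_left hβ.ne'
    rw [h7, h8] at h
    have h9 : ‖x‖ = 0 := by nlinarith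
    exact hx (norm_eq_zero.1 h9)

end Pool.Agent.H43.Gauss
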