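import Pool.Agent.H43.Gauss1

set_option autoImplicit false

namespace Pool.Agent.H43.Gauss

open MeasureTheory ProbabilityTheory Module Real
open scoped ENNReal RealInnerProductSpace

set_option linter.unusedSectionVars false

variable {E : Type*} [NormedAddCommGroup E] [InnerProductSpace ℝ E] [FiniteDimensional ℝ E]
  [MeasurableSpace E] [BorelSpace E]

/-- Gram determinant of two vectors. -/
noncomputable def G2 (a b : E) : ℝ := ‖a‖ ^ 2 * ‖b‖ ^ 2 - ⟪a, b⟫ ^ 2

/-- The numerator of the squared length of the projection to the span. -/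
noncomputable def Q (a b u : E) : ℝ := ‖⟪a, u⟫ • b - ⟪b, u⟫ • a‖ ^ 2

theorem Q_eq (a b u : E) : Q a b u = ⟪a, u⟫ ^ 2 * ‖b‖ ^ 2 - 2 * ⟪a, b⟫ * ⟪a, u⟫ * ⟪b, u⟫ +
    ⟪b, u⟫ ^ 2 * ‖a‖ ^ 2 := by
  rw [Q, norm_sub_sq_real, norm_smul, norm_smul, real_inner_smul_left, real_inner_smul_right,
    mul_pow, mul_pow, Real.norm_eq_abs, Real.norm_eq_abs, sq_abs, sq_abs, real_inner_comm a b]
  ring

/-- Squared length of the orthogonal projection to the span of two independent vectors. -/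
theorem norm_sq_proj {a b : E} (h : 0 < G2 a b) (u : E) :
    ‖(Submodule.span ℝ {a, b}).orthogonalProjectionOnto u‖ ^ 2 = Q a b u / G2 a b := by
  set U := Submodule.span ℝ {a, b} with hU
  have ha : a ∈ U := Submodule.subset_span (by simp)
  have hb : b ∈ U := Submodule.subset_span (by simp)
  set c1 := (‖b‖ ^ 2 * ⟪a, u⟫ - ⟪a, b⟫ * ⟪b, u⟫) / G2 a b with hc1
  set c2 := (‖a‖ ^ 2 * ⟪b, u⟫ - ⟪a, b⟫ * ⟪a, u⟫) / G2 a b with hc2
  set v := c1 • a + c2 • b with hv
  have hvU : v ∈ U := U.add_mem (U.smul_mem _ ha) (U.smul_mem _ hb)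
  have hav : ⟪a, v⟫ = ⟪a, u⟫ := by
    rw [hv, inner_add_right, real_inner_smul_right, real_inner_smul_right, real_inner_self_eq_norm_sq,
      hc1, hc2]
    have : G2 a b ≠ 0 := h.ne'
    field_simp
    rw [G2]; ring
  have hbv : ⟪b, v⟫ = ⟪b, u⟫ := by
    rw [hv, inner_add_right, real_inner_smul_right, real_inner_smul_right, real_inner_self_eq_norm_sq,
      hc1, hc2, real_inner_comm a b]
    have : G2 a b ≠ 0 := h.ne'
    field_simp
    rw [G2]; ring
  have horth : u - v ∈ Uᗮ := by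
    rw [Submodule.mem_orthogonal]
    intro w hw
    rw [hU, Submodule.mem_span_pair] at hw
    obtain ⟨x, y, rfl⟩ := hw
    rw [inner_add_left, real_inner_smul_left, real_inner_smul_left, inner_sub_right, inner_sub_right,
      hav, hbv]
    ring
  have hproj : U.starProjection u = v := Submodule.eq_starProjection_of_mem_orthogonal hvU horth
  have hn : ‖U.orthogonalProjectionOnto u‖ = ‖v‖ := by
    rw [← hproj]; rfl
  rw [hn, ← real_inner_self_eq_norm_sq]
  have : ⟪v, v⟫ = c1 * ⟪a, u⟫ + c2 * ⟪b, u⟫ := by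
    conv_lhs => rw [hv]
    rw [inner_add_left, real_inner_smul_left, real_inner_smul_left, ← hv, hav, hbv]
  rw [this, Q_eq, hc1, hc2]
  have : G2 a b ≠ 0 := h.ne'
  field_simp
  ring

/-- The integrand. -/
noncomputable def H (n : ℕ) (a b u : E) : ℝ :=
  (‖u‖ / (π * √(‖u‖ ^ 2 - Q a b u / G2 a b) + 4 * √(Q a b u / G2 a b))) ^ n

theorem H_eq {a b : E} (h : 0 < G2 a b) (n : ℕ) (u : E) :
    H n a b u = (‖u‖ / (π * ‖(Submodule.span ℝ {a, b})ᗮ.orthogonalProjectionOnto u‖ +
      4 * ‖(Submodule.span ℝ {a, b}).orthogonalProjectionOnto u‖)) ^ n := by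
  have h1 := (Submodule.span ℝ {a, b}).norm_sq_eq_add_norm_sq_projection u
  rw [H, ← norm_sq_proj h u, Real.sqrt_sq (norm_nonneg _), h1, add_sub_cancel_left,
    Real.sqrt_sq (norm_nonneg _)]

theorem H_isometry (n : ℕ) (R : E ≃ₗᵢ[ℝ] E) (a b u : E) : H n (R a) (R b) (R u) = H n a b u := by
  simp only [H, Q_eq, G2, LinearIsometryEquiv.norm_map, LinearIsometryEquiv.inner_map_map]

theorem H_smul (n : ℕ) {c : ℝ} (hc : 0 < c) (a b u : E) : H n a b (c • u) = H n a b u := by
  have h1 : Q a b (c • u) = c ^ 2 * Q a b u := by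
    simp only [Q_eq, real_inner_smul_right]; ring
  have h2 : ‖c • u‖ = c * ‖u‖ := by rw [norm_smul, Real.norm_of_nonneg hc.le]
  have h3 : √((c * ‖u‖) ^ 2 - c ^ 2 * Q a b u / G2 a b) = c * √(‖u‖ ^ 2 - Q a b u / G2 a b) := by
    rw [show (c * ‖u‖) ^ 2 - c ^ 2 * Q a b u / G2 a b = c ^ 2 * (‖u‖ ^ 2 - Q a b u / G2 a b) by ring,
      Real.sqrt_mul (by positivity), Real.sqrt_sq hc.le]
  have h4 : √(c ^ 2 * Q a b u / G2 a b) = c * √(Q a b u / G2 a b) := by
    rw [mul_div_assoc, Real.sqrt_mul (by positivity), Real.sqrt_sq hc.le]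
  rw [H, H, h1, h2, h3, h4]
  congr 1
  rw [show π * (c * √(‖u‖ ^ 2 - Q a b u / G2 a b)) + 4 * (c * √(Q a b u / G2 a b)) =
    c * (π * √(‖u‖ ^ 2 - Q a b u / G2 a b) + 4 * √(Q a b u / G2 a b)) by ring]
  rw [mul_div_mul_left _ _ hc.ne']

theorem measurable_H (n : ℕ) : Measurable (fun p : E × E × E => H n p.1 p.2.1 p.2.2) := by
  simp only [H, Q, G2]
  fun_prop

/-- The Gaussian average of `H` over the pair. -/
noncomputable def I2 (n : ℕ) (u : E) : ℝ≥0∞ :=
  ∫⁻ a, ∫⁻ b, ENNReal.ofReal (H n a b u) ∂(stdGaussian E) ∂(stdGaussian E)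

theorem I2_isometry (n : ℕ) (R : E ≃ₗᵢ[ℝ] E) (u : E) : I2 n (R u) = I2 n u := by
  have hR := stdGaussian_map (E := E) R
  rw [I2]
  conv_lhs => rw [← hR]
  rw [lintegral_map (f := fun a => ∫⁻ b, ENNReal.ofReal (H n a b (R u))
    ∂((stdGaussian E).map R)) ?_ R.continuous.measurable]
  · rw [I2]
    apply lintegral_congr
    intro a
    rw [lintegral_map (f := fun b => ENNReal.ofReal (H n (R a) b (R u))) ?_ R.continuous.measurable]
    · simp only [H_isometry]
    · have := (measurable_H (E := E) n).comp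
        (show Measurable (fun b : E => ((R a, b, R u) : E × E × E)) by fun_prop)
      exact this.ennreal_ofReal
  · rw [hR]
    apply Measurable.lintegral_prod_right'
      (f := fun p : E × E => ENNReal.ofReal (H n p.1 p.2 (R u)))
    have := (measurable_H (E := E) n).comp
        (show Measurable (fun p : E × E => ((p.1, p.2, R u) : E × E × E)) by fun_prop)
    exact this.ennreal_ofReal

theorem I2_const (n : ℕ) {u v : E} (hu : u ≠ 0) (hv : v ≠ 0) : I2 n u = I2 n v := by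
  have hc : 0 < ‖v‖ / ‖u‖ := div_pos (norm_pos_iff.2 hv) (norm_pos_iff.2 hu)
  have h1 : I2 n ((‖v‖ / ‖u‖) • u) = I2 n u := by
    rw [I2, I2]
    simp only [H_smul n hc]
  have h2 : ‖(‖v‖ / ‖u‖) • u‖ = ‖v‖ := by
    rw [norm_smul, Real.norm_of_nonneg hc.le, div_mul_cancel₀ _ (norm_ne_zero_iff.2 hu)]
  rw [← h1, ← I2_isometry n (((ℝ ∙ ((‖v‖ / ‖u‖) • u - v))ᗮ).reflection),
    Submodule.reflection_sub h2]

theorem ae_ne_zero [Nontrivial E] : ∀ᵐ x ∂(stdGaussian E), x ≠ 0 := by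
  rw [stdGaussian_eq_withDensity]
  refine (withDensity_absolutelyContinuous _ _).ae_le ?_
  exact Measure.ae_ne volume (0 : E)

theorem ae_notMem_submodule (U : Submodule ℝ E) (hU : U ≠ ⊤) :
    ∀ᵐ x ∂(stdGaussian E), x ∉ U := by
  rw [stdGaussian_eq_withDensity]
  refine (withDensity_absolutelyContinuous _ _).ae_le ?_
  have := Measure.addHaar_submodule (volume : Measure E) U hU
  exact measure_eq_zero_iff_ae_notMem.1 this

/-- Two Gaussian vectors are almost surely independent. -/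
theorem ae_G2_pos (hE : 2 ≤ finrank ℝ E) {b : E} (hb : b ≠ 0) :
    ∀ᵐ a ∂(stdGaussian E), 0 < G2 a b := by
  have hU : (ℝ ∙ b) ≠ ⊤ := by
    intro h
    have h1 := finrank_span_singleton (K := ℝ) hb
    rw [h, finrank_top] at h1
    omega
  filter_upwards [ae_notMem_submodule (ℝ ∙ b) hU] with a ha
  rw [G2, sub_pos]
  have h1 : |⟪a, b⟫| < ‖a‖ * ‖b‖ := by
    refine lt_of_le_of_ne (abs_real_inner_le_norm a b) ?_
    intro h
    by_cases ha0 : a = 0
    · exact ha (ha0 ▸ Submodule.zero_mem _)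
    have h2 := (abs_real_inner_div_norm_mul_norm_eq_one_iff a b).1 (by
      rw [abs_div, h, abs_of_nonneg (by positivity : (0:ℝ) ≤ ‖a‖ * ‖b‖)]
      exact div_self (mul_ne_zero (norm_ne_zero_iff.2 ha0) (norm_ne_zero_iff.2 hb)))
    obtain ⟨-, r, hr, hbr⟩ := h2
    apply ha
    rw [Submodule.mem_span_singleton]
    exact ⟨r⁻¹, by rw [hbr, smul_smul, inv_mul_cancel₀ hr, one_smul]⟩
  calc ⟪a, b⟫ ^ 2 = |⟪a, b⟫| ^ 2 := (sq_abs _).symm
    _ < (‖a‖ * ‖b‖) ^ 2 := by
        apply pow_lt_pow_left₀ h1 (abs_nonneg _) (by norm_num)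
    _ = _ := by ring

theorem finrank_span_of_G2 {a b : E} (h : 0 < G2 a b) :
    finrank ℝ (Submodule.span ℝ {a, b}) = 2 := by
  have hli : LinearIndependent ℝ ![a, b] := by
    rw [LinearIndependent.pair_iff]
    intro s t hst
    have h1 : ⟪s • a + t • b, b⟫ = 0 := by rw [hst, inner_zero_left]
    have h2 : ⟪s • a + t • b, a⟫ = 0 := by rw [hst, inner_zero_left]
    rw [inner_add_left, real_inner_smul_left, real_inner_smul_left,
      real_inner_self_eq_norm_sq] at h1 h2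
    rw [real_inner_comm a b] at h2
    have h3 : s * G2 a b = 0 := by
      rw [G2]; linear_combination (‖b‖ ^ 2) * h2 - ⟪a, b⟫ * h1
    have h4 : t * G2 a b = 0 := by
      rw [G2]; linear_combination (‖a‖ ^ 2) * h1 - ⟪a, b⟫ * h2
    exact ⟨(mul_eq_zero.1 h3).resolve_right h.ne', (mul_eq_zero.1 h4).resolve_right h.ne'⟩
  have := finrank_span_eq_card hli
  rw [Matrix.range_cons, Matrix.range_cons, Matrix.range_empty, Set.union_empty,
    Set.singleton_union] at this
  rw [this]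
  simp

/-- `∫ exp (-‖x‖)` in dimension `d`. -/
noncomputable def zd (d : ℕ) : ℝ := Real.Gamma (d + 1) * (√π ^ d / Real.Gamma (d / 2 + 1))

theorem zd_pos (d : ℕ) : 0 < zd d := by
  have h1 : 0 < Real.Gamma (d + 1) := Real.Gamma_pos_of_pos (by positivity)
  have h2 : 0 < Real.Gamma ((d : ℝ) / 2 + 1) := Real.Gamma_pos_of_pos (by positivity)
  have h3 : 0 < √π := Real.sqrt_pos.2 Real.pi_pos
  rw [zd]; positivity

theorem Z_eq_zd [Nontrivial E] : Z E = ENNReal.ofReal (zd (finrank ℝ E)) := by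
  rw [Z_eq, InnerProductSpace.volume_ball, ENNReal.ofReal_one, one_pow, one_mul,
    ← ENNReal.ofReal_mul (Real.Gamma_pos_of_pos (by positivity)).le, zd]

theorem lintegral_H {a b : E} (h : 0 < G2 a b) (hE : 3 ≤ finrank ℝ E) :
    (∫⁻ u, ENNReal.ofReal (H (finrank ℝ E) a b u) ∂(stdGaussian E)) *
      ENNReal.ofReal (zd (finrank ℝ E)) =
      (ENNReal.ofReal ((4 : ℝ)⁻¹ ^ 2) * ENNReal.ofReal (zd 2)) *
        (ENNReal.ofReal (π⁻¹ ^ (finrank ℝ E - 2)) * ENNReal.ofReal (zd (finrank ℝ E - 2))) := by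
  have hnt : Nontrivial E := by
    apply Module.nontrivial_of_finrank_pos (R := ℝ); omega
  set U := Submodule.span ℝ {a, b} with hU
  have hU2 : finrank ℝ U = 2 := finrank_span_of_G2 h
  have hUo : finrank ℝ Uᗮ = finrank ℝ E - 2 := by
    have := U.finrank_add_finrank_orthogonal
    omega
  have : Nontrivial U := by
    apply Module.nontrivial_of_finrank_pos (R := ℝ); omega
  have : Nontrivial Uᗮ := by
    apply Module.nontrivial_of_finrank_pos (R := ℝ); omega
  simp_rw [H_eq h]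
  rw [← Z_eq_zd, gauss_split U Real.pi_pos (by norm_num : (0 : ℝ) < 4), Z_eq_zd (E := U),
    Z_eq_zd (E := Uᗮ), hU2, hUo]

theorem G2_comm (a b : E) : G2 a b = G2 b a := by
  rw [G2, G2, real_inner_comm a b]; ring

theorem I2_val (hE : 3 ≤ finrank ℝ E) {e : E} (he : e ≠ 0) :
    I2 (finrank ℝ E) e * ENNReal.ofReal (zd (finrank ℝ E)) =
      (ENNReal.ofReal ((4 : ℝ)⁻¹ ^ 2) * ENNReal.ofReal (zd 2)) *
        (ENNReal.ofReal (π⁻¹ ^ (finrank ℝ E - 2)) * ENNReal.ofReal (zd (finrank ℝ E - 2))) := by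
  have hnt : Nontrivial E := by
    apply Module.nontrivial_of_finrank_pos (R := ℝ); omega
  set n := finrank ℝ E with hn
  have h1 : I2 n e = ∫⁻ v, I2 n v ∂(stdGaussian E) := by
    have : (fun v : E => I2 n v) =ᵐ[stdGaussian E] fun _ => I2 n e := by
      filter_upwards [ae_ne_zero (E := E)] with v hv
      exact I2_const n hv he
    rw [lintegral_congr_ae this]
    simp
  have hm := measurable_H (E := E) n
  have hm' : Measurable (fun p : E × E × E => ENNReal.ofReal (H n p.1 p.2.1 p.2.2)) :=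
    hm.ennreal_ofReal
  have h2 : ∫⁻ v, I2 n v ∂(stdGaussian E) = ∫⁻ a, ∫⁻ b, ∫⁻ v, ENNReal.ofReal (H n a b v)
      ∂(stdGaussian E) ∂(stdGaussian E) ∂(stdGaussian E) := by
    simp only [I2]
    rw [lintegral_lintegral_swap]
    · apply lintegral_congr
      intro a
      rw [lintegral_lintegral_swap]
      have := hm'.comp (show Measurable (fun p : E × E => ((a, p.2, p.1) : E × E × E)) by fun_prop)
      exact this.aemeasurable
    · have := hm'.comp (show Measurable (fun p : (E × E) × E => ((p.1.2, p.2, p.1.1) : E × E × E))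
        by fun_prop)
      exact (this.lintegral_prod_right').aemeasurable
  rw [h1, h2, ← lintegral_mul_const]
  · have : (fun a : E => (∫⁻ b, ∫⁻ v, ENNReal.ofReal (H n a b v)
      ∂(stdGaussian E) ∂(stdGaussian E)) * ENNReal.ofReal (zd n)) =ᵐ[stdGaussian E]
      fun _ => (ENNReal.ofReal ((4 : ℝ)⁻¹ ^ 2) * ENNReal.ofReal (zd 2)) *
        (ENNReal.ofReal (π⁻¹ ^ (n - 2)) * ENNReal.ofReal (zd (n - 2))) := by
      filter_upwards [ae_ne_zero (E := E)] with a ha
      rw [← lintegral_mul_const]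
      · have h3 : (fun b : E => (∫⁻ v, ENNReal.ofReal (H n a b v) ∂(stdGaussian E)) *
          ENNReal.ofReal (zd n)) =ᵐ[stdGaussian E]
          fun _ => (ENNReal.ofReal ((4 : ℝ)⁻¹ ^ 2) * ENNReal.ofReal (zd 2)) *
        (ENNReal.ofReal (π⁻¹ ^ (n - 2)) * ENNReal.ofReal (zd (n - 2))) := by
          filter_upwards [ae_G2_pos (by omega) ha] with b hb
          rw [G2_comm] at hb
          exact lintegral_H hb hE
        rw [lintegral_congr_ae h3]
        simp
      · have := hm'.comp (show Measurable (fun p : E × E => ((a, p.1, p.2) : E × E × E)) by fun_prop)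
        exact this.lintegral_prod_right'
    rw [lintegral_congr_ae this]
    simp
  · have := hm'.comp (show Measurable (fun p : (E × E) × E => ((p.1.1, p.1.2, p.2) : E × E × E))
        by fun_prop)
    exact this.lintegral_prod_right'.lintegral_prod_right'

/-- One dimensional average. -/
theorem I1_val (hE : 2 ≤ finrank ℝ E) {e : E} (he : e ≠ 0) :
    (∫⁻ x, ENNReal.ofReal ((‖x‖ / (2 * ‖(ℝ ∙ e)ᗮ.orthogonalProjectionOnto x‖ +
      2 * ‖(ℝ ∙ e).orthogonalProjectionOnto x‖)) ^ finrank ℝ E) ∂(stdGaussian E)) *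
      ENNReal.ofReal (zd (finrank ℝ E)) =
      (ENNReal.ofReal ((2 : ℝ)⁻¹ ^ 1) * ENNReal.ofReal (zd 1)) *
        (ENNReal.ofReal ((2 : ℝ)⁻¹ ^ (finrank ℝ E - 1)) * ENNReal.ofReal (zd (finrank ℝ E - 1))) := by
  have hnt : Nontrivial E := by
    apply Module.nontrivial_of_finrank_pos (R := ℝ); omega
  set U := (ℝ ∙ e) with hU
  have hU2 : finrank ℝ U = 1 := finrank_span_singleton he
  have hUo : finrank ℝ Uᗮ = finrank ℝ E - 1 := by
    have := U.finrank_add_finrank_orthogonal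
    omega
  have : Nontrivial U := by
    apply Module.nontrivial_of_finrank_pos (R := ℝ); omega
  have : Nontrivial Uᗮ := by
    apply Module.nontrivial_of_finrank_pos (R := ℝ); omega
  rw [← Z_eq_zd, gauss_split U (by norm_num : (0 : ℝ) < 2) (by norm_num : (0 : ℝ) < 2),
    Z_eq_zd (E := U), Z_eq_zd (E := Uᗮ), hU2, hUo]

end Pool.Agent.H43.Gauss
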