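import Pool.Agent.H43.Gauss2

set_option autoImplicit false

namespace Pool.Agent.H43.Gauss

open MeasureTheory ProbabilityTheory Module Real
open scoped ENNReal RealInnerProductSpace

theorem zd_one : zd 1 = 2 := by
  have h1 : Real.Gamma ((1 : ℕ) + 1) = 1 := by
    norm_num [Real.Gamma_two]
  have h2 : Real.Gamma (((1 : ℕ) : ℝ) / 2 + 1) = √π / 2 := by
    have : ((1 : ℕ) : ℝ) / 2 + 1 = 1 / 2 + 1 := by norm_num
    rw [this, Real.Gamma_add_one (by norm_num), Real.Gamma_one_half_eq]; ring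
  have h3 : √π ≠ 0 := (Real.sqrt_pos.2 Real.pi_pos).ne'
  rw [zd, h1, h2]
  field_simp

theorem zd_two : zd 2 = 2 * π := by
  have h1 : Real.Gamma ((2 : ℕ) + 1) = 2 := by
    rw [Real.Gamma_add_one (by norm_num)]
    norm_num [Real.Gamma_two]
  have h2 : Real.Gamma (((2 : ℕ) : ℝ) / 2 + 1) = 1 := by
    norm_num [Real.Gamma_two]
  rw [zd, h1, h2, div_one, Real.sq_sqrt Real.pi_pos.le]

theorem zd_logconvex (m : ℕ) : (m + 1 : ℝ) * (zd m * zd (m + 2)) ≤ (m + 2) * zd (m + 1) ^ 2 := by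
  have hA : Real.Gamma (((m + 1 : ℕ) : ℝ) + 1) = (m + 1) * Real.Gamma ((m : ℝ) + 1) := by
    push_cast
    rw [Real.Gamma_add_one (by positivity)]
  have hB : Real.Gamma (((m + 2 : ℕ) : ℝ) + 1) = (m + 2) * ((m + 1) * Real.Gamma ((m : ℝ) + 1)) := by
    push_cast
    rw [Real.Gamma_add_one (by positivity), show (m : ℝ) + 2 = (m : ℝ) + 1 + 1 by ring,
      Real.Gamma_add_one (by positivity)]
  have hG : 0 < Real.Gamma ((m : ℝ) + 1) := Real.Gamma_pos_of_pos (by positivity)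
  have h0 : 0 < Real.Gamma ((m : ℝ) / 2 + 1) := Real.Gamma_pos_of_pos (by positivity)
  have h1 : 0 < Real.Gamma (((m + 1 : ℕ) : ℝ) / 2 + 1) := Real.Gamma_pos_of_pos (by positivity)
  have h2 : 0 < Real.Gamma (((m + 2 : ℕ) : ℝ) / 2 + 1) := Real.Gamma_pos_of_pos (by positivity)
  have hconv : Real.Gamma (((m + 1 : ℕ) : ℝ) / 2 + 1) ^ 2 ≤
      Real.Gamma ((m : ℝ) / 2 + 1) * Real.Gamma (((m + 2 : ℕ) : ℝ) / 2 + 1) := by
    have h := Real.Gamma_mul_add_mul_le_rpow_Gamma_mul_rpow_Gamma (s := (m : ℝ) / 2 + 1)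
      (t := ((m + 2 : ℕ) : ℝ) / 2 + 1) (a := 1 / 2) (b := 1 / 2) (by positivity) (by positivity)
      (by norm_num) (by norm_num) (by norm_num)
    have h3 : (1 / 2 : ℝ) * ((m : ℝ) / 2 + 1) + 1 / 2 * (((m + 2 : ℕ) : ℝ) / 2 + 1) =
        ((m + 1 : ℕ) : ℝ) / 2 + 1 := by push_cast; ring
    rw [h3] at h
    calc _ ≤ (Real.Gamma ((m : ℝ) / 2 + 1) ^ (1 / 2 : ℝ) *
        Real.Gamma (((m + 2 : ℕ) : ℝ) / 2 + 1) ^ (1 / 2 : ℝ)) ^ 2 :=
          pow_le_pow_left₀ h1.le h 2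
      _ = _ := by
        rw [mul_pow, ← Real.rpow_natCast, ← Real.rpow_mul h0.le, ← Real.rpow_natCast,
          ← Real.rpow_mul h2.le]
        norm_num
  have hs : 0 < √π := Real.sqrt_pos.2 Real.pi_pos
  simp only [zd]
  rw [hA, hB]
  have e1 : (m + 1 : ℝ) * (Real.Gamma ((m : ℝ) + 1) * (√π ^ m / Real.Gamma ((m : ℝ) / 2 + 1)) *
      ((m + 2) * ((m + 1) * Real.Gamma ((m : ℝ) + 1)) *
        (√π ^ (m + 2) / Real.Gamma (((m + 2 : ℕ) : ℝ) / 2 + 1)))) =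
      ((m + 2) * (m + 1) ^ 2 * Real.Gamma ((m : ℝ) + 1) ^ 2 * √π ^ (2 * m + 2)) *
      (1 / (Real.Gamma ((m : ℝ) / 2 + 1) * Real.Gamma (((m + 2 : ℕ) : ℝ) / 2 + 1))) := by
    field_simp
    ring
  have e2 : (m + 2 : ℝ) * ((m + 1) * Real.Gamma ((m : ℝ) + 1) *
      (√π ^ (m + 1) / Real.Gamma (((m + 1 : ℕ) : ℝ) / 2 + 1))) ^ 2 =
      ((m + 2) * (m + 1) ^ 2 * Real.Gamma ((m : ℝ) + 1) ^ 2 * √π ^ (2 * m + 2)) *
      (1 / (Real.Gamma (((m + 1 : ℕ) : ℝ) / 2 + 1) ^ 2)) := by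
    field_simp
    ring
  rw [e1, e2]
  apply mul_le_mul_of_nonneg_left _ (by positivity)
  exact one_div_le_one_div_of_le (by positivity) hconv

/-- The numerical inequality behind the counterexample, in dimension 100. -/
theorem zd_strict : π ^ 3 / 8 * (zd 98 * zd 100) < 4 * zd 99 ^ 2 := by
  have h := zd_logconvex 98
  norm_num at h
  have hpi : π < 3.15 := Real.pi_lt_d2
  have hpi0 := Real.pi_pos
  have h3 : π ^ 3 < 31.3 := by
    calc π ^ 3 < 3.15 ^ 3 := by gcongr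
      _ < 31.3 := by norm_num
  have hp : 0 < zd 98 * zd 100 := mul_pos (zd_pos _) (zd_pos _)
  nlinarith

end Pool.Agent.H43.Gauss
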