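import Mathlib

set_option autoImplicit false

namespace Pool.Agent.H43.Omega

open Set Cardinal

/-- Choice along a well founded order. -/
theorem exists_wf_seq {I X : Type*} [LinearOrder I] [WellFoundedLT I]
    (P : (α : I) → ((γ : I) → γ < α → X) → X → Prop) (h : ∀ α g, ∃ a, P α g a) :
    ∃ f : I → X, ∀ α, P α (fun γ _ => f γ) (f α) := by
  let F : I → X := (wellFounded_lt (α := I)).fix (fun α g => (h α g).choose)
  refine ⟨F, fun α => ?_⟩
  have h1 : F α = (h α (fun γ _ => F γ)).choose := by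
    change (wellFounded_lt (α := I)).fix _ α = _
    rw [WellFounded.fix_eq]
  rw [h1]
  exact (h α (fun γ _ => F γ)).choose_spec

/-- Under the continuum hypothesis there is a well-order of size continuum all of whose proper
initial segments are countable. -/
theorem ch_index (hCH : (continuum : Cardinal.{0}) = aleph 1) :
    ∃ (I : Type) (_ : LinearOrder I) (_ : WellFoundedLT I), #I = continuum ∧
      ∀ α : I, (Set.Iio α).Countable := by
  refine ⟨(continuum : Cardinal.{0}).ord.ToType, inferInstance, inferInstance,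
    mk_ord_toType _, fun α => ?_⟩
  rw [← le_aleph0_iff_set_countable, ← lt_aleph_one_iff, ← hCH]
  exact mk_Iio_toType_ord_lt α

/-- A countable base of the real line, as a sequence. -/
theorem exists_base : ∃ B : ℕ → Set ℝ, (∀ n, IsOpen (B n)) ∧
    ∀ O : Set ℝ, IsOpen O → ∃ a : Set ℕ, O = ⋃ n ∈ a, B n := by
  obtain ⟨b, hbc, -, hb⟩ := TopologicalSpace.exists_countable_basis ℝ
  have hne : b.Nonempty := by
    by_contra hcon
    rw [Set.not_nonempty_iff_eq_empty] at hcon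
    have h1 := hb.exists_subset_of_mem_open (Set.mem_univ (0 : ℝ)) isOpen_univ
    obtain ⟨v, hv, -⟩ := h1
    rw [hcon] at hv
    exact hv
  obtain ⟨B, hB⟩ := hbc.exists_eq_range hne
  refine ⟨B, fun n => hb.isOpen (hB ▸ ⟨n, rfl⟩), fun O hO => ⟨{n | B n ⊆ O}, ?_⟩⟩
  ext x
  simp only [Set.mem_iUnion, Set.mem_ofPred_eq, exists_prop]
  constructor
  · intro hx
    obtain ⟨v, hv, hxv, hvO⟩ := hb.exists_subset_of_mem_open hx hO
    rw [hB] at hv
    obtain ⟨n, rfl⟩ := hv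
    exact ⟨n, hvO, hxv⟩
  · rintro ⟨n, hn, hx⟩
    exact hn hx

/-- The transfinite construction. -/
theorem exists_points (hCH : (continuum : Cardinal.{0}) = aleph 1) :
    ∃ (I : Type) (_ : LinearOrder I) (z x : I → ℝ), (∀ α : I, (Set.Iio α).Countable) ∧
      (∀ r ∈ Set.Icc (0 : ℝ) 1, ∃ α, z α = r) ∧ (∀ α, z α ∈ Set.Icc (0 : ℝ) 1) ∧
      ∀ V : ℕ → Set ℝ, (∀ k, IsOpen (V k)) → ∃ β : I, ∀ α, β < α → ∀ A : Finset I,
        (∀ γ ∈ A, γ < α) →
        (∀ N, Dense {y : ℝ | ∃ k, N ≤ k ∧ (∀ γ ∈ A, x γ ∈ V k ∧ z γ - x γ ∈ V k) ∧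
          y ∈ V k ∧ z α - y ∈ V k}) →
        ∀ N, ∃ k, N ≤ k ∧ (∀ γ ∈ A, x γ ∈ V k ∧ z γ - x γ ∈ V k) ∧
          x α ∈ V k ∧ z α - x α ∈ V k := by
  obtain ⟨I, _, _, hI, hcount⟩ := ch_index hCH
  obtain ⟨B, hBo, hB⟩ := exists_base
  -- enumerations
  have hcode : #(ℕ → Set ℕ) = continuum := by simp
  obtain ⟨c⟩ : Nonempty (I ≃ (ℕ → Set ℕ)) := by
    rw [← Cardinal.eq, hI, hcode]
  have hK : #(Set.Icc (0 : ℝ) 1) = continuum := Cardinal.mk_Icc_real one_pos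
  obtain ⟨ze⟩ : Nonempty (I ≃ Set.Icc (0 : ℝ) 1) := by
    rw [← Cardinal.eq, hI, hK]
  let z : I → ℝ := fun α => (ze α : ℝ)
  let V : I → ℕ → Set ℝ := fun β k => ⋃ n ∈ c β k, B n
  have hVo : ∀ β k, IsOpen (V β k) := fun β k =>
    isOpen_biUnion fun n _ => hBo n
  let D : (α : I) → ((γ : I) → γ < α → ℝ) → (β : I) → Finset (Set.Iio α) → ℕ → Set ℝ :=
    fun α g β A N => {y : ℝ | ∃ k, N ≤ k ∧
      (∀ γ ∈ A, g γ.1 γ.2 ∈ V β k ∧ z γ.1 - g γ.1 γ.2 ∈ V β k) ∧ y ∈ V β k ∧ z α - y ∈ V β k}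
  have hDo : ∀ α g β A N, IsOpen (D α g β A N) := by
    intro α g β A N
    have : D α g β A N = ⋃ (k : ℕ) (_ : N ≤ k ∧
      (∀ γ ∈ A, g γ.1 γ.2 ∈ V β k ∧ z γ.1 - g γ.1 γ.2 ∈ V β k)),
        (V β k ∩ (fun y => z α - y) ⁻¹' V β k) := by
      ext y
      simp only [D, Set.mem_ofPred_eq, Set.mem_iUnion, Set.mem_inter_iff, Set.mem_preimage,
        exists_prop]
      constructor
      · rintro ⟨k, h1, h2, h3, h4⟩; exact ⟨k, ⟨h1, h2⟩, h3, h4⟩
      · rintro ⟨k, ⟨h1, h2⟩, h3, h4⟩; exact ⟨k, h1, h2, h3, h4⟩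
    rw [this]
    refine isOpen_iUnion fun k => isOpen_iUnion fun _ => (hVo β k).inter ((hVo β k).preimage ?_)
    fun_prop
  obtain ⟨x, hx⟩ := exists_wf_seq (I := I) (X := ℝ)
    (fun α g y => ∀ β : Set.Iio α, ∀ A : Finset (Set.Iio α), (∀ N, Dense (D α g β.1 A N)) →
      ∀ N, y ∈ D α g β.1 A N) (by
    intro α g
    have hc : Countable (Set.Iio α) := (hcount α).to_subtype
    let T : Type := {p : Set.Iio α × Finset (Set.Iio α) // ∀ N, Dense (D α g p.1.1 p.2 N)} × ℕ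
    have hd : Dense (⋂ t : T, D α g t.1.1.1.1 t.1.1.2 t.2) :=
      dense_iInter_of_isOpen (fun t => hDo _ _ _ _ _) (fun t => t.1.2 t.2)
    obtain ⟨y, hy⟩ := hd.nonempty
    refine ⟨y, fun β A h N => ?_⟩
    exact Set.mem_iInter.1 hy (⟨(β, A), h⟩, N))
  refine ⟨I, inferInstance, z, x, hcount, fun r hr => ⟨ze.symm ⟨r, hr⟩, by simp [z]⟩,
    fun α => (ze α).2, fun W hW => ?_⟩
  choose a ha using fun k => hB (W k) (hW k)
  obtain ⟨β, hβ⟩ := c.surjective a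
  have hVW : ∀ k, V β k = W k := by
    intro k
    rw [ha k]
    simp only [V, hβ]
  refine ⟨β, fun α hβα A hA hdense N => ?_⟩
  classical
  let A' : Finset (Set.Iio α) := A.attach.image fun γ => ⟨γ.1, hA γ.1 γ.2⟩
  have hA' : ∀ k, (∀ γ ∈ A', x γ.1 ∈ V β k ∧ z γ.1 - x γ.1 ∈ V β k) ↔
      (∀ γ ∈ A, x γ ∈ W k ∧ z γ - x γ ∈ W k) := by
    intro k
    rw [hVW]
    constructor
    · intro h γ hγ
      exact h ⟨γ, hA γ hγ⟩ (Finset.mem_image.2 ⟨⟨γ, hγ⟩, Finset.mem_attach _ _, rfl⟩)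
    · intro h γ hγ
      obtain ⟨γ', -, rfl⟩ := Finset.mem_image.1 hγ
      exact h γ'.1 γ'.2
  have hDeq : ∀ N, D α (fun γ _ => x γ) β A' N = {y : ℝ | ∃ k, N ≤ k ∧
      (∀ γ ∈ A, x γ ∈ W k ∧ z γ - x γ ∈ W k) ∧ y ∈ W k ∧ z α - y ∈ W k} := by
    intro N
    ext y
    simp only [D, Set.mem_ofPred_eq]
    constructor
    · rintro ⟨k, h1, h2, h3⟩
      exact ⟨k, h1, (hA' k).1 h2, by rwa [hVW] at h3⟩
    · rintro ⟨k, h1, h2, h3⟩
      exact ⟨k, h1, (hA' k).2 h2, by rwa [hVW]⟩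
  have h := hx α ⟨β, hβα⟩ A' (fun N => by rw [hDeq]; exact hdense N) N
  rw [hDeq] at h
  exact h

end Pool.Agent.H43.Omega
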