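import Pool.Agent.H43.Omega1

set_option autoImplicit false

namespace Pool.Agent.H43.Omega

open Set

/-- Every finite set is contained in a member. -/
def Om {Z : Type*} (𝒰 : Set (Set Z)) : Prop := ∀ F : Set Z, F.Finite → ∃ U ∈ 𝒰, F ⊆ U

theorem Om.exists_avoid {Z : Type*} {𝒰 : Set (Set Z)} (h : Om 𝒰) {F : Set Z} (hF : F.Finite)
    {𝒱 : Set (Set Z)} (h𝒱 : 𝒱.Finite) (hne : ∀ V ∈ 𝒱, V ≠ univ) :
    ∃ U ∈ 𝒰, F ⊆ U ∧ U ∉ 𝒱 := by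
  have hw : ∀ V : Set Z, ∃ w : Set Z, w.Finite ∧ (V ≠ univ → ∃ p ∈ w, p ∉ V) := by
    intro V
    by_cases hV : V = univ
    · exact ⟨∅, Set.finite_empty, fun h => absurd hV h⟩
    · obtain ⟨p, hp⟩ := (Set.ne_univ_iff_exists_notMem V).1 hV
      exact ⟨{p}, Set.finite_singleton p, fun _ => ⟨p, rfl, hp⟩⟩
  choose w hwf hw using hw
  obtain ⟨U, hU, hFU⟩ := h (F ∪ ⋃ V ∈ 𝒱, w V) (hF.union (h𝒱.biUnion fun V _ => hwf V))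
  refine ⟨U, hU, Set.subset_union_left.trans hFU, fun hU𝒱 => ?_⟩
  obtain ⟨p, hp, hpU⟩ := hw U (hne U hU𝒱)
  exact hpU (hFU (Or.inr (Set.mem_biUnion hU𝒱 hp)))

theorem Om.sdiff_or {Z : Type*} {𝒰 𝒬 : Set (Set Z)} (h : Om 𝒰) (hn : ¬ Om (𝒰 \ 𝒬)) : Om 𝒬 := by
  unfold Om at hn
  push Not at hn
  obtain ⟨F₀, hF₀, hn⟩ := hn
  intro F hF
  obtain ⟨U, hU, hFU⟩ := h (F ∪ F₀) (hF.union hF₀)
  refine ⟨U, ?_, Set.subset_union_left.trans hFU⟩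
  by_contra hUP
  exact hn U ⟨hU, hUP⟩ (Set.subset_union_right.trans hFU)

theorem exists_net (R : ℝ) {ε : ℝ} (hε : 0 < ε) :
    ∃ F : Finset ℚ, ∀ y : ℝ, |y| ≤ R → ∃ q ∈ F, |y - (q : ℝ)| < ε := by
  classical
  obtain ⟨N, hN⟩ := exists_nat_one_div_lt hε
  have hN0 : (0 : ℝ) < N + 1 := by positivity
  refine ⟨(Finset.Icc (-⌈R * (N + 1) + 1⌉) ⌈R * (N + 1) + 1⌉).image
    (fun j : ℤ => (j : ℚ) / (N + 1)), fun y hy => ?_⟩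
  rw [abs_le] at hy
  have h1 : y * (N + 1) ≤ R * (N + 1) := mul_le_mul_of_nonneg_right hy.2 hN0.le
  have h2 : -R * (N + 1) ≤ y * (N + 1) := mul_le_mul_of_nonneg_right hy.1 hN0.le
  have h3 : ((⌊y * (N + 1)⌋ : ℤ) : ℝ) ≤ y * (N + 1) := Int.floor_le _
  have h4 : y * (N + 1) < (⌊y * (N + 1)⌋ : ℤ) + 1 := Int.lt_floor_add_one _
  have h5 : R * (N + 1) + 1 ≤ (⌈R * (N + 1) + 1⌉ : ℤ) := Int.le_ceil _
  refine ⟨(⌊y * (N + 1)⌋ : ℚ) / (N + 1), Finset.mem_image.2 ⟨⌊y * (N + 1)⌋, ?_, rfl⟩, ?_⟩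
  · rw [Finset.mem_Icc]
    constructor
    · have : (-(⌈R * (N + 1) + 1⌉ : ℤ) : ℝ) ≤ (⌊y * (N + 1)⌋ : ℤ) := by linarith
      exact_mod_cast this
    · have : ((⌊y * (N + 1)⌋ : ℤ) : ℝ) ≤ (⌈R * (N + 1) + 1⌉ : ℤ) := by linarith
      exact_mod_cast this
  · push_cast
    have h6 : y - (⌊y * (N + 1)⌋ : ℤ) / (N + 1) = (y * (N + 1) - (⌊y * (N + 1)⌋ : ℤ)) / (N + 1) := by
      field_simp
    rw [h6, abs_of_nonneg (div_nonneg (by linarith) hN0.le), div_lt_iff₀ hN0]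
    have h7 : 1 < ε * (N + 1) := by
      rwa [div_lt_iff₀ hN0] at hN
    linarith

/-- The largest open set of reals whose trace on `X` is contained in `U`. -/
def ext {X : Set ℝ} (U : Set X) : Set ℝ := ⋃₀ {O : Set ℝ | IsOpen O ∧ Subtype.val ⁻¹' O ⊆ U}

theorem isOpen_ext {X : Set ℝ} (U : Set X) : IsOpen (ext U) :=
  isOpen_sUnion fun _ h => h.1

theorem mem_of_mem_ext {X : Set ℝ} {U : Set X} {p : X} (h : (p : ℝ) ∈ ext U) : p ∈ U := by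
  obtain ⟨O, hO, hp⟩ := h
  exact hO.2 hp

theorem mem_ext_of_mem {X : Set ℝ} {U : Set X} (hU : IsOpen U) {p : X} (h : p ∈ U) :
    (p : ℝ) ∈ ext U := by
  obtain ⟨O, hO, rfl⟩ := isOpen_induced_iff.1 hU
  exact ⟨O, ⟨hO, subset_rfl⟩, h⟩

/-- Two members of `ω`-covers of a set containing the rationals, in general position. -/
theorem exists_pair {X : Set ℝ} (hX : ∀ q : ℚ, (q : ℝ) ∈ X) {𝒰 𝒱 : Set (Set X)} (h𝒰 : Om 𝒰)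
    (h𝒱 : Om 𝒱) (ho𝒰 : ∀ U ∈ 𝒰, IsOpen U) (ho𝒱 : ∀ U ∈ 𝒱, IsOpen U) (hu : univ ∉ 𝒰)
    {𝒬 : Set (Set X)} (h𝒬 : 𝒬.Finite) (hne : ∀ V ∈ 𝒬, V ≠ univ) (k : ℕ) :
    ∃ U ∈ 𝒰, ∃ V ∈ 𝒱, U ∉ 𝒬 ∧ V ∉ 𝒬 ∧ U ≠ V ∧ ∀ w ∈ Set.Icc (0 : ℝ) 1, ∀ y₀ : ℝ, |y₀| ≤ k →
      ∃ y : ℝ, |y - y₀| < 1 / ((k : ℝ) + 1) ∧ y ∈ ext U ∪ ext V ∧ w - y ∈ ext U ∪ ext V := by
  have hk : (0 : ℝ) < 1 / (2 * ((k : ℝ) + 1)) := by positivity
  obtain ⟨F, hF⟩ := exists_net (k : ℝ) hk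
  let e : ℚ → X := fun q => ⟨q, hX q⟩
  obtain ⟨U, hU, hFU, hU𝒬⟩ := h𝒰.exists_avoid (F := e '' (F : Set ℚ)) (F.finite_toSet.image e)
    h𝒬 hne
  -- a common radius
  have hrad : ∀ G : Finset ℚ, (∀ q ∈ G, (q : ℝ) ∈ ext U) → ∃ ρ > 0, ρ ≤ 1 / (2 * ((k : ℝ) + 1)) ∧
      ∀ q ∈ G, Metric.ball (q : ℝ) ρ ⊆ ext U := by
    intro G
    induction G using Finset.induction_on with
    | empty => intro _; exact ⟨1 / (2 * ((k : ℝ) + 1)), hk, le_rfl, by simp⟩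
    | insert q G _ ih =>
      intro hG
      obtain ⟨ρ, hρ, hρk, hρG⟩ := ih fun q' hq' => hG q' (Finset.mem_insert_of_mem hq')
      obtain ⟨ρ', hρ', hρ'G⟩ := Metric.isOpen_iff.1 (isOpen_ext U) q
        (hG q (Finset.mem_insert_self q G))
      refine ⟨min ρ ρ', lt_min hρ hρ', (min_le_left _ _).trans hρk, fun q' hq' => ?_⟩
      rcases Finset.mem_insert.1 hq' with rfl | hq'
      · exact (Metric.ball_subset_ball (min_le_right _ _)).trans hρ'G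
      · exact (Metric.ball_subset_ball (min_le_left _ _)).trans (hρG q' hq')
  obtain ⟨ρ, hρ, hρk, hρF⟩ := hrad F fun q hq =>
    mem_ext_of_mem (ho𝒰 U hU) (p := e q) (hFU ⟨q, hq, rfl⟩)
  obtain ⟨G, hG⟩ := exists_net ((k : ℝ) + 2) hρ
  obtain ⟨V, hV, hGV, hV𝒬⟩ := h𝒱.exists_avoid (F := e '' (G : Set ℚ)) (G.finite_toSet.image e)
    (h𝒬.insert U) (by
      rintro W (rfl | hW)
      · rintro rfl; exact hu hU
      · exact hne W hW)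
  rw [Set.mem_insert_iff, not_or] at hV𝒬
  refine ⟨U, hU, V, hV, hU𝒬, hV𝒬.2, fun h => hV𝒬.1 h.symm, fun w hw y₀ hy₀ => ?_⟩
  obtain ⟨q, hq, hqy⟩ := hF y₀ hy₀
  have h1 : |w - (q : ℝ)| ≤ (k : ℝ) + 2 := by
    have h2 := abs_le.1 hy₀
    have h3 := abs_lt.1 hqy
    have h4 : 1 / (2 * ((k : ℝ) + 1)) ≤ 1 := by
      rw [div_le_one (by positivity)]
      have : (0 : ℝ) ≤ k := Nat.cast_nonneg k
      linarith
    rw [abs_le]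
    constructor <;> linarith [hw.1, hw.2]
  obtain ⟨t, ht, hty⟩ := hG (w - q) h1
  refine ⟨w - t, ?_, Or.inl (hρF q hq ?_), Or.inr ?_⟩
  · have h2 : |w - t - q| < ρ := by
      rw [show w - (t : ℝ) - q = w - q - t by ring]; exact hty
    have h3 := abs_lt.1 h2
    have h4 := abs_lt.1 hqy
    have h5 : 1 / (2 * ((k : ℝ) + 1)) + 1 / (2 * ((k : ℝ) + 1)) = 1 / ((k : ℝ) + 1) := by
      field_simp; ring
    rw [abs_lt]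
    constructor <;> linarith
  · rw [Metric.mem_ball, Real.dist_eq, show w - (t : ℝ) - q = w - q - t by ring]
    exact hty
  · rw [show w - (w - (t : ℝ)) = t by ring]
    exact mem_ext_of_mem (ho𝒱 V hV) (p := e t) (hGV ⟨t, ht, rfl⟩)

end Pool.Agent.H43.Omega
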