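import Pool.Agent.H43.Cyl

set_option autoImplicit false

namespace Pool.Agent.H43.Gauss

open MeasureTheory ProbabilityTheory Module Real
open scoped ENNReal RealInnerProductSpace

section general

variable {E : Type*} [NormedAddCommGroup E] [InnerProductSpace ℝ E] [FiniteDimensional ℝ E]
  [MeasurableSpace E] [BorelSpace E]

set_option linter.unusedSectionVars false

theorem isCompact_Cyl {e : E} (he : ‖e‖ = 1) : IsCompact (Cyl e) := by
  apply Metric.isCompact_of_isClosed_isBounded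
  · apply IsClosed.inter
    · exact isClosed_le (f := fun x : E => |⟪e, x⟫|) (g := fun _ => (1 : ℝ)) (by fun_prop)
        continuous_const
    · exact isClosed_le (f := fun x : E => ‖x‖ ^ 2 - ⟪e, x⟫ ^ 2) (g := fun _ => (1 : ℝ))
        (by fun_prop) continuous_const
  · rw [isBounded_iff_forall_norm_le]
    refine ⟨2, fun x hx => ?_⟩
    have h1 := hx.1
    have h2 := hx.2
    have h3 : ⟪e, x⟫ ^ 2 ≤ 1 := (sq_le_one_iff_abs_le_one _).2 h1
    nlinarith [norm_nonneg x]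

theorem convex_Cyl {e : E} (he : ‖e‖ = 1) : Convex ℝ (Cyl e) := by
  have h : Cyl e = {x | |⟪e, x⟫| ≤ 1} ∩ {x | ‖x - ⟪e, x⟫ • e‖ ≤ 1} := by
    ext x
    simp only [Cyl, Set.mem_ofPred_eq, Set.mem_inter_iff]
    rw [← norm_sub_line he, sq_le_one_iff₀ (norm_nonneg _)]
  rw [h]
  apply Convex.inter
  · intro x hx y hy a b ha hb hab
    simp only [Set.mem_ofPred_eq] at *
    rw [inner_add_right, real_inner_smul_right, real_inner_smul_right]
    calc _ ≤ |a * ⟪e, x⟫| + |b * ⟪e, y⟫| := abs_add_le _ _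
      _ = a * |⟪e, x⟫| + b * |⟪e, y⟫| := by rw [abs_mul, abs_mul, abs_of_nonneg ha, abs_of_nonneg hb]
      _ ≤ a * 1 + b * 1 := by gcongr
      _ = 1 := by linarith
  · intro x hx y hy a b ha hb hab
    simp only [Set.mem_ofPred_eq] at *
    have : a • x + b • y - ⟪e, a • x + b • y⟫ • e = a • (x - ⟪e, x⟫ • e) + b • (y - ⟪e, y⟫ • e) := by
      rw [inner_add_right, real_inner_smul_right, real_inner_smul_right]
      module
    rw [this]
    calc _ ≤ ‖a • (x - ⟪e, x⟫ • e)‖ + ‖b • (y - ⟪e, y⟫ • e)‖ := norm_add_le _ _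
      _ = a * ‖x - ⟪e, x⟫ • e‖ + b * ‖y - ⟪e, y⟫ • e‖ := by
        rw [norm_smul, norm_smul, Real.norm_of_nonneg ha, Real.norm_of_nonneg hb]
      _ ≤ a * 1 + b * 1 := by gcongr
      _ = 1 := by linarith

theorem ball_subset_Cyl {e : E} (he : ‖e‖ = 1) : Metric.ball (0 : E) 1 ⊆ Cyl e := by
  intro x hx
  rw [mem_ball_zero_iff] at hx
  constructor
  · calc |⟪e, x⟫| ≤ ‖e‖ * ‖x‖ := abs_real_inner_le_norm _ _
      _ ≤ 1 := by rw [he]; linarith
  · nlinarith [norm_nonneg x, sq_nonneg ⟪e, x⟫]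

theorem G2_pos_of {a b : E} (hb : b ≠ 0) (ha : a ∉ (ℝ ∙ b)) : 0 < G2 a b := by
  rw [G2, sub_pos]
  have h1 : |⟪a, b⟫| < ‖a‖ * ‖b‖ := by
    refine lt_of_le_of_ne (abs_real_inner_le_norm a b) ?_
    intro h
    by_cases ha0 : a = 0
    · exact ha (ha0 ▸ Submodule.zero_mem _)
    have h2 := (abs_real_inner_div_norm_mul_norm_eq_one_iff a b).1 (by
      rw [abs_div, h, abs_of_nonneg (by positivity : (0:ℝ) ≤ ‖a‖ * ‖b‖)]
      exact div_self (mul_ne_zero (norm_ne_zero_iff.2 ha0) (norm_ne_zero_iff.2 hb)))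
    obtain ⟨-, r, hr, hbr⟩ := h2
    apply ha
    rw [Submodule.mem_span_singleton]
    exact ⟨r⁻¹, by rw [hbr, smul_smul, inv_mul_cancel₀ hr, one_smul]⟩
  calc ⟪a, b⟫ ^ 2 = |⟪a, b⟫| ^ 2 := (sq_abs _).symm
    _ < (‖a‖ * ‖b‖) ^ 2 := by
        apply pow_lt_pow_left₀ h1 (abs_nonneg _) (by norm_num)
    _ = _ := by ring

theorem D_eq {e : E} (he : ‖e‖ = 1) (a b : E) :
    G2 a b - Q a b e = G2 (b - ⟪e, b⟫ • e) (a - ⟪e, a⟫ • e) := by
  have hee : ⟪e, e⟫ = 1 := by rw [real_inner_self_eq_norm_sq, he]; norm_num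
  rw [G2, G2, Q_eq, norm_sub_line he, norm_sub_line he]
  have : ⟪b - ⟪e, b⟫ • e, a - ⟪e, a⟫ • e⟫ = ⟪a, b⟫ - ⟪e, a⟫ * ⟪e, b⟫ := by
    rw [inner_sub_left, inner_sub_right, inner_sub_right, real_inner_smul_left, real_inner_smul_right,
      real_inner_smul_left, real_inner_smul_right, hee, real_inner_comm a b, real_inner_comm b e]
    ring
  rw [this, real_inner_comm e a, real_inner_comm e b]
  ring

theorem ae_pair {e : E} (he : ‖e‖ = 1) (hE : 3 ≤ finrank ℝ E) :
    ∀ᵐ a ∂(stdGaussian E), ∀ᵐ b ∂(stdGaussian E), 0 < Q a b e ∧ 0 < G2 a b - Q a b e := by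
  have hee : ⟪e, e⟫ = 1 := by rw [real_inner_self_eq_norm_sq, he]; norm_num
  have he0 : e ≠ 0 := by intro h; rw [h] at he; simp at he
  have h1 : (ℝ ∙ e) ≠ ⊤ := by
    intro h
    have h1 := finrank_span_singleton (K := ℝ) he0
    rw [h, finrank_top] at h1
    omega
  have h2 : (ℝ ∙ e)ᗮ ≠ ⊤ := by
    intro h
    have : e ∈ (ℝ ∙ e)ᗮ := by rw [h]; trivial
    rw [Submodule.mem_orthogonal_singleton_iff_inner_right] at this
    rw [hee] at this; norm_num at this
  filter_upwards [ae_notMem_submodule _ h1, ae_notMem_submodule _ h2] with a ha1 ha2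
  have h3 : Submodule.span ℝ {a, e} ≠ ⊤ := by
    intro h
    have h4 : finrank ℝ (Submodule.span ℝ {a, e}) ≤ 2 := by
      classical
      have := finrank_span_finset_le_card (R := ℝ) ({a, e} : Finset E)
      rw [Finset.coe_insert, Finset.coe_singleton] at this
      exact this.trans Finset.card_le_two
    rw [h, finrank_top] at h4
    omega
  filter_upwards [ae_notMem_submodule _ h3] with b hb
  have hae : ⟪a, e⟫ ≠ 0 := by
    intro h
    apply ha2
    rw [Submodule.mem_orthogonal_singleton_iff_inner_right, real_inner_comm]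
    exact h
  constructor
  · rw [Q]
    apply pow_pos
    rw [norm_pos_iff, sub_ne_zero]
    intro h
    apply hb
    rw [Submodule.mem_span_pair]
    refine ⟨⟪b, e⟫ / ⟪a, e⟫, 0, ?_⟩
    rw [zero_smul, add_zero, div_eq_inv_mul, mul_smul, ← h, smul_smul, inv_mul_cancel₀ hae, one_smul]
  · rw [D_eq he]
    apply G2_pos_of
    · intro h
      apply ha1
      rw [Submodule.mem_span_singleton]
      exact ⟨⟪e, a⟫, (sub_eq_zero.1 h).symm⟩
    · intro h
      rw [Submodule.mem_span_singleton] at h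
      obtain ⟨c, hc⟩ := h
      apply hb
      rw [Submodule.mem_span_pair]
      refine ⟨c, ⟪e, b⟫ - c * ⟪e, a⟫, ?_⟩
      have : c • (a - ⟪e, a⟫ • e) + ⟪e, b⟫ • e = b := by rw [hc]; abel
      rw [← this, this]
      calc c • a + (⟪e, b⟫ - c * ⟪e, a⟫) • e = c • (a - ⟪e, a⟫ • e) + ⟪e, b⟫ • e := by module
        _ = b := this

theorem measurable_H_fix (n : ℕ) (e : E) :
    Measurable (fun p : E × E => ENNReal.ofReal (H n p.1 p.2 e)) := by
  have hm' : Measurable (fun p : E × E × E => ENNReal.ofReal (H n p.1 p.2.1 p.2.2)) :=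
    (measurable_H n).ennreal_ofReal
  exact hm'.comp (show Measurable (fun p : E × E => ((p.1, p.2, e) : E × E × E)) by fun_prop)

theorem I2_eq_prod (n : ℕ) (e : E) :
    I2 n e = ∫⁻ p : E × E, ENNReal.ofReal (H n p.1 p.2 e) ∂((stdGaussian E).prod (stdGaussian E)) := by
  rw [I2, lintegral_prod _ (measurable_H_fix n e).aemeasurable]

theorem ae_pair' {e : E} (he : ‖e‖ = 1) (hE : 3 ≤ finrank ℝ E) :
    ∀ᵐ p ∂((stdGaussian E).prod (stdGaussian E)), 0 < Q p.1 p.2 e ∧ 0 < G2 p.1 p.2 - Q p.1 p.2 e := by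
  have h1 : Measurable (fun p : E × E => Q p.1 p.2 e) := by simp only [Q]; fun_prop
  have h2 : Measurable (fun p : E × E => G2 p.1 p.2 - Q p.1 p.2 e) := by
    simp only [Q, G2]; fun_prop
  have h3 : MeasurableSet {p : E × E | 0 < Q p.1 p.2 e ∧ 0 < G2 p.1 p.2 - Q p.1 p.2 e} :=
    (measurableSet_lt measurable_const h1).inter (measurableSet_lt measurable_const h2)
  rw [Measure.ae_prod_iff_ae_ae h3]
  exact ae_pair he hE

end general

end Pool.Agent.H43.Gauss
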