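import Pool.Agent.H43.Quer

set_option autoImplicit false

namespace Pool.Agent.H43.Gauss

open MeasureTheory ProbabilityTheory Module Real
open scoped ENNReal RealInnerProductSpace

variable {n : ℕ}

/-- The Euclidean space of dimension `n`. -/
abbrev EE (n : ℕ) := EuclideanSpace ℝ (Fin n)

/-- cylinder in plain coordinates -/
def KK (e : EE n) : Set (Fin n → ℝ) := {x | WithLp.toLp 2 x ∈ Cyl e}

/-- product Gaussian -/
noncomputable abbrev γ0 (n : ℕ) : Measure (Fin n → ℝ) := Measure.pi (fun _ : Fin n => gaussianReal 0 1)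

theorem mp_toLp (n : ℕ) : MeasurePreserving (WithLp.toLp 2) (γ0 n) (stdGaussian (EE n)) :=
  ⟨by fun_prop, map_pi_eq_stdGaussian⟩

theorem isCompact_KK {e : EE n} (he : ‖e‖ = 1) : IsCompact (KK e) := by
  have h : KK e = (WithLp.ofLp) '' (Cyl e) := by
    ext x
    constructor
    · intro hx; exact ⟨WithLp.toLp 2 x, hx, rfl⟩
    · rintro ⟨y, hy, rfl⟩; exact hy
  rw [h]
  exact (isCompact_Cyl he).image (by fun_prop)

theorem convex_KK {e : EE n} (he : ‖e‖ = 1) : Convex ℝ (KK e) := by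
  intro x hx y hy a b ha hb hab
  have := convex_Cyl he hx hy ha hb hab
  simpa [KK] using this

theorem interior_KK {e : EE n} (he : ‖e‖ = 1) : (interior (KK e)).Nonempty := by
  refine ⟨0, ?_⟩
  rw [mem_interior]
  refine ⟨(fun x => WithLp.toLp 2 x) ⁻¹' (Metric.ball (0 : EE n) 1), ?_, ?_, ?_⟩
  · intro x hx; exact ball_subset_Cyl he hx
  · exact Metric.isOpen_ball.preimage (by fun_prop)
  · simp

theorem mulVec_eq {k : ℕ} (A : Fin k → Fin n → ℝ) (x : Fin n → ℝ) (i : Fin k) :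
    (Matrix.of A).mulVec x i = ⟪(WithLp.toLp 2 (A i) : EE n), WithLp.toLp 2 x⟫ := by
  simp [Matrix.mulVec, dotProduct, PiLp.inner_apply, mul_comm]

theorem image2_eq (A : Fin 2 → Fin n → ℝ) (e : EE n) :
    (fun x : Fin n → ℝ => (Matrix.of A).mulVec x) '' (KK e) =
      (fun x : EE n => (![⟪(WithLp.toLp 2 (A 0) : EE n), x⟫, ⟪(WithLp.toLp 2 (A 1) : EE n), x⟫] :
        Fin 2 → ℝ)) '' Cyl e := by
  ext y
  constructor
  · rintro ⟨x, hx, rfl⟩
    refine ⟨WithLp.toLp 2 x, hx, ?_⟩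
    ext i
    fin_cases i <;> simp [mulVec_eq]
  · rintro ⟨x, hx, rfl⟩
    refine ⟨WithLp.ofLp x, hx, ?_⟩
    ext i
    fin_cases i <;> simp [mulVec_eq]

theorem image1_eq (A : Fin 1 → Fin n → ℝ) (e : EE n) :
    (fun x : Fin n → ℝ => (Matrix.of A).mulVec x) '' (KK e) =
      (fun x : EE n => (fun _ : Fin 1 => ⟪(WithLp.toLp 2 (A 0) : EE n), x⟫)) '' Cyl e := by
  ext y
  constructor
  · rintro ⟨x, hx, rfl⟩
    refine ⟨WithLp.toLp 2 x, hx, ?_⟩
    ext i
    fin_cases i; simp [mulVec_eq]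
  · rintro ⟨x, hx, rfl⟩
    refine ⟨WithLp.ofLp x, hx, ?_⟩
    ext i
    fin_cases i; simp [mulVec_eq]

theorem mul_transpose_apply {k : ℕ} (A : Fin k → Fin n → ℝ) (i j : Fin k) :
    (Matrix.of A * (Matrix.of A).transpose) i j =
      ⟪(WithLp.toLp 2 (A i) : EE n), WithLp.toLp 2 (A j)⟫ := by
  simp [Matrix.mul_apply, PiLp.inner_apply, mul_comm]

theorem det2_eq (A : Fin 2 → Fin n → ℝ) : (Matrix.of A * (Matrix.of A).transpose).det =
    G2 (WithLp.toLp 2 (A 0) : EE n) (WithLp.toLp 2 (A 1)) := by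
  rw [Matrix.det_fin_two, mul_transpose_apply, mul_transpose_apply, mul_transpose_apply,
    mul_transpose_apply, G2, real_inner_self_eq_norm_sq, real_inner_self_eq_norm_sq,
    real_inner_comm (WithLp.toLp 2 (A 0) : EE n) (WithLp.toLp 2 (A 1))]
  ring

theorem det1_eq (A : Fin 1 → Fin n → ℝ) : (Matrix.of A * (Matrix.of A).transpose).det =
    ‖(WithLp.toLp 2 (A 0) : EE n)‖ ^ 2 := by
  rw [Matrix.det_fin_one, mul_transpose_apply, real_inner_self_eq_norm_sq]

/-- The integrand of the problem. -/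
noncomputable def FF (k : ℕ) (K : Set (Fin n → ℝ)) (A : Fin k → Fin n → ℝ) : ℝ :=
  ((volume ((fun x : Fin n → ℝ => (Matrix.of A).mulVec x) '' K)).toReal /
    √((Matrix.of A * (Matrix.of A).transpose).det)) ^ (-(n : ℝ))

theorem measurable_FF (k : ℕ) {K : Set (Fin n → ℝ)} (hK : IsCompact K) : Measurable (FF k K) := by
  have hS : IsClosed {p : (Fin k → Fin n → ℝ) × (Fin k → ℝ) |
      p.2 ∈ (fun x : Fin n → ℝ => (Matrix.of p.1).mulVec x) '' K} := by
    have : CompactSpace K := isCompact_iff_compactSpace.1 hK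
    have h1 : {p : (Fin k → Fin n → ℝ) × (Fin k → ℝ) |
      p.2 ∈ (fun x : Fin n → ℝ => (Matrix.of p.1).mulVec x) '' K} =
      Prod.fst '' {q : ((Fin k → Fin n → ℝ) × (Fin k → ℝ)) × K |
        (Matrix.of q.1.1).mulVec (q.2 : Fin n → ℝ) = q.1.2} := by
      ext p
      constructor
      · rintro ⟨x, hx, hxp⟩
        exact ⟨(p, ⟨x, hx⟩), hxp, rfl⟩
      · rintro ⟨⟨p', x⟩, h, rfl⟩
        exact ⟨x.1, x.2, h⟩
    rw [h1]
    apply isClosedMap_fst_of_compactSpace
    apply isClosed_eq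
    · refine continuous_pi fun i => ?_
      simp only [Matrix.mulVec, dotProduct, Matrix.of_apply]
      refine continuous_finsetSum _ fun j _ => ?_
      exact ((continuous_apply j).comp ((continuous_apply i).comp
        (continuous_fst.comp continuous_fst))).mul
        ((continuous_apply j).comp (continuous_subtype_val.comp continuous_snd))
    · exact continuous_snd.comp continuous_fst
  have h2 := measurable_measure_prodMk_left (ν := (volume : Measure (Fin k → ℝ))) hS.measurableSet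
  have h3 : Measurable (fun A : Fin k → Fin n → ℝ =>
      volume ((fun x : Fin n → ℝ => (Matrix.of A).mulVec x) '' K)) := h2
  have h4 : Measurable (fun A : Fin k → Fin n → ℝ =>
      √((Matrix.of A * (Matrix.of A).transpose).det)) := by
    apply Continuous.measurable
    apply Real.continuous_sqrt.comp
    apply Continuous.matrix_det
    refine continuous_pi fun i => continuous_pi fun j => ?_
    simp only [Matrix.mul_apply, Matrix.of_apply, Matrix.transpose_apply]
    fun_prop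
  unfold FF
  exact (h3.ennreal_toReal.div h4).pow_const _

theorem FF1_eq {e : EE n} (he : ‖e‖ = 1) (A : Fin 1 → Fin n → ℝ) : FF 1 (KK e) A =
    (‖(WithLp.toLp 2 (A 0) : EE n)‖ / (2 * ‖(ℝ ∙ e)ᗮ.orthogonalProjectionOnto (WithLp.toLp 2 (A 0))‖ +
      2 * ‖(ℝ ∙ e).orthogonalProjectionOnto (WithLp.toLp 2 (A 0))‖)) ^ n := by
  rw [FF, image1_eq, length_eq he, det1_eq, Real.sqrt_sq (norm_nonneg _),
    ENNReal.toReal_ofReal (by positivity), Real.rpow_neg (by positivity), Real.rpow_natCast,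
    ← inv_pow, inv_div]

theorem FF2_bound {e : EE n} (he : ‖e‖ = 1) {A : Fin 2 → Fin n → ℝ}
    (hq : 0 < Q (WithLp.toLp 2 (A 0) : EE n) (WithLp.toLp 2 (A 1)) e)
    (hD : 0 < G2 (WithLp.toLp 2 (A 0) : EE n) (WithLp.toLp 2 (A 1)) -
      Q (WithLp.toLp 2 (A 0) : EE n) (WithLp.toLp 2 (A 1)) e) :
    0 < FF 2 (KK e) A ∧ FF 2 (KK e) A ≤ H n (WithLp.toLp 2 (A 0) : EE n) (WithLp.toLp 2 (A 1)) e := by
  set a : EE n := WithLp.toLp 2 (A 0) with ha
  set b : EE n := WithLp.toLp 2 (A 1) with hb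
  have hG : 0 < G2 a b := by linarith
  have hvol : volume ((fun x : Fin n → ℝ => (Matrix.of A).mulVec x) '' (KK e)) ≠ ∞ := by
    apply IsCompact.measure_ne_top
    apply (isCompact_KK he).image
    refine continuous_pi fun i => ?_
    simp only [Matrix.mulVec, dotProduct, Matrix.of_apply]
    fun_prop
  have hlow := area_lower he hq hD
  rw [ha, hb, ← image2_eq, ← ha, ← hb] at hlow
  set V := (volume ((fun x : Fin n → ℝ => (Matrix.of A).mulVec x) '' (KK e))).toReal with hV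
  have hsq : 0 < √(Q a b e) := Real.sqrt_pos.2 hq
  have hsD : 0 < √(G2 a b - Q a b e) := Real.sqrt_pos.2 hD
  have hsG : 0 < √(G2 a b) := Real.sqrt_pos.2 hG
  have hpi := Real.pi_pos
  have hV1 : π * √(G2 a b - Q a b e) + 4 * √(Q a b e) ≤ V := by
    rw [hV]
    rw [← ENNReal.ofReal_le_iff_le_toReal hvol]
    exact hlow
  have hV0 : 0 < π * √(G2 a b - Q a b e) + 4 * √(Q a b e) := by positivity
  have hVpos : 0 < V := hV0.trans_le hV1
  have hFF : FF 2 (KK e) A = (√(G2 a b) / V) ^ n := by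
    rw [FF, det2_eq, Real.rpow_neg (by positivity), Real.rpow_natCast, ← inv_pow, inv_div]
  have hH : H n a b e = (√(G2 a b) / (π * √(G2 a b - Q a b e) + 4 * √(Q a b e))) ^ n := by
    rw [H, he]
    congr 1
    have h1 : √((1 : ℝ) ^ 2 - Q a b e / G2 a b) = √(G2 a b - Q a b e) / √(G2 a b) := by
      rw [← Real.sqrt_div hD.le]
      congr 1
      field_simp
    have h2 : √(Q a b e / G2 a b) = √(Q a b e) / √(G2 a b) := Real.sqrt_div hq.le _
    rw [h1, h2]
    field_simp
  rw [hFF, hH]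
  constructor
  · positivity
  · apply pow_le_pow_left₀ (by positivity)
    exact div_le_div_of_nonneg_left hsG.le hV0 hV1

theorem I1_int {e : EE n} (he : ‖e‖ = 1) (hn : 2 ≤ n) :
    ENNReal.ofReal (∫ A, FF 1 (KK e) A ∂(Measure.pi (fun _ : Fin 1 => γ0 n))) *
      ENNReal.ofReal (zd n) = (ENNReal.ofReal ((2 : ℝ)⁻¹ ^ 1) * ENNReal.ofReal (zd 1)) *
        (ENNReal.ofReal ((2 : ℝ)⁻¹ ^ (n - 1)) * ENNReal.ofReal (zd (n - 1))) := by
  have he0 : e ≠ 0 := by intro h; rw [h] at he; simp at he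
  have hfr : finrank ℝ (EE n) = n := finrank_euclideanSpace_fin
  have h1 := I1_val (E := EE n) (by rw [hfr]; exact hn) he0
  rw [hfr] at h1
  rw [← h1]
  congr 1
  have hmp : MeasurePreserving (fun A : Fin 1 → Fin n → ℝ => (WithLp.toLp 2 (A 0) : EE n))
      (Measure.pi (fun _ : Fin 1 => γ0 n)) (stdGaussian (EE n)) :=
    (mp_toLp n).comp (measurePreserving_eval (fun _ : Fin 1 => γ0 n) 0)
  rw [ofReal_integral_eq_lintegral_ofReal]
  · rw [← hmp.lintegral_comp (by fun_prop)]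
    apply lintegral_congr
    intro A
    rw [FF1_eq he]
  · refine Integrable.of_bound (C := 1) (measurable_FF 1 (isCompact_KK he)).aestronglyMeasurable ?_
    refine Filter.Eventually.of_forall fun A => ?_
    rw [FF1_eq he, Real.norm_of_nonneg (by positivity)]
    apply pow_le_one₀ (by positivity)
    apply div_le_one_of_le₀ _ (by positivity)
    set x : EE n := WithLp.toLp 2 (A 0) with hx
    have h2 := (ℝ ∙ e).norm_sq_eq_add_norm_sq_projection x
    have h3 := norm_nonneg ((ℝ ∙ e).orthogonalProjectionOnto x)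
    have h4 := norm_nonneg ((ℝ ∙ e)ᗮ.orthogonalProjectionOnto x)
    have h5 := norm_nonneg x
    nlinarith
  · refine Filter.Eventually.of_forall fun A => ?_
    simp only [Pi.zero_apply]
    rw [FF1_eq he]
    positivity

theorem mp2 (n : ℕ) : MeasurePreserving
    (fun A : Fin 2 → Fin n → ℝ => ((WithLp.toLp 2 (A 0) : EE n), (WithLp.toLp 2 (A 1) : EE n)))
      (Measure.pi (fun _ : Fin 2 => γ0 n)) ((stdGaussian (EE n)).prod (stdGaussian (EE n))) :=
  ((mp_toLp n).prod (mp_toLp n)).comp (measurePreserving_finTwoArrow (γ0 n))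

theorem I2_int {e : EE n} (he : ‖e‖ = 1) (hn : 3 ≤ n) :
    ENNReal.ofReal (∫ A, FF 2 (KK e) A ∂(Measure.pi (fun _ : Fin 2 => γ0 n))) *
      ENNReal.ofReal (zd n) ≤ (ENNReal.ofReal ((4 : ℝ)⁻¹ ^ 2) * ENNReal.ofReal (zd 2)) *
        (ENNReal.ofReal (π⁻¹ ^ (n - 2)) * ENNReal.ofReal (zd (n - 2))) ∧
    0 < ∫ A, FF 2 (KK e) A ∂(Measure.pi (fun _ : Fin 2 => γ0 n)) := by
  have he0 : e ≠ 0 := by intro h; rw [h] at he; simp at he
  have hfr : finrank ℝ (EE n) = n := finrank_euclideanSpace_fin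
  have h1 := I2_val (E := EE n) (by rw [hfr]; exact hn) he0
  rw [hfr] at h1
  rw [← h1]
  have hfin : I2 n e ≠ ∞ := by
    intro h
    rw [h, ENNReal.top_mul (by
      rw [ne_eq, ENNReal.ofReal_eq_zero, not_le]; exact zd_pos n)] at h1
    have : (ENNReal.ofReal ((4 : ℝ)⁻¹ ^ 2) * ENNReal.ofReal (zd 2)) *
        (ENNReal.ofReal (π⁻¹ ^ (n - 2)) * ENNReal.ofReal (zd (n - 2))) < ∞ := by
      apply ENNReal.mul_lt_top <;> apply ENNReal.mul_lt_top <;> exact ENNReal.ofReal_lt_top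
    exact this.ne h1.symm
  have hae : ∀ᵐ A ∂(Measure.pi (fun _ : Fin 2 => γ0 n)),
      0 < FF 2 (KK e) A ∧ FF 2 (KK e) A ≤
        H n (WithLp.toLp 2 (A 0) : EE n) (WithLp.toLp 2 (A 1)) e := by
    have h2 := ae_pair' he (by rw [hfr]; exact hn)
    have h3 := (mp2 n).quasiMeasurePreserving.ae h2
    filter_upwards [h3] with A hA
    exact FF2_bound he hA.1 hA.2
  have hle : ∫⁻ A, ENNReal.ofReal (FF 2 (KK e) A) ∂(Measure.pi (fun _ : Fin 2 => γ0 n)) ≤ I2 n e := by
    rw [I2_eq_prod, ← (mp2 n).lintegral_comp (measurable_H_fix n e)]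
    apply lintegral_mono_ae
    filter_upwards [hae] with A hA
    exact ENNReal.ofReal_le_ofReal hA.2
  have hnn : 0 ≤ᵐ[Measure.pi (fun _ : Fin 2 => γ0 n)] FF 2 (KK e) := by
    filter_upwards [hae] with A hA
    exact hA.1.le
  have hint : Integrable (FF 2 (KK e)) (Measure.pi (fun _ : Fin 2 => γ0 n)) := by
    refine ⟨(measurable_FF 2 (isCompact_KK he)).aestronglyMeasurable, ?_⟩
    rw [hasFiniteIntegral_iff_ofReal hnn]
    exact hle.trans_lt (lt_top_iff_ne_top.2 hfin)
  constructor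
  · rw [ofReal_integral_eq_lintegral_ofReal hint hnn]
    gcongr
  · rw [integral_pos_iff_support_of_nonneg_ae hnn hint]
    have : (Measure.pi (fun _ : Fin 2 => γ0 n)) (Function.support (FF 2 (KK e))) = 1 := by
      rw [← measure_univ (μ := Measure.pi (fun _ : Fin 2 => γ0 n))]
      apply measure_congr
      filter_upwards [hae] with A hA
      apply propext
      constructor
      · intro _; trivial
      · intro _; exact hA.1.ne'
    rw [this]
    norm_num

end Pool.Agent.H43.Gauss
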