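import Pool.Agent.H43.Quer2

set_option autoImplicit false

namespace Pool.Agent.H43.Gauss

open MeasureTheory ProbabilityTheory Module Real
open scoped ENNReal RealInnerProductSpace

/-- volume of the unit ball -/
noncomputable def kap (m : ℕ) : ℝ := (volume {x : Fin m → ℝ | ∑ t, x t ^ 2 ≤ 1}).toReal

theorem kap_eq (m : ℕ) : kap (m + 1) = √π ^ (m + 1) / Real.Gamma (((m + 1 : ℕ) : ℝ) / 2 + 1) := by
  have h1 : {x : Fin (m + 1) → ℝ | ∑ t, x t ^ 2 ≤ 1} =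
      (WithLp.toLp 2) ⁻¹' (Metric.closedBall (0 : EE (m + 1)) 1) := by
    ext x
    simp only [Set.mem_ofPred_eq, Set.mem_preimage, mem_closedBall_zero_iff]
    rw [← sq_le_one_iff₀ (norm_nonneg _), EuclideanSpace.real_norm_sq_eq]
  rw [kap, h1, (PiLp.volume_preserving_toLp (Fin (m + 1))).measure_preimage
    Metric.isClosed_closedBall.measurableSet.nullMeasurableSet, EuclideanSpace.volume_closedBall]
  have h2 : 0 < Real.Gamma (((m + 1 : ℕ) : ℝ) / 2 + 1) := Real.Gamma_pos_of_pos (by positivity)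
  rw [ENNReal.ofReal_one, one_pow, one_mul, Fintype.card_fin, ENNReal.toReal_ofReal]
  positivity

theorem kap_pos (m : ℕ) : 0 < kap (m + 1) := by
  rw [kap_eq]
  have h2 : 0 < Real.Gamma (((m + 1 : ℕ) : ℝ) / 2 + 1) := Real.Gamma_pos_of_pos (by positivity)
  have hs : 0 < √π := Real.sqrt_pos.2 Real.pi_pos
  positivity

theorem kap_one : kap 1 = 2 := by
  have h1 := kap_eq 0
  have h2 : Real.Gamma (((0 + 1 : ℕ) : ℝ) / 2 + 1) = √π / 2 := by
    have : ((0 + 1 : ℕ) : ℝ) / 2 + 1 = 1 / 2 + 1 := by norm_num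
    rw [this, Real.Gamma_add_one (by norm_num), Real.Gamma_one_half_eq]; ring
  have h3 : √π ≠ 0 := (Real.sqrt_pos.2 Real.pi_pos).ne'
  rw [h2] at h1
  refine h1.trans ?_
  field_simp
  norm_num

theorem kap_two : kap 2 = π := by
  have h1 := kap_eq 1
  have h2 : Real.Gamma (((1 + 1 : ℕ) : ℝ) / 2 + 1) = 1 := by
    norm_num [Real.Gamma_two]
  rw [h2, div_one, Real.sq_sqrt Real.pi_pos.le] at h1
  exact h1

/-- The reversed inequality for the cylinder in dimension 100. -/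
theorem key_ineq {e : EE 100} (he : ‖e‖ = 1) :
    kap 100 ^ 98 * (kap 100 / kap 1 *
      (∫ A, FF 1 (KK e) A ∂(Measure.pi (fun _ : Fin 1 => γ0 100))) ^ (-(1 : ℝ) / (100 : ℕ))) ^ 2 <
    kap 100 ^ 99 * (kap 100 / kap 2 *
      (∫ A, FF 2 (KK e) A ∂(Measure.pi (fun _ : Fin 2 => γ0 100))) ^ (-(1 : ℝ) / (100 : ℕ))) ^ 1 := by
  have h1 := I1_int he (by norm_num)
  obtain ⟨h2, h2pos⟩ := I2_int he (by norm_num)
  set I := ∫ A, FF 1 (KK e) A ∂(Measure.pi (fun _ : Fin 1 => γ0 100)) with hI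
  set J := ∫ A, FF 2 (KK e) A ∂(Measure.pi (fun _ : Fin 2 => γ0 100)) with hJ
  have z98 := zd_pos 98
  have z99 := zd_pos 99
  have z100 := zd_pos 100
  have hpi := Real.pi_pos
  rw [show 100 - 1 = 99 from rfl, zd_one] at h1
  rw [show 100 - 2 = 98 from rfl, zd_two] at h2
  have hIpos : 0 < I := by
    by_contra hcon
    rw [ENNReal.ofReal_eq_zero.2 (not_lt.1 hcon), zero_mul] at h1
    have : (ENNReal.ofReal ((2 : ℝ)⁻¹ ^ 1) * ENNReal.ofReal 2) *
        (ENNReal.ofReal ((2 : ℝ)⁻¹ ^ 99) * ENNReal.ofReal (zd 99)) ≠ 0 := by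
      apply mul_ne_zero <;> apply mul_ne_zero <;>
        (rw [ne_eq, ENNReal.ofReal_eq_zero, not_le]; positivity)
    exact this h1.symm
  have e1 : I * zd 100 = (2 : ℝ)⁻¹ ^ 99 * zd 99 := by
    rw [← ENNReal.ofReal_mul hIpos.le, ← ENNReal.ofReal_mul (by positivity),
      ← ENNReal.ofReal_mul (by positivity), ← ENNReal.ofReal_mul (by positivity),
      ENNReal.ofReal_eq_ofReal_iff (by positivity) (by positivity)] at h1
    rw [h1]; ring
  have e2 : J * zd 100 ≤ (4 : ℝ)⁻¹ ^ 2 * (2 * π) * (π⁻¹ ^ 98 * zd 98) := by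
    rw [← ENNReal.ofReal_mul h2pos.le, ← ENNReal.ofReal_mul (by positivity),
      ← ENNReal.ofReal_mul (by positivity), ← ENNReal.ofReal_mul (by positivity),
      ENNReal.ofReal_le_ofReal_iff (by positivity)] at h2
    exact h2
  -- roots
  have k100 := kap_pos 99
  set u := J ^ (-(1 : ℝ) / (100 : ℕ)) with hu
  set v := I ^ (-(1 : ℝ) / (100 : ℕ)) with hv
  have hu0 : 0 < u := Real.rpow_pos_of_pos h2pos _
  have hv0 : 0 < v := Real.rpow_pos_of_pos hIpos _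
  have hu100 : u ^ 100 = J⁻¹ := by
    rw [hu, ← Real.rpow_natCast, ← Real.rpow_mul h2pos.le]
    rw [show (-(1 : ℝ) / (100 : ℕ) * (100 : ℕ)) = -1 by norm_num, Real.rpow_neg_one]
  have hv100 : v ^ 100 = I⁻¹ := by
    rw [hv, ← Real.rpow_natCast, ← Real.rpow_mul hIpos.le]
    rw [show (-(1 : ℝ) / (100 : ℕ) * (100 : ℕ)) = -1 by norm_num, Real.rpow_neg_one]
  rw [kap_one, kap_two]
  by_contra hcon
  push Not at hcon
  have h3 : u / π ≤ v ^ 2 / 4 := by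
    have h4 : kap 100 ^ 99 * (kap 100 / π * u) ^ 1 = kap 100 ^ 100 * (u / π) := by
      field_simp
    have h5 : kap 100 ^ 98 * (kap 100 / 2 * v) ^ 2 = kap 100 ^ 100 * (v ^ 2 / 4) := by ring
    rw [h4, h5] at hcon
    exact le_of_mul_le_mul_left hcon (by positivity)
  have h6 : (u / π) ^ 100 ≤ (v ^ 2 / 4) ^ 100 := pow_le_pow_left₀ (by positivity) h3 100
  rw [div_pow, div_pow, ← pow_mul, mul_comm 2 100, pow_mul, hu100, hv100,
    div_le_div_iff₀ (by positivity) (by positivity)] at h6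
  -- h6 : J⁻¹ * 4 ^ 100 ≤ (I⁻¹) ^ 2 * π ^ 100
  have h7 : I ^ 2 * 4 ^ 100 ≤ π ^ 100 * J := by
    have h8 : J⁻¹ * 4 ^ 100 * (J * I ^ 2) ≤ I⁻¹ ^ 2 * π ^ 100 * (J * I ^ 2) :=
      mul_le_mul_of_nonneg_right h6 (by positivity)
    have h9 : J⁻¹ * 4 ^ 100 * (J * I ^ 2) = I ^ 2 * 4 ^ 100 := by
      field_simp
    have h10 : I⁻¹ ^ 2 * π ^ 100 * (J * I ^ 2) = π ^ 100 * J := by
      field_simp
    rw [h9, h10] at h8
    exact h8
  have h11 : I ^ 2 * 4 ^ 100 * zd 100 ^ 2 = 4 * zd 99 ^ 2 := by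
    have : I ^ 2 * 4 ^ 100 * zd 100 ^ 2 = (I * zd 100) ^ 2 * 4 ^ 100 := by ring
    rw [this, e1]
    have h4 : (4 : ℝ) ^ 100 = 4 * (2 ^ 99) ^ 2 := by norm_num
    rw [h4, mul_pow, inv_pow]
    field_simp
  have h12 : π ^ 100 * J * zd 100 ^ 2 ≤ π ^ 3 / 8 * (zd 98 * zd 100) := by
    calc π ^ 100 * J * zd 100 ^ 2 = π ^ 100 * zd 100 * (J * zd 100) := by ring
      _ ≤ π ^ 100 * zd 100 * ((4 : ℝ)⁻¹ ^ 2 * (2 * π) * (π⁻¹ ^ 98 * zd 98)) :=
        mul_le_mul_of_nonneg_left e2 (by positivity)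
      _ = π ^ 3 / 8 * (zd 98 * zd 100) := by
        rw [inv_pow]
        field_simp
        ring
  have h13 : I ^ 2 * 4 ^ 100 * zd 100 ^ 2 ≤ π ^ 100 * J * zd 100 ^ 2 :=
    mul_le_mul_of_nonneg_right h7 (by positivity)
  rw [h11] at h13
  have := zd_strict
  linarith

end Pool.Agent.H43.Gauss
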