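import Mathlib

set_option autoImplicit false

namespace Pool.Agent.H43.Skel

open Finset

variable {ι : Type*} [Fintype ι] [DecidableEq ι]

/-- Probability weights supported on `S`. -/
def Wt (S : Finset ι) : Set (ι → ℝ) := {w | (∀ i, 0 ≤ w i) ∧ (∀ i, i ∉ S → w i = 0) ∧ ∑ i, w i = 1}

theorem isCompact_Wt (S : Finset ι) : IsCompact (Wt S) := by
  have h : Wt S = stdSimplex ℝ ι ∩ ⋂ i, {w : ι → ℝ | i ∉ S → w i = 0} := by
    ext w
    simp only [Wt, stdSimplex, Set.mem_ofPred_eq, Set.mem_inter_iff, Set.mem_iInter]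
    tauto
  rw [h]
  apply (isCompact_stdSimplex ℝ ι).inter_right
  apply isClosed_iInter
  intro i
  by_cases hi : i ∈ S
  · simp [hi]
  · simp only [hi, not_false_eq_true, forall_const]
    exact isClosed_eq (continuous_apply i) continuous_const

theorem single_mem_Wt {S : Finset ι} {i : ι} (hi : i ∈ S) : (Pi.single i 1 : ι → ℝ) ∈ Wt S := by
  refine ⟨fun j => ?_, fun j hj => ?_, ?_⟩
  · by_cases h : j = i
    · subst h; simp
    · simp [h]
  · have : j ≠ i := fun h => hj (h ▸ hi)
    simp [this]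
  · simp

/-- Key lemma: a symmetric matrix with unit diagonal which is strictly copositive on all facets. -/
theorem cop (M : Matrix ι ι ℝ) (hM : M.IsSymm) (S : Finset ι) (hS : 3 ≤ S.card)
    (hdiag : ∀ i ∈ S, M i i = 1)
    (hcop : ∀ j ∈ S, ∀ w : ι → ℝ, (∀ i, 0 ≤ w i) → (∀ i, i ∉ S → w i = 0) → w j = 0 → w ≠ 0 →
      0 < Matrix.toBilin' M w w) {c : ι → ℝ} (hc : c ∈ Wt S) :
    -(1 / ((S.card : ℝ) * ((S.card : ℝ) - 2))) < Matrix.toBilin' M c c := by
  have hcont : Continuous (fun w : ι → ℝ => Matrix.toBilin' M w w) := by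
    simp only [Matrix.toBilin'_apply]
    fun_prop
  have hsymm : ∀ x y, Matrix.toBilin' M x y = Matrix.toBilin' M y x := by
    intro x y
    simp only [Matrix.toBilin'_apply]
    rw [Finset.sum_comm]
    apply Finset.sum_congr rfl; intro i _
    apply Finset.sum_congr rfl; intro j _
    rw [hM.apply]; ring
  obtain ⟨c0, hc0, hmin⟩ := (isCompact_Wt S).exists_isMinOn ⟨c, hc⟩ hcont.continuousOn
  have hle : Matrix.toBilin' M c0 c0 ≤ Matrix.toBilin' M c c := hmin hc
  refine lt_of_lt_of_le ?_ hle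
  have hn : (3 : ℝ) ≤ S.card := by exact_mod_cast hS
  set n : ℝ := (S.card : ℝ) with hndef
  have hn2 : 0 < n * (n - 2) := by nlinarith
  by_cases hneg : 0 ≤ Matrix.toBilin' M c0 c0
  · have : 0 < 1 / (n * (n - 2)) := by positivity
    linarith
  push Not at hneg
  set θ := -Matrix.toBilin' M c0 c0 with hθ
  have hθpos : 0 < θ := by linarith
  -- an index with small weight
  have hsum : ∑ i ∈ S, c0 i = 1 := by
    rw [← hc0.2.2]
    apply Finset.sum_subset (Finset.subset_univ S)
    intro i _ hi; exact hc0.2.1 i hi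
  have hex : ∃ i ∈ S, c0 i ≤ 1 / n := by
    by_contra hcon
    push Not at hcon
    have hne : S.Nonempty := Finset.card_pos.1 (by omega)
    have : ∑ i ∈ S, (1 / n) < ∑ i ∈ S, c0 i := Finset.sum_lt_sum_of_nonempty hne hcon
    rw [Finset.sum_const, nsmul_eq_mul, hsum, ← hndef] at this
    have h2 : n * (1 / n) = 1 := by field_simp
    linarith
  obtain ⟨i, hiS, hi⟩ := hex
  set y : ι → ℝ := Pi.single i 1 with hy
  have hyW : y ∈ Wt S := single_mem_Wt hiS
  have hyy : Matrix.toBilin' M y y = 1 := by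
    rw [hy, Matrix.toBilin'_single, hdiag i hiS]
  -- variational inequality
  have hvar : -θ ≤ Matrix.toBilin' M c0 y := by
    by_contra hcon
    push Not at hcon
    set A := Matrix.toBilin' M c0 y - Matrix.toBilin' M c0 c0 with hA
    have hA0 : A < 0 := by rw [hA]; linarith
    set Bq := Matrix.toBilin' M (y - c0) (y - c0) with hBq
    have hpath : ∀ t : ℝ, 0 < t → t ≤ 1 → 0 ≤ 2 * t * A + t ^ 2 * Bq := by
      intro t ht0 ht1
      have hmem : (1 - t) • c0 + t • y ∈ Wt S := by
        refine ⟨fun j => ?_, fun j hj => ?_, ?_⟩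
        · have h1 := hc0.1 j
          have h2 := hyW.1 j
          simp only [Pi.add_apply, Pi.smul_apply, smul_eq_mul]
          have : 0 ≤ 1 - t := by linarith
          positivity
        · simp only [Pi.add_apply, Pi.smul_apply, smul_eq_mul, hc0.2.1 j hj, hyW.2.1 j hj]
          ring
        · simp only [Pi.add_apply, Pi.smul_apply, smul_eq_mul, Finset.sum_add_distrib,
            ← Finset.mul_sum, hc0.2.2, hyW.2.2]
          ring
      have h := hmin hmem
      simp only [Set.mem_ofPred_eq] at h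
      have hexp : Matrix.toBilin' M ((1 - t) • c0 + t • y) ((1 - t) • c0 + t • y) =
          Matrix.toBilin' M c0 c0 + 2 * t * A + t ^ 2 * Bq := by
        rw [hA, hBq]
        simp only [map_add, map_sub, map_smul, LinearMap.add_apply, LinearMap.sub_apply,
          LinearMap.smul_apply, smul_eq_mul, hsymm y c0]
        ring
      rw [hexp] at h
      linarith
    by_cases hB : Bq ≤ 0
    · have := hpath 1 one_pos le_rfl
      nlinarith
    · push Not at hB
      have h1 := hpath (min 1 (-A / Bq)) (lt_min one_pos (div_pos (by linarith) hB)) (min_le_left _ _)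
      set t := min 1 (-A / Bq) with ht
      have ht0 : 0 < t := lt_min one_pos (div_pos (by linarith) hB)
      have ht1 : t ≤ -A / Bq := min_le_right _ _
      have h2 : t * Bq ≤ -A := by
        rw [le_div_iff₀ hB] at ht1; exact ht1
      nlinarith
  -- the test vector
  set t := c0 i with ht
  have ht0 : 0 ≤ t := hc0.1 i
  set w := c0 - t • y with hw
  have hwi : w i = 0 := by simp [hw, hy, ht]
  have hw0 : ∀ j, 0 ≤ w j := by
    intro j
    by_cases hj : j = i
    · subst hj; rw [hwi]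
    · simp [hw, hy, hj, hc0.1 j]
  have hwS : ∀ j, j ∉ S → w j = 0 := by
    intro j hj
    have : j ≠ i := fun h => hj (h ▸ hiS)
    simp [hw, hy, this, hc0.2.1 j hj]
  have hwne : w ≠ 0 := by
    intro h
    have h1 : ∑ j, w j = 0 := by rw [h]; simp
    rw [hw] at h1
    simp only [Pi.sub_apply, Pi.smul_apply, smul_eq_mul, Finset.sum_sub_distrib,
      ← Finset.mul_sum, hc0.2.2, hyW.2.2] at h1
    have h2 : (1 : ℝ) / n < 1 := by rw [div_lt_one (by linarith)]; linarith
    linarith
  have hpos := hcop i hiS w hw0 hwS hwi hwne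
  have hexp : Matrix.toBilin' M w w = -θ - 2 * t * Matrix.toBilin' M c0 y + t ^ 2 := by
    rw [hw, hθ]
    simp only [map_sub, map_smul, LinearMap.sub_apply, LinearMap.smul_apply, smul_eq_mul,
      hsymm y c0, hyy]
    ring
  rw [hexp] at hpos
  have h1 : 0 < -θ + 2 * t * θ + t ^ 2 := by nlinarith
  have h2 : n * t ≤ 1 := by
    rw [le_div_iff₀ (by linarith)] at hi; linarith
  -- θ (1 - 2 t) < t ^ 2
  have h3 : θ * (n * (n - 2)) < 1 := by
    have h4 : θ * (1 - 2 * t) < t ^ 2 := by linarith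
    have h5 : n ^ 2 * t ^ 2 ≤ 1 := by
      have : (n * t) ^ 2 ≤ 1 := by
        apply pow_le_one₀ (by positivity) h2
      nlinarith
    have h6 : θ * (n * (n - 2)) ≤ n ^ 2 * (θ * (1 - 2 * t)) := by
      have : n ^ 2 * (θ * (1 - 2 * t)) - θ * (n * (n - 2)) = 2 * θ * n * (1 - n * t) := by ring
      have h7 : 0 ≤ 2 * θ * n * (1 - n * t) := by
        apply mul_nonneg (by positivity); linarith
      linarith
    have h8 : n ^ 2 * (θ * (1 - 2 * t)) < n ^ 2 * t ^ 2 :=
      mul_lt_mul_of_pos_left h4 (by positivity)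
    linarith
  have h9 : θ < 1 / (n * (n - 2)) := by
    rw [lt_div_iff₀ hn2]; exact h3
  linarith

variable {V : Type*} [AddCommGroup V] [Module ℝ V]

/-- weighted point -/
def pt (v : ι → V) (w : ι → ℝ) : V := ∑ i, w i • v i

omit [DecidableEq ι] in
theorem B_pt_left (B : V →ₗ[ℝ] V →ₗ[ℝ] ℝ) (v : ι → V) (w : ι → ℝ) (z : V) :
    B (pt v w) z = ∑ i, w i * B (v i) z := by
  simp only [pt, map_sum, map_smul, LinearMap.sum_apply, LinearMap.smul_apply, smul_eq_mul]

omit [DecidableEq ι] in
theorem sum_q (B : V →ₗ[ℝ] V →ₗ[ℝ] ℝ) (hB : ∀ x y, B x y = B y x) (v : ι → V) {l : ι → ℝ}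
    (hl : ∑ i, l i = 1) (p : V) :
    ∑ i, l i * B (v i - p) (v i - p) =
      ∑ i, l i * B (v i) (v i) - 2 * B (pt v l) p + B p p := by
  have h : ∀ i, l i * B (v i - p) (v i - p) = l i * B (v i) (v i) - 2 * (l i * B (v i) p) +
      l i * B p p := by
    intro i
    simp only [map_sub, LinearMap.sub_apply, hB p (v i)]
    ring
  simp_rw [h]
  rw [Finset.sum_add_distrib, Finset.sum_sub_distrib, ← Finset.mul_sum, ← Finset.sum_mul, hl,
    B_pt_left]
  ring

omit [DecidableEq ι] in
theorem q_sub (B : V →ₗ[ℝ] V →ₗ[ℝ] ℝ) (hB : ∀ x y, B x y = B y x) (x p : V) :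
    B (x - p) (x - p) = B x x - 2 * B x p + B p p := by
  simp only [map_sub, LinearMap.sub_apply, hB p x]
  ring

/-- The facet case. -/
theorem facet (B : V →ₗ[ℝ] V →ₗ[ℝ] ℝ) (hB : ∀ x y, B x y = B y x) (v : ι → V) (S : Finset ι)
    (hS : 3 ≤ S.card) (o p : V) (Rsq : ℝ) (hR : ∀ i ∈ S, B (v i - o) (v i - o) ≤ Rsq)
    {l : ι → ℝ} (hl : l ∈ Wt S) :
    ∃ j ∈ S, ∃ μ ∈ Wt (S.erase j), B (pt v μ - p) (pt v μ - p) ≤
      B (pt v l - p) (pt v l - p) +
        (Rsq - B (pt v l - o) (pt v l - o)) / ((S.card : ℝ) - 1) ^ 2 := by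
  by_contra hcon
  push Not at hcon
  set x := pt v l with hx
  set n : ℝ := (S.card : ℝ) with hndef
  have hn : (3 : ℝ) ≤ n := by rw [hndef]; exact_mod_cast hS
  set τ := Rsq - B (x - o) (x - o) with hτ
  set κ := B (x - p) (x - p) + τ / (n - 1) ^ 2 with hκ
  -- vertices
  have hvert : ∀ i ∈ S, κ < B (v i - p) (v i - p) := by
    intro i hi
    have : ∃ j ∈ S, j ≠ i := by
      have : 1 < S.card := by omega
      obtain ⟨j, hj, hji⟩ := Finset.exists_mem_ne this i
      exact ⟨j, hj, hji⟩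
    obtain ⟨j, hj, hji⟩ := this
    have h1 := hcon j hj (Pi.single i 1) (single_mem_Wt (Finset.mem_erase.2 ⟨hji.symm, hi⟩))
    have h2 : pt v (Pi.single i 1) = v i := by
      rw [pt, Finset.sum_eq_single i]
      · simp
      · intro b _ hb; simp [hb]
      · simp
    rwa [h2] at h1
  let g : ι → ℝ := fun i => if i ∈ S then √(B (v i - p) (v i - p) - κ) else 1
  have hg : ∀ i, 0 < g i := by
    intro i
    by_cases hi : i ∈ S
    · simp only [g, hi, if_true]
      exact Real.sqrt_pos.2 (by linarith [hvert i hi])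
    · simp [g, hi]
  have hg2 : ∀ i ∈ S, g i ^ 2 = B (v i - p) (v i - p) - κ := by
    intro i hi
    simp only [g, hi, if_true]
    exact Real.sq_sqrt (by linarith [hvert i hi])
  let M : Matrix ι ι ℝ := Matrix.of fun i j => (B (v i - p) (v j - p) - κ) / (g i * g j)
  have hM : M.IsSymm := by
    ext i j
    simp only [M, Matrix.transpose_apply, Matrix.of_apply, hB (v j - p) (v i - p), mul_comm (g j)]
  have hdiag : ∀ i ∈ S, M i i = 1 := by
    intro i hi
    simp only [M, Matrix.of_apply, ← hg2 i hi]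
    have := (hg i).ne'
    field_simp
  -- the quadratic form in terms of the points
  have hform : ∀ w : ι → ℝ, Matrix.toBilin' M w w =
      B (∑ i, (w i / g i) • (v i - p)) (∑ i, (w i / g i) • (v i - p)) -
        κ * (∑ i, w i / g i) ^ 2 := by
    intro w
    have hexp : B (∑ i, (w i / g i) • (v i - p)) (∑ i, (w i / g i) • (v i - p)) =
        ∑ i, ∑ j, (w i / g i) * ((w j / g j) * B (v i - p) (v j - p)) := by
      have h1 : ∀ z, B (∑ i, (w i / g i) • (v i - p)) z = ∑ i, (w i / g i) * B (v i - p) z := by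
        intro z
        simp only [map_sum, map_smul, LinearMap.sum_apply, LinearMap.smul_apply, smul_eq_mul]
      rw [h1]
      apply Finset.sum_congr rfl; intro i _
      rw [map_sum, Finset.mul_sum]
      apply Finset.sum_congr rfl; intro j _
      simp only [map_smul, smul_eq_mul]
    rw [Matrix.toBilin'_apply, hexp, sq, Finset.sum_mul_sum, Finset.mul_sum,
      ← Finset.sum_sub_distrib]
    apply Finset.sum_congr rfl; intro i _
    rw [Finset.mul_sum, ← Finset.sum_sub_distrib]
    apply Finset.sum_congr rfl; intro j _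
    simp only [M, Matrix.of_apply]
    have h1 := (hg i).ne'
    have h2 := (hg j).ne'
    field_simp
  -- weights give points
  have hshift : ∀ w : ι → ℝ, ∑ i, w i • (v i - p) = pt v w - (∑ i, w i) • p := by
    intro w
    simp only [smul_sub, Finset.sum_sub_distrib, pt, Finset.sum_smul]
  have hcop : ∀ j ∈ S, ∀ w : ι → ℝ, (∀ i, 0 ≤ w i) → (∀ i, i ∉ S → w i = 0) → w j = 0 → w ≠ 0 →
      0 < Matrix.toBilin' M w w := by
    intro j hj w hw0 hwS hwj hwne
    rw [hform]
    set m := ∑ i, w i / g i with hm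
    have hm0 : 0 < m := by
      obtain ⟨i, hi⟩ : ∃ i, w i ≠ 0 := by
        by_contra hall; push Not at hall; exact hwne (funext hall)
      apply Finset.sum_pos'
      · intro i _; exact div_nonneg (hw0 i) (hg i).le
      · exact ⟨i, Finset.mem_univ i, div_pos (lt_of_le_of_ne (hw0 i) hi.symm) (hg i)⟩
    have hmem : (fun i => w i / g i / m) ∈ Wt (S.erase j) := by
      refine ⟨fun i => div_nonneg (div_nonneg (hw0 i) (hg i).le) hm0.le, fun i hi => ?_, ?_⟩
      · rw [Finset.mem_erase, not_and_or, not_not] at hi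
        rcases hi with rfl | hi
        · simp [hwj]
        · simp [hwS i hi]
      · rw [← Finset.sum_div, ← hm, div_self hm0.ne']
    have h1 := hcon j hj _ hmem
    have h2 : pt v (fun i => w i / g i / m) - p = m⁻¹ • ∑ i, (w i / g i) • (v i - p) := by
      rw [hshift, smul_sub, smul_smul, inv_mul_cancel₀ hm0.ne', one_smul, pt, pt, Finset.smul_sum]
      congr 1
      apply Finset.sum_congr rfl; intro i _
      rw [smul_smul]; congr 1; field_simp
    rw [h2] at h1
    simp only [map_smul, LinearMap.smul_apply, smul_eq_mul] at h1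
    have h3 : κ * m ^ 2 < (m⁻¹ * (m⁻¹ * B (∑ i, (w i / g i) • (v i - p))
        (∑ i, (w i / g i) • (v i - p)))) * m ^ 2 := mul_lt_mul_of_pos_right h1 (by positivity)
    have h4 : (m⁻¹ * (m⁻¹ * B (∑ i, (w i / g i) • (v i - p))
        (∑ i, (w i / g i) • (v i - p)))) * m ^ 2 = B (∑ i, (w i / g i) • (v i - p))
        (∑ i, (w i / g i) • (v i - p)) := by
      field_simp
    linarith
  -- apply the key lemma to the rescaled weights
  set Γ := ∑ i, l i * g i with hΓ
  have hΓ0 : 0 < Γ := by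
    obtain ⟨i, hi⟩ : ∃ i, l i ≠ 0 := by
      by_contra hall; push Not at hall
      have : ∑ i, l i = 0 := Finset.sum_eq_zero fun i _ => hall i
      rw [hl.2.2] at this; norm_num at this
    apply Finset.sum_pos'
    · intro i _; exact mul_nonneg (hl.1 i) (hg i).le
    · exact ⟨i, Finset.mem_univ i, mul_pos (lt_of_le_of_ne (hl.1 i) hi.symm) (hg i)⟩
  have hc : (fun i => l i * g i / Γ) ∈ Wt S := by
    refine ⟨fun i => div_nonneg (mul_nonneg (hl.1 i) (hg i).le) hΓ0.le, fun i hi => ?_, ?_⟩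
    · simp [hl.2.1 i hi]
    · rw [← Finset.sum_div, ← hΓ, div_self hΓ0.ne']
  have hkey := cop M hM S hS hdiag hcop hc
  rw [hform] at hkey
  have h1 : ∀ i, l i * g i / Γ / g i = Γ⁻¹ * l i := by
    intro i
    have := (hg i).ne'
    field_simp
  simp only [h1] at hkey
  have h2 : ∑ i, (Γ⁻¹ * l i) • (v i - p) = Γ⁻¹ • (x - p) := by
    have : ∀ i, (Γ⁻¹ * l i) • (v i - p) = Γ⁻¹ • (l i • (v i - p)) := by intro i; rw [smul_smul]
    simp_rw [this]
    rw [← Finset.smul_sum, hshift, hl.2.2, one_smul]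
  have h3 : ∑ i, Γ⁻¹ * l i = Γ⁻¹ := by rw [← Finset.mul_sum, hl.2.2, mul_one]
  rw [h2, h3] at hkey
  simp only [map_smul, LinearMap.smul_apply, smul_eq_mul] at hkey
  -- Cauchy-Schwarz
  have hCS : Γ ^ 2 ≤ ∑ i, l i * g i ^ 2 := by
    have h := Finset.sum_mul_sq_le_sq_mul_sq Finset.univ (fun i => √(l i)) (fun i => √(l i) * g i)
    have e1 : ∀ i, √(l i) * (√(l i) * g i) = l i * g i := by
      intro i; rw [← mul_assoc, Real.mul_self_sqrt (hl.1 i)]
    have e2 : ∀ i, √(l i) ^ 2 = l i := fun i => Real.sq_sqrt (hl.1 i)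
    simp only [e1, mul_pow, e2, hl.2.2, one_mul] at h
    exact h
  have hlg : ∑ i, l i * g i ^ 2 = ∑ i, l i * B (v i - p) (v i - p) - κ := by
    have : ∀ i, l i * g i ^ 2 = l i * B (v i - p) (v i - p) - l i * κ := by
      intro i
      by_cases hi : i ∈ S
      · rw [hg2 i hi]; ring
      · rw [hl.2.1 i hi]; ring
    simp_rw [this]
    rw [Finset.sum_sub_distrib, ← Finset.sum_mul, hl.2.2, one_mul]
  have hvar : ∑ i, l i * B (v i - p) (v i - p) ≤ B (x - p) (x - p) + τ := by
    rw [sum_q B hB v hl.2.2 p, q_sub B hB, hτ, q_sub B hB]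
    have h4 := sum_q B hB v hl.2.2 o
    have h5 : ∑ i, l i * B (v i - o) (v i - o) ≤ Rsq := by
      calc _ ≤ ∑ i, l i * Rsq := by
            apply Finset.sum_le_sum; intro i _
            by_cases hi : i ∈ S
            · exact mul_le_mul_of_nonneg_left (hR i hi) (hl.1 i)
            · rw [hl.2.1 i hi]; simp
        _ = Rsq := by rw [← Finset.sum_mul, hl.2.2, one_mul]
    linarith
  have hΓle : Γ ^ 2 ≤ τ - τ / (n - 1) ^ 2 := by linarith
  have hn1 : 0 < (n - 1) ^ 2 := by nlinarith
  have hn2 : 0 < n * (n - 2) := by nlinarith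
  have h6 : Γ⁻¹ * (Γ⁻¹ * B (x - p) (x - p)) - κ * Γ⁻¹ ^ 2 = -(τ / (n - 1) ^ 2) / Γ ^ 2 := by
    rw [hκ]; field_simp; ring
  rw [h6] at hkey
  have h7 : τ / (n - 1) ^ 2 / Γ ^ 2 < 1 / (n * (n - 2)) := by
    have : -(τ / (n - 1) ^ 2) / Γ ^ 2 = -(τ / (n - 1) ^ 2 / Γ ^ 2) := by ring
    rw [this] at hkey
    linarith
  rw [div_lt_div_iff₀ (by positivity) hn2] at h7
  have h8 : τ / (n - 1) ^ 2 * (n * (n - 2)) = τ - τ / (n - 1) ^ 2 := by
    have hn1' : n - 1 ≠ 0 := by
      intro h; linarith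
    field_simp
    ring
  linarith

/-- The vertex case. -/
theorem vertex (B : V →ₗ[ℝ] V →ₗ[ℝ] ℝ) (hB : ∀ x y, B x y = B y x) (v : ι → V) (S : Finset ι)
    (o p : V) (Rsq : ℝ) (hR : ∀ i ∈ S, B (v i - o) (v i - o) ≤ Rsq)
    {l : ι → ℝ} (hl : l ∈ Wt S) :
    ∃ j ∈ S, B (v j - p) (v j - p) ≤
      B (pt v l - p) (pt v l - p) + (Rsq - B (pt v l - o) (pt v l - o)) := by
  by_contra hcon
  push Not at hcon
  set x := pt v l with hx
  have h5 : ∑ i, l i * B (v i - o) (v i - o) ≤ Rsq := by
    calc _ ≤ ∑ i, l i * Rsq := by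
          apply Finset.sum_le_sum; intro i _
          by_cases hi : i ∈ S
          · exact mul_le_mul_of_nonneg_left (hR i hi) (hl.1 i)
          · rw [hl.2.1 i hi]; simp
      _ = Rsq := by rw [← Finset.sum_mul, hl.2.2, one_mul]
  have h1 := sum_q B hB v hl.2.2 p
  have h2 := sum_q B hB v hl.2.2 o
  have h3 := q_sub B hB x p
  have h4 := q_sub B hB x o
  have h6 : B (x - p) (x - p) + (Rsq - B (x - o) (x - o)) < ∑ i, l i * B (v i - p) (v i - p) := by
    set K := B (x - p) (x - p) + (Rsq - B (x - o) (x - o)) with hK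
    obtain ⟨i, hi⟩ : ∃ i, l i ≠ 0 := by
      by_contra hall; push Not at hall
      have : ∑ i, l i = 0 := Finset.sum_eq_zero fun i _ => hall i
      rw [hl.2.2] at this; norm_num at this
    have hiS : i ∈ S := by
      by_contra h; exact hi (hl.2.1 i h)
    calc K = ∑ i, l i * K := by rw [← Finset.sum_mul, hl.2.2, one_mul]
      _ < _ := by
        apply Finset.sum_lt_sum
        · intro j _
          by_cases hj : j ∈ S
          · exact mul_le_mul_of_nonneg_left (hcon j hj).le (hl.1 j)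
          · rw [hl.2.1 j hj]; simp
        · exact ⟨i, Finset.mem_univ i, mul_lt_mul_of_pos_left (hcon i hiS)
            (lt_of_le_of_ne (hl.1 i) hi.symm)⟩
  linarith

/-- The constant of the skeleton bound: `n` vertices, faces with `s` vertices. -/
noncomputable def aa (n s : ℝ) : ℝ := (n - s) / ((n - 1) * s)

/-- Main Euclidean-type theorem, for an arbitrary symmetric bilinear form. -/
theorem main (B : V →ₗ[ℝ] V →ₗ[ℝ] ℝ) (hB : ∀ x y, B x y = B y x) (v : ι → V) (o : V) (Rsq : ℝ)
    (s : ℕ) (hs : 1 ≤ s) (n : ℕ) :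
    ∀ (S : Finset ι), S.card = n → s ≤ n → 2 ≤ n → (∀ i ∈ S, B (v i - o) (v i - o) ≤ Rsq) →
      ∀ (p : V) (l : ι → ℝ), l ∈ Wt S → ∃ J ⊆ S, J.card = s ∧ ∃ μ ∈ Wt J,
      B (pt v μ - p) (pt v μ - p) ≤ B (pt v l - p) (pt v l - p) +
        aa n s * (Rsq - B (pt v l - o) (pt v l - o)) := by
  induction n with
  | zero => intro S _ _ h; omega
  | succ n ih =>
    intro S hS hsn hn2 hR p l hl
    rcases Nat.eq_or_lt_of_le hsn with hsn' | hsn'
    · -- s = n + 1
      refine ⟨S, subset_rfl, by omega, l, hl, ?_⟩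
      have : aa ((n + 1 : ℕ) : ℝ) s = 0 := by
        rw [aa, ← hsn', sub_self, zero_div]
      rw [this]; linarith
    rcases Nat.eq_or_lt_of_le hs with hs1 | hs1
    · -- s = 1
      obtain ⟨j, hj, hle⟩ := vertex B hB v S o p Rsq hR hl
      refine ⟨{j}, by simpa using hj, by simp [← hs1], Pi.single j 1,
        single_mem_Wt (Finset.mem_singleton_self j), ?_⟩
      have h2 : pt v (Pi.single j 1) = v j := by
        rw [pt, Finset.sum_eq_single j]
        · simp
        · intro b _ hb; simp [hb]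
        · simp
      have h3 : aa ((n + 1 : ℕ) : ℝ) s = 1 := by
        have hn0 : (1 : ℝ) ≤ n := by
          have : 1 ≤ n := by omega
          exact_mod_cast this
        rw [aa, ← hs1]
        push_cast
        have : (n : ℝ) ≠ 0 := by linarith
        rw [add_sub_cancel_right, mul_one, div_self this]
      rw [h2, h3, one_mul]
      exact hle
    -- general step
    have hn3 : 3 ≤ S.card := by omega
    have hnr : (2 : ℝ) ≤ n := by
      have : 2 ≤ n := by omega
      exact_mod_cast this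
    have hsr : (2 : ℝ) ≤ s := by exact_mod_cast hs1
    have hsnr : (s : ℝ) ≤ n := by
      have : s ≤ n := by omega
      exact_mod_cast this
    set b := aa n s with hb
    have hb1 : 0 < 1 - b := by
      rw [hb, aa, sub_pos, div_lt_one (by nlinarith)]
      nlinarith
    set p' : V := (1 - b)⁻¹ • (p - b • o) with hp'
    obtain ⟨j, hj, μ0, hμ0, hle⟩ := facet B hB v S hn3 o p' Rsq hR hl
    obtain ⟨J, hJ, hJs, μ, hμ, hle2⟩ := ih (S.erase j) (by rw [Finset.card_erase_of_mem hj]; omega)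
      (by omega) (by omega) (fun i hi => hR i (Finset.mem_of_mem_erase hi)) p μ0 hμ0
    refine ⟨J, hJ.trans (Finset.erase_subset _ _), hJs, μ, hμ, hle2.trans ?_⟩
    -- algebra
    set x := pt v l with hx
    set y := pt v μ0 with hy
    have hp : p = (1 - b) • p' + b • o := by
      rw [hp', smul_smul, mul_inv_cancel₀ hb1.ne', one_smul]; abel
    have key : ∀ z : V, B (z - p) (z - p) - b * B (z - o) (z - o) =
        (1 - b) * B (z - p') (z - p') + (B p p - (1 - b) * B p' p' - b * B o o) := by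
      intro z
      rw [q_sub B hB, q_sub B hB, q_sub B hB]
      have : B z p = (1 - b) * B z p' + b * B z o := by
        conv_lhs => rw [hp]
        simp only [map_add, map_smul, smul_eq_mul]
      rw [this]; ring
    have k1 := key x
    have k2 := key y
    have hcard : (S.card : ℝ) - 1 = n := by rw [hS]; push_cast; ring
    rw [hcard] at hle
    have h1 : (1 - b) * B (y - p') (y - p') ≤ (1 - b) * (B (x - p') (x - p') +
        (Rsq - B (x - o) (x - o)) / (n : ℝ) ^ 2) := mul_le_mul_of_nonneg_left hle hb1.le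
    have h2 : aa ((n + 1 : ℕ) : ℝ) s = b + (1 - b) / (n : ℝ) ^ 2 := by
      rw [hb, aa, aa]
      push_cast
      have e1 : (n : ℝ) ≠ 0 := by linarith
      have e2 : (n : ℝ) - 1 ≠ 0 := by intro h; linarith
      have e3 : (s : ℝ) ≠ 0 := by linarith
      have e4 : (n : ℝ) + 1 - 1 = n := by ring
      rw [e4]
      field_simp
      ring
    rw [h2]
    have h3 : (1 - b) * (B (x - p') (x - p') + (Rsq - B (x - o) (x - o)) / (n : ℝ) ^ 2) =
        (1 - b) * B (x - p') (x - p') +
          (1 - b) / (n : ℝ) ^ 2 * (Rsq - B (x - o) (x - o)) := by ring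
    rw [h3] at h1
    linarith

end Pool.Agent.H43.Skel
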