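import Pool.Agent.H43.Skel1

set_option autoImplicit false

namespace Pool.Agent.H43.Skel

open Finset

variable {ι : Type*} [Fintype ι] [DecidableEq ι]
variable {V : Type*} [AddCommGroup V] [Module ℝ V]

omit [DecidableEq ι] in
theorem pt_eq_sum (v : ι → V) {J : Finset ι} {μ : ι → ℝ} (hμ : μ ∈ Wt J) :
    pt v μ = ∑ i ∈ J, μ i • v i := by
  rw [pt]
  symm
  apply Finset.sum_subset (Finset.subset_univ J)
  intro i _ hi
  rw [hμ.2.1 i hi, zero_smul]

/-- The constant appearing in the spherical and hyperbolic statements. -/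
noncomputable def tt (n s C : ℝ) : ℝ := 1 + aa n s * (1 / C ^ 2 - 1)

theorem aa_nonneg {n s : ℕ} (hs : 1 ≤ s) (hsn : s ≤ n) (hn : 2 ≤ n) : 0 ≤ aa n s := by
  rw [aa]
  have h1 : (1 : ℝ) ≤ s := by exact_mod_cast hs
  have h2 : (s : ℝ) ≤ n := by exact_mod_cast hsn
  have h3 : (2 : ℝ) ≤ n := by exact_mod_cast hn
  apply div_nonneg (by linarith)
  apply mul_nonneg <;> linarith

theorem aa_le_one {n s : ℕ} (hs : 1 ≤ s) (hsn : s ≤ n) (hn : 2 ≤ n) : aa n s ≤ 1 := by
  rw [aa]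
  have h1 : (1 : ℝ) ≤ s := by exact_mod_cast hs
  have h2 : (s : ℝ) ≤ n := by exact_mod_cast hsn
  have h3 : (2 : ℝ) ≤ n := by exact_mod_cast hn
  rw [div_le_one (by nlinarith)]
  nlinarith

theorem tt_ge_one {n s : ℕ} (hs : 1 ≤ s) (hsn : s ≤ n) (hn : 2 ≤ n) {C : ℝ} (hC : 0 < C)
    (hC1 : C ≤ 1) : 1 ≤ tt n s C := by
  rw [tt]
  have h1 := aa_nonneg hs hsn hn
  have h2 : 0 ≤ 1 / C ^ 2 - 1 := by
    rw [sub_nonneg, le_div_iff₀ (by positivity)]
    nlinarith
  nlinarith [mul_nonneg h1 h2]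

theorem tt_pos {n s : ℕ} (hs : 1 ≤ s) (hsn : s ≤ n) (hn : 2 ≤ n) {C : ℝ} (hC : 0 < C) :
    0 < tt n s C := by
  rw [tt]
  have h1 := aa_nonneg hs hsn hn
  have h1' := aa_le_one hs hsn hn
  have h2 : 0 < 1 / C ^ 2 := by positivity
  nlinarith [mul_nonneg h1 h2.le]

/-- Sphere, first half: a point of the skeleton close to `x`. -/
theorem sph_part1 {E : Type*} [NormedAddCommGroup E] [InnerProductSpace ℝ E] {s n : ℕ}
    (hs : 1 ≤ s) (hsn : s ≤ n) (hn : 2 ≤ n) (c : E) (hc : inner ℝ c c = (1 : ℝ)) (C : ℝ)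
    (hC0 : 0 < C) (hC1 : C ≤ 1) (v : Fin n → E) (hv : ∀ i, inner ℝ (v i) (v i) = (1 : ℝ))
    (hvC : ∀ i, C ≤ inner ℝ c (v i)) (x : E) (hx : inner ℝ x x = (1 : ℝ)) (α : Fin n → ℝ)
    (hα : ∀ i, 0 ≤ α i) (hxα : x = ∑ i, α i • v i) :
    ∃ J : Finset (Fin n), J.card = s ∧ ∃ β : Fin n → ℝ, (∀ i, 0 ≤ β i) ∧
      inner ℝ (∑ i ∈ J, β i • v i) (∑ i ∈ J, β i • v i) = (1 : ℝ) ∧
      1 / √(tt n s C) ≤ inner ℝ x (∑ i ∈ J, β i • v i) := by
  have hw : ∀ i, 0 < inner ℝ c (v i) := fun i => hC0.trans_le (hvC i)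
  set w : ℝ := inner ℝ c x with hwdef
  have hwx : w = ∑ i, α i * inner ℝ c (v i) := by
    rw [hwdef, hxα, inner_sum]
    simp only [real_inner_smul_right]
  have hw0 : 0 < w := by
    rw [hwx]
    obtain ⟨i, hi⟩ : ∃ i, α i ≠ 0 := by
      by_contra hall; push Not at hall
      have : x = 0 := by rw [hxα]; exact Finset.sum_eq_zero fun i _ => by rw [hall i, zero_smul]
      rw [this, inner_zero_left] at hx
      norm_num at hx
    apply Finset.sum_pos'
    · intro i _; exact mul_nonneg (hα i) (hw i).le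
    · exact ⟨i, Finset.mem_univ i, mul_pos (lt_of_le_of_ne (hα i) hi.symm) (hw i)⟩
  let Y : Fin n → E := fun i => (inner ℝ c (v i))⁻¹ • v i
  let l : Fin n → ℝ := fun i => α i * inner ℝ c (v i) / w
  have hl : l ∈ Wt (univ : Finset (Fin n)) := by
    refine ⟨fun i => div_nonneg (mul_nonneg (hα i) (hw i).le) hw0.le,
      fun i hi => absurd (Finset.mem_univ i) hi, ?_⟩
    simp only [l]
    rw [← Finset.sum_div, ← hwx, div_self hw0.ne']
  have hptl : pt Y l = w⁻¹ • x := by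
    rw [pt, hxα, Finset.smul_sum]
    apply Finset.sum_congr rfl; intro i _
    simp only [Y, l]
    rw [smul_smul, smul_smul]; congr 1
    have := (hw i).ne'
    field_simp
  set τ : ℝ := 1 / C ^ 2 - 1 with hτ
  set a := aa n s with ha
  set t := tt n s C with ht
  have ht' : t = 1 + a * τ := by rw [ht, tt]
  have ht1 : 1 ≤ t := tt_ge_one hs hsn hn hC0 hC1
  have ha0 : 0 ≤ a := aa_nonneg hs hsn hn
  have hτ0 : 0 ≤ τ := by
    rw [hτ, sub_nonneg, le_div_iff₀ (by positivity)]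
    nlinarith
  set X := w⁻¹ • x with hX
  have hR : ∀ i ∈ (univ : Finset (Fin n)), innerₗ E (Y i - c) (Y i - c) ≤ τ := by
    intro i _
    have h1 : inner ℝ (Y i) (Y i) = (inner ℝ c (v i))⁻¹ ^ 2 := by
      simp only [Y, real_inner_smul_left, real_inner_smul_right, hv i]; ring
    have h2 : inner ℝ (Y i) c = (1 : ℝ) := by
      simp only [Y, real_inner_smul_left, real_inner_comm c (v i)]
      exact inv_mul_cancel₀ (hw i).ne'
    rw [innerₗ_apply_apply, real_inner_sub_sub_self, h1, h2, hc, hτ]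
    have h3 : (inner ℝ c (v i))⁻¹ ^ 2 ≤ 1 / C ^ 2 := by
      rw [inv_pow, one_div]
      apply inv_anti₀ (by positivity)
      exact pow_le_pow_left₀ hC0.le (hvC i) 2
    linarith
  obtain ⟨J, -, hJ, μ, hμ, hle⟩ := main (innerₗ E) (fun x y => real_inner_comm y x) Y c τ s hs n
    univ (by simp) hsn hn hR (c + t • (X - c)) l hl
  rw [hptl] at hle
  set Z := pt Y μ with hZ
  have hXc : inner ℝ c X = (1 : ℝ) := by
    rw [hX, real_inner_smul_right, ← hwdef, inv_mul_cancel₀ hw0.ne']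
  have hZc : inner ℝ c Z = (1 : ℝ) := by
    rw [hZ, pt, inner_sum]
    have : ∀ i, inner ℝ c (μ i • Y i) = μ i := by
      intro i
      simp only [Y, real_inner_smul_right]
      rw [inv_mul_cancel₀ (hw i).ne', mul_one]
    simp only [this, hμ.2.2]
  have hXXw : inner ℝ X X = (w⁻¹) ^ 2 := by
    simp only [hX, real_inner_smul_left, real_inner_smul_right, hx]; ring
  simp only [innerₗ_apply_apply] at hle
  -- shift the origin to `c`
  set ξ := X - c with hξ
  set ζ := Z - c with hζ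
  have hZ' : Z = c + ζ := by rw [hζ]; abel
  have hX' : X = c + ξ := by rw [hξ]; abel
  have e1 : Z - (c + t • ξ) = ζ - t • ξ := by rw [hζ]; abel
  have e2 : X - (c + t • ξ) = (1 - t) • ξ := by rw [sub_smul, one_smul, hξ]; abel
  rw [e1, e2] at hle
  have hcξ : inner ℝ c ξ = (0 : ℝ) := by rw [hξ, inner_sub_right, hXc, hc, sub_self]
  have hcζ : inner ℝ c ζ = (0 : ℝ) := by rw [hζ, inner_sub_right, hZc, hc, sub_self]
  set X2 : ℝ := inner ℝ ξ ξ with hX2
  set Z2 : ℝ := inner ℝ ζ ζ with hZ2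
  set q : ℝ := inner ℝ ξ ζ with hq
  have hX2n : 0 ≤ X2 := real_inner_self_nonneg
  have hZ2n : 0 ≤ Z2 := real_inner_self_nonneg
  have hXX : inner ℝ X X = 1 + X2 := by
    rw [hX', real_inner_add_add_self, hc, hcξ]; ring
  have hZZ : inner ℝ Z Z = 1 + Z2 := by
    rw [hZ', real_inner_add_add_self, hc, hcζ]; ring
  have hXZ : inner ℝ X Z = 1 + q := by
    rw [hX', hZ', inner_add_left, inner_add_right, inner_add_right, hc, hcζ,
      real_inner_comm, hcξ]; ring
  have e3 : inner ℝ (ζ - t • ξ) (ζ - t • ξ) = Z2 - 2 * t * q + t ^ 2 * X2 := by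
    rw [real_inner_sub_sub_self]
    simp only [real_inner_smul_left, real_inner_smul_right, real_inner_comm ξ ζ]
    ring
  have e4 : inner ℝ ((1 - t) • ξ) ((1 - t) • ξ) = (1 - t) ^ 2 * X2 := by
    simp only [real_inner_smul_left, real_inner_smul_right]; ring
  rw [e3, e4] at hle
  have hZle : Z2 ≤ 2 * t * q + (1 - 2 * t - a) * X2 + (t - 1) := by
    rw [ht'] at hle ⊢
    nlinarith
  have hq1 : 0 < 1 + q := by
    nlinarith [mul_nonneg (by linarith : 0 ≤ 2 * t + a - 1) hX2n]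
  have hmain : (1 + X2) * (1 + Z2) ≤ t * (1 + q) ^ 2 := by
    have h1 : (1 + X2) * (1 + Z2) ≤
        (1 + X2) * (t + 2 * t * q + (1 - 2 * t - a) * X2) :=
      mul_le_mul_of_nonneg_left (by linarith) (by linarith)
    have h2 : t * (1 + q) ^ 2 - (1 + X2) * (t + 2 * t * q + (1 - 2 * t - a) * X2) =
        t * (q - X2) ^ 2 + (t + a - 1) * X2 + (t + a - 1) * X2 ^ 2 := by ring
    have h3 : 0 ≤ t * (q - X2) ^ 2 := mul_nonneg (by linarith) (sq_nonneg _)
    have h4 : 0 ≤ (t + a - 1) * X2 := mul_nonneg (by linarith) hX2n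
    have h5 : 0 ≤ (t + a - 1) * X2 ^ 2 := mul_nonneg (by linarith) (sq_nonneg _)
    linarith
  -- the point
  have hZnn : 0 < inner ℝ Z Z := by rw [hZZ]; linarith
  set N := √(inner ℝ Z Z) with hN
  have hN0 : 0 < N := Real.sqrt_pos.2 hZnn
  have hN2 : N ^ 2 = 1 + Z2 := by rw [hN, Real.sq_sqrt hZnn.le, hZZ]
  refine ⟨J, hJ, fun i => μ i * (inner ℝ c (v i))⁻¹ * N⁻¹, fun i => ?_, ?_⟩
  · have h1 := hμ.1 i
    have h2 := (hw i).le
    positivity
  have hpt : ∑ i ∈ J, (μ i * (inner ℝ c (v i))⁻¹ * N⁻¹) • v i = N⁻¹ • Z := by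
    rw [hZ, pt_eq_sum Y hμ, Finset.smul_sum]
    apply Finset.sum_congr rfl; intro i _
    simp only [Y]
    rw [smul_smul, smul_smul]; congr 1; ring
  rw [hpt]
  constructor
  · rw [real_inner_smul_left, real_inner_smul_right, hZZ, ← hN2]
    field_simp
  · have hx' : x = w • X := by rw [hX, smul_smul, mul_inv_cancel₀ hw0.ne', one_smul]
    rw [hx', real_inner_smul_left, real_inner_smul_right, hXZ]
    have hw2 : w ^ 2 * (1 + X2) = 1 := by
      rw [← hXX, hXXw]; field_simp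
    have hst : 0 < √t := Real.sqrt_pos.2 (by linarith)
    have hst2 : √t ^ 2 = t := Real.sq_sqrt (by linarith)
    rw [div_le_iff₀ hst]
    have hpos : 0 ≤ w * (N⁻¹ * (1 + q)) * √t := by positivity
    rw [← abs_of_nonneg hpos, ← one_le_sq_iff_one_le_abs]
    have h6 : (w * (N⁻¹ * (1 + q)) * √t) ^ 2 = t * (1 + q) ^ 2 / ((1 + X2) * (1 + Z2)) := by
      have : w ^ 2 = 1 / (1 + X2) := by
        rw [eq_div_iff (by linarith)]; exact hw2
      rw [mul_pow, mul_pow, mul_pow, hst2, this, inv_pow, hN2]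
      field_simp
    rw [h6, one_le_div (by positivity)]
    exact hmain

/-- Hyperbolic space, first half, for an abstract symmetric form. -/
theorem hyp_part1 (B : V →ₗ[ℝ] V →ₗ[ℝ] ℝ) (hB : ∀ x y, B x y = B y x) {s n : ℕ}
    (hs : 1 ≤ s) (hsn : s ≤ n) (hn : 2 ≤ n) (c : V) (C : ℝ) (hC : 0 < C) (v : Fin n → V)
    (hv : ∀ i, B (v i) (v i) = 1) (hvC : ∀ i, B c (v i) ≤ C) (x : V) (hx : B x x = 1)
    (hcx : 1 ≤ B c x) (hxv : ∀ i, 0 < B x (v i)) (o : V) (ho : ∀ i, 2 * B (v i) o = 1 / B x (v i))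
    (α : Fin n → ℝ) (hα : ∀ i, 0 ≤ α i) (hxα : x = ∑ i, α i • v i) :
    ∃ J : Finset (Fin n), J.card = s ∧ ∃ β : Fin n → ℝ, (∀ i, 0 ≤ β i) ∧ (∃ i ∈ J, β i ≠ 0) ∧
      B (∑ i ∈ J, β i • v i) (∑ i ∈ J, β i • v i) = 1 ∧
      B x (∑ i ∈ J, β i • v i) ≤ 1 / √(tt n s C) := by
  let Y : Fin n → V := fun i => (B x (v i))⁻¹ • v i
  let l : Fin n → ℝ := fun i => α i * B x (v i)
  have hBx : ∀ z, B z x = ∑ i, α i * B z (v i) := by
    intro z
    conv_lhs => rw [hxα]
    simp only [map_sum, map_smul, smul_eq_mul]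
  have hl : l ∈ Wt (univ : Finset (Fin n)) := by
    refine ⟨fun i => mul_nonneg (hα i) (hxv i).le, fun i hi => absurd (Finset.mem_univ i) hi, ?_⟩
    simp only [l]
    rw [← hBx, hx]
  have hptl : pt Y l = x := by
    rw [pt]
    conv_rhs => rw [hxα]
    apply Finset.sum_congr rfl; intro i _
    simp only [Y, l]
    rw [smul_smul]; congr 1
    have := (hxv i).ne'
    field_simp
  have hnegB : ∀ x y, (-B) x y = -(B x y) := fun x y => by
    simp only [LinearMap.neg_apply]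
  have hR : ∀ i ∈ (univ : Finset (Fin n)), (-B) (Y i - o) (Y i - o) ≤ -B o o := by
    intro i _
    rw [hnegB, q_sub B hB]
    have h1 : B (Y i) (Y i) = (B x (v i))⁻¹ ^ 2 := by
      simp only [Y, map_smul, LinearMap.smul_apply, smul_eq_mul, hv i]; ring
    have h2 : 2 * B (Y i) o = (B x (v i))⁻¹ ^ 2 := by
      simp only [Y, map_smul, LinearMap.smul_apply, smul_eq_mul]
      have := ho i
      calc 2 * ((B x (v i))⁻¹ * B (v i) o) = (B x (v i))⁻¹ * (2 * B (v i) o) := by ring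
        _ = _ := by rw [this]; ring
    rw [h1, h2]; linarith
  obtain ⟨J, -, hJ, μ, hμ, hle⟩ := main (-B) (fun x y => by rw [hnegB, hnegB, hB]) Y o (-B o o) s
    hs n univ (by simp) hsn hn hR x l hl
  rw [hptl] at hle
  set Z := pt Y μ with hZ
  simp only [hnegB] at hle
  rw [sub_self, map_zero, q_sub B hB, q_sub B hB, hx] at hle
  have hZx : B Z x = 1 := by
    rw [hZ, B_pt_left]
    have : ∀ i, μ i * B (Y i) x = μ i := by
      intro i
      simp only [Y, map_smul, LinearMap.smul_apply, smul_eq_mul]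
      rw [hB (v i) x, inv_mul_cancel₀ (hxv i).ne', mul_one]
    simp only [this, hμ.2.2]
  have hxo : 2 * B x o = ∑ i, α i / B x (v i) := by
    rw [hB x o, hBx o, Finset.mul_sum]
    apply Finset.sum_congr rfl; intro i _
    have := ho i
    rw [hB o (v i)]
    calc 2 * (α i * B (v i) o) = α i * (2 * B (v i) o) := by ring
      _ = _ := by rw [this]; ring
  -- the lower bound for the sum
  have hsum1 : 1 / C ≤ ∑ i, α i := by
    rw [div_le_iff₀ hC]
    calc (1 : ℝ) ≤ B c x := hcx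
      _ = ∑ i, α i * B c (v i) := hBx c
      _ ≤ ∑ i, α i * C := Finset.sum_le_sum fun i _ => mul_le_mul_of_nonneg_left (hvC i) (hα i)
      _ = _ := by rw [Finset.sum_mul]
  have hCS : (∑ i, α i) ^ 2 ≤ (∑ i, α i / B x (v i)) * 1 := by
    have h := Finset.sum_mul_sq_le_sq_mul_sq Finset.univ (fun i => √(α i / B x (v i)))
      (fun i => √(α i * B x (v i)))
    have e0 : ∑ i, α i * B x (v i) = 1 := by rw [← hBx, hx]
    have e1 : ∀ i, √(α i / B x (v i)) * √(α i * B x (v i)) = α i := by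
      intro i
      rw [← Real.sqrt_mul (div_nonneg (hα i) (hxv i).le)]
      have : α i / B x (v i) * (α i * B x (v i)) = α i ^ 2 := by
        have := (hxv i).ne'
        field_simp
      rw [this, Real.sqrt_sq (hα i)]
    have e2 : ∀ i, √(α i / B x (v i)) ^ 2 = α i / B x (v i) := fun i =>
      Real.sq_sqrt (div_nonneg (hα i) (hxv i).le)
    have e3 : ∀ i, √(α i * B x (v i)) ^ 2 = α i * B x (v i) := fun i =>
      Real.sq_sqrt (mul_nonneg (hα i) (hxv i).le)
    simp only [e1, e2, e3, e0] at h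
    exact h
  have hlow : 1 / C ^ 2 ≤ ∑ i, α i / B x (v i) := by
    have : (1 / C) ^ 2 ≤ (∑ i, α i) ^ 2 := pow_le_pow_left₀ (by positivity) hsum1 2
    rw [div_pow, one_pow] at this
    linarith
  set a := aa n s with ha
  have ha0 : 0 ≤ a := aa_nonneg hs hsn hn
  have hZZ : tt n s C ≤ B Z Z := by
    rw [tt, ← ha]
    have h1 := mul_le_mul_of_nonneg_left hlow ha0
    rw [← hxo] at h1
    nlinarith
  have ht0 : 0 < tt n s C := tt_pos hs hsn hn hC
  have hZZ0 : 0 < B Z Z := ht0.trans_le hZZ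
  set N := √(B Z Z) with hN
  have hN0 : 0 < N := Real.sqrt_pos.2 hZZ0
  have hN2 : N ^ 2 = B Z Z := by rw [hN, Real.sq_sqrt hZZ0.le]
  have hpt : ∑ i ∈ J, (μ i * (B x (v i))⁻¹ * N⁻¹) • v i = N⁻¹ • Z := by
    rw [hZ, pt_eq_sum Y hμ, Finset.smul_sum]
    apply Finset.sum_congr rfl; intro i _
    simp only [Y]
    rw [smul_smul, smul_smul]; congr 1; ring
  refine ⟨J, hJ, fun i => μ i * (B x (v i))⁻¹ * N⁻¹, fun i => ?_, ?_, ?_, ?_⟩
  · have h1 := hμ.1 i
    have h2 := (hxv i).le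
    positivity
  · by_contra hall
    push Not at hall
    have : N⁻¹ • Z = 0 := by
      rw [← hpt]
      exact Finset.sum_eq_zero fun i hi => by rw [hall i hi, zero_smul]
    have hZ0 : Z = 0 := by
      rcases smul_eq_zero.1 this with h | h
      · exact absurd h (inv_pos.2 hN0).ne'
      · exact h
    rw [hZ0, map_zero] at hZx
    simp at hZx
  · rw [hpt]
    simp only [map_smul, LinearMap.smul_apply, smul_eq_mul, ← hN2]
    field_simp
  · rw [hpt, map_smul, smul_eq_mul, hB x Z, hZx, mul_one, one_div]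
    apply inv_anti₀ (Real.sqrt_pos.2 ht0)
    exact Real.sqrt_le_sqrt hZZ

end Pool.Agent.H43.Skel
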