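import Pool.Agent.H43.Skel2

set_option autoImplicit false

namespace Pool.Agent.H43.Skel

open Finset

variable {V : Type*} [AddCommGroup V] [Module ℝ V]

theorem B_sum_regular (B : V →ₗ[ℝ] V →ₗ[ℝ] ℝ) {d : ℕ} (T : Fin (d + 1) → V) (m : ℝ)
    (hTT : ∀ i, B (T i) (T i) = 1) (hTm : ∀ i j, i ≠ j → B (T i) (T j) = m)
    (J : Finset (Fin (d + 1))) (α : Fin (d + 1) → ℝ) (j : Fin (d + 1)) (hj : j ∈ J) :
    B (∑ i ∈ J, α i • T i) (T j) = m * ∑ i ∈ J, α i + (1 - m) * α j := by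
  have h1 : ∀ i, B (T i) (T j) = m + if i = j then 1 - m else 0 := by
    intro i
    by_cases h : i = j
    · subst h; rw [if_pos rfl, hTT]; ring
    · rw [if_neg h, hTm i j h, add_zero]
  simp only [map_sum, map_smul, LinearMap.sum_apply, LinearMap.smul_apply, smul_eq_mul, h1,
    mul_add, Finset.sum_add_distrib]
  rw [← Finset.sum_mul]
  have h2 : ∑ i ∈ J, α i * (if i = j then 1 - m else 0) = (1 - m) * α j := by
    rw [Finset.sum_eq_single j]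
    · rw [if_pos rfl]; ring
    · intro b _ hb; rw [if_neg hb, mul_zero]
    · intro h; exact absurd hj h
  rw [h2]; ring

theorem B_self_regular (B : V →ₗ[ℝ] V →ₗ[ℝ] ℝ) {d : ℕ} (T : Fin (d + 1) → V) (m : ℝ)
    (hTT : ∀ i, B (T i) (T i) = 1) (hTm : ∀ i j, i ≠ j → B (T i) (T j) = m)
    (J : Finset (Fin (d + 1))) (α : Fin (d + 1) → ℝ) :
    B (∑ i ∈ J, α i • T i) (∑ i ∈ J, α i • T i) =
      m * (∑ i ∈ J, α i) ^ 2 + (1 - m) * ∑ i ∈ J, α i ^ 2 := by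
  have h : B (∑ i ∈ J, α i • T i) (∑ i ∈ J, α i • T i) =
      ∑ j ∈ J, α j * B (∑ i ∈ J, α i • T i) (T j) := by
    rw [map_sum (B (∑ i ∈ J, α i • T i))]
    simp only [map_smul, smul_eq_mul]
  rw [h]
  have h2 : ∀ j ∈ J, α j * B (∑ i ∈ J, α i • T i) (T j) =
      m * (∑ i ∈ J, α i) * α j + (1 - m) * α j ^ 2 := by
    intro j hj
    rw [B_sum_regular B T m hTT hTm J α j hj]; ring
  rw [Finset.sum_congr rfl h2, Finset.sum_add_distrib, ← Finset.mul_sum, ← Finset.mul_sum]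
  ring

/-- The edge parameter of a regular simplex inscribed in a ball. -/
theorem reg_m (B : V →ₗ[ℝ] V →ₗ[ℝ] ℝ) {d : ℕ}
    (T : Fin (d + 1) → V) (c : V) (C m : ℝ) (hC : 0 < C)
    (hTT : ∀ i, B (T i) (T i) = 1) (hTm : ∀ i j, i ≠ j → B (T i) (T j) = m)
    (hcT : ∀ i, B c (T i) = C) (hcc : B c c = 1)
    (hnd : ∀ w, (∀ i, B w (T i) = 0) → w = 0) : 1 + d * m = (d + 1) * C ^ 2 := by
  set σ := ∑ i ∈ univ, (1 : ℝ) • T i with hσ
  have hσT : ∀ j, B σ (T j) = 1 + d * m := by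
    intro j
    rw [hσ, B_sum_regular B T m hTT hTm univ (fun _ => 1) j (Finset.mem_univ j)]
    simp
    ring
  have hcσ : B c σ = (d + 1) * C := by
    rw [hσ, map_sum]
    simp [hcT]
  by_cases h0 : 1 + d * m = 0
  · have : σ = 0 := hnd σ fun i => by rw [hσT, h0]
    rw [this, map_zero] at hcσ
    have : 0 < ((d : ℝ) + 1) * C := by positivity
    linarith
  · have h1 : c - (C / (1 + d * m)) • σ = 0 := by
      apply hnd
      intro i
      simp only [map_sub, map_smul, LinearMap.sub_apply, LinearMap.smul_apply, smul_eq_mul, hcT,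
        hσT]
      field_simp
      ring
    have h2 : c = (C / (1 + d * m)) • σ := sub_eq_zero.1 h1
    have h3 : B c c = (C / (1 + d * m)) * B c σ := by
      conv_lhs => arg 2; rw [h2]
      rw [map_smul, smul_eq_mul]
    rw [hcc, hcσ] at h3
    field_simp at h3
    linarith

theorem tt_eq {d s : ℕ} (hd : 0 < d) (hs : 0 < s) {C m : ℝ} (hC : 0 < C)
    (hm : 1 + d * m = (d + 1) * C ^ 2) :
    C ^ 2 * tt ((d + 1 : ℕ) : ℝ) s C = (1 - m) / s + m := by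
  have hd' : (0 : ℝ) < d := by exact_mod_cast hd
  have hs' : (0 : ℝ) < s := by exact_mod_cast hs
  have h1 : C ^ 2 * tt ((d + 1 : ℕ) : ℝ) s C = C ^ 2 + aa ((d + 1 : ℕ) : ℝ) s * (1 - C ^ 2) := by
    rw [tt]; field_simp
  rw [h1]
  have h2 : C ^ 2 = (1 + d * m) / (d + 1) := by
    rw [eq_div_iff (by positivity)]; linarith
  rw [h2, aa]
  push_cast
  have : (d : ℝ) + 1 - 1 = d := by ring
  rw [this]
  field_simp
  ring

/-- Sphere: points of a face of the regular simplex are far from the centre. -/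
theorem reg_face_sph (B : V →ₗ[ℝ] V →ₗ[ℝ] ℝ) {d s : ℕ} (hd : 0 < d) (hs : 1 ≤ s)
    (hsd : s ≤ d + 1) (T : Fin (d + 1) → V) (c : V) (C m : ℝ) (hC : 0 < C)
    (hTT : ∀ i, B (T i) (T i) = 1) (hTm : ∀ i j, i ≠ j → B (T i) (T j) = m)
    (hcT : ∀ i, B c (T i) = C) (hm : 1 + d * m = (d + 1) * C ^ 2) (hm1 : m ≤ 1)
    (J : Finset (Fin (d + 1))) (hJ : J.card = s) (α : Fin (d + 1) → ℝ)
    (hz : B (∑ i ∈ J, α i • T i) (∑ i ∈ J, α i • T i) = 1) :
    B c (∑ i ∈ J, α i • T i) ≤ 1 / √(tt ((d + 1 : ℕ) : ℝ) s C) := by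
  rw [B_self_regular B T m hTT hTm] at hz
  have hcz : B c (∑ i ∈ J, α i • T i) = C * ∑ i ∈ J, α i := by
    rw [map_sum, Finset.mul_sum]
    simp only [map_smul, smul_eq_mul, hcT]
    exact Finset.sum_congr rfl fun i _ => mul_comm _ _
  rw [hcz]
  have hCS : (∑ i ∈ J, α i) ^ 2 ≤ s * ∑ i ∈ J, α i ^ 2 := by
    rw [← hJ]; exact sq_sum_le_card_mul_sum_sq
  have hs' : (0 : ℝ) < s := by exact_mod_cast hs
  have htt : 0 < tt ((d + 1 : ℕ) : ℝ) s C := tt_pos hs hsd (by omega) hC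
  have key : (C * ∑ i ∈ J, α i) ^ 2 * tt ((d + 1 : ℕ) : ℝ) s C ≤ 1 := by
    have h1 : (C * ∑ i ∈ J, α i) ^ 2 * tt ((d + 1 : ℕ) : ℝ) s C =
        (∑ i ∈ J, α i) ^ 2 * (C ^ 2 * tt ((d + 1 : ℕ) : ℝ) s C) := by ring
    rw [h1, tt_eq hd (by omega) hC hm]
    have h2 : (∑ i ∈ J, α i) ^ 2 / s ≤ ∑ i ∈ J, α i ^ 2 := by
      rw [div_le_iff₀ hs']; linarith
    have h3 : (1 - m) * ((∑ i ∈ J, α i) ^ 2 / s) ≤ (1 - m) * ∑ i ∈ J, α i ^ 2 :=
      mul_le_mul_of_nonneg_left h2 (by linarith)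
    calc (∑ i ∈ J, α i) ^ 2 * ((1 - m) / s + m) =
        m * (∑ i ∈ J, α i) ^ 2 + (1 - m) * ((∑ i ∈ J, α i) ^ 2 / s) := by ring
      _ ≤ _ := by linarith
  rw [le_div_iff₀ (Real.sqrt_pos.2 htt)]
  apply le_of_sq_le_sq _ (by norm_num)
  rw [mul_pow, Real.sq_sqrt htt.le, one_pow]
  exact key

/-- Hyperbolic space: points of a face of the regular simplex are far from the centre. -/
theorem reg_face_hyp (B : V →ₗ[ℝ] V →ₗ[ℝ] ℝ) {d s : ℕ} (hd : 0 < d) (hs : 1 ≤ s)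
    (hsd : s ≤ d + 1) (T : Fin (d + 1) → V) (c : V) (C m : ℝ) (hC : 0 < C)
    (hTT : ∀ i, B (T i) (T i) = 1) (hTm : ∀ i j, i ≠ j → B (T i) (T j) = m)
    (hcT : ∀ i, B c (T i) = C) (hm : 1 + d * m = (d + 1) * C ^ 2) (hm1 : 1 ≤ m)
    (J : Finset (Fin (d + 1))) (hJ : J.card = s) (α : Fin (d + 1) → ℝ) (hα : ∀ i, 0 ≤ α i)
    (hz : B (∑ i ∈ J, α i • T i) (∑ i ∈ J, α i • T i) = 1) :
    1 / √(tt ((d + 1 : ℕ) : ℝ) s C) ≤ B c (∑ i ∈ J, α i • T i) := by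
  rw [B_self_regular B T m hTT hTm] at hz
  have hcz : B c (∑ i ∈ J, α i • T i) = C * ∑ i ∈ J, α i := by
    rw [map_sum, Finset.mul_sum]
    simp only [map_smul, smul_eq_mul, hcT]
    exact Finset.sum_congr rfl fun i _ => mul_comm _ _
  rw [hcz]
  have hCS : (∑ i ∈ J, α i) ^ 2 ≤ s * ∑ i ∈ J, α i ^ 2 := by
    rw [← hJ]; exact sq_sum_le_card_mul_sum_sq
  have hs' : (0 : ℝ) < s := by exact_mod_cast hs
  have htt : 0 < tt ((d + 1 : ℕ) : ℝ) s C := tt_pos hs hsd (by omega) hC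
  have hA : 0 ≤ ∑ i ∈ J, α i := Finset.sum_nonneg fun i _ => hα i
  have key : 1 ≤ (C * ∑ i ∈ J, α i) ^ 2 * tt ((d + 1 : ℕ) : ℝ) s C := by
    have h1 : (C * ∑ i ∈ J, α i) ^ 2 * tt ((d + 1 : ℕ) : ℝ) s C =
        (∑ i ∈ J, α i) ^ 2 * (C ^ 2 * tt ((d + 1 : ℕ) : ℝ) s C) := by ring
    rw [h1, tt_eq hd (by omega) hC hm]
    have h2 : (∑ i ∈ J, α i) ^ 2 / s ≤ ∑ i ∈ J, α i ^ 2 := by
      rw [div_le_iff₀ hs']; linarith
    have h3 : (m - 1) * ((∑ i ∈ J, α i) ^ 2 / s) ≤ (m - 1) * ∑ i ∈ J, α i ^ 2 :=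
      mul_le_mul_of_nonneg_left h2 (by linarith)
    calc (1 : ℝ) ≤ m * (∑ i ∈ J, α i) ^ 2 - (m - 1) * ((∑ i ∈ J, α i) ^ 2 / s) := by linarith
      _ = (∑ i ∈ J, α i) ^ 2 * ((1 - m) / s + m) := by ring
  rw [div_le_iff₀ (Real.sqrt_pos.2 htt)]
  apply le_of_sq_le_sq _ (by positivity)
  rw [mul_pow, Real.sq_sqrt htt.le, one_pow]
  exact key

/-- The normalised barycentre of a face of the regular simplex. -/
theorem reg_bary (B : V →ₗ[ℝ] V →ₗ[ℝ] ℝ) {d s : ℕ} (hd : 0 < d) (hs : 1 ≤ s)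
    (hsd : s ≤ d + 1) (T : Fin (d + 1) → V) (c : V) (C m : ℝ) (hC : 0 < C)
    (hTT : ∀ i, B (T i) (T i) = 1) (hTm : ∀ i j, i ≠ j → B (T i) (T j) = m)
    (hcT : ∀ i, B c (T i) = C) (hm : 1 + d * m = (d + 1) * C ^ 2)
    (J : Finset (Fin (d + 1))) (hJ : J.card = s) :
    ∃ b : ℝ, 0 < b ∧ B (∑ i ∈ J, b • T i) (∑ i ∈ J, b • T i) = 1 ∧
      B c (∑ i ∈ J, b • T i) = 1 / √(tt ((d + 1 : ℕ) : ℝ) s C) := by
  have hs' : (0 : ℝ) < s := by exact_mod_cast hs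
  have htt : 0 < tt ((d + 1 : ℕ) : ℝ) s C := tt_pos hs hsd (by omega) hC
  have hq : 0 < √(tt ((d + 1 : ℕ) : ℝ) s C) := Real.sqrt_pos.2 htt
  have hq2 : √(tt ((d + 1 : ℕ) : ℝ) s C) ^ 2 = tt ((d + 1 : ℕ) : ℝ) s C := Real.sq_sqrt htt.le
  have hte := tt_eq hd (by omega : 0 < s) hC hm
  refine ⟨1 / (s * C * √(tt ((d + 1 : ℕ) : ℝ) s C)), by positivity, ?_, ?_⟩
  · rw [B_self_regular B T m hTT hTm, Finset.sum_const, Finset.sum_const, hJ, nsmul_eq_mul,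
      nsmul_eq_mul]
    have h1 : ∀ b : ℝ, m * ((s : ℝ) * b) ^ 2 + (1 - m) * (s * b ^ 2) =
        (s * b) ^ 2 * ((1 - m) / s + m) := by
      intro b; field_simp; ring
    rw [h1, ← hte]
    have h2 : ((s : ℝ) * (1 / (s * C * √(tt ((d + 1 : ℕ) : ℝ) s C)))) ^ 2 =
        1 / (C ^ 2 * √(tt ((d + 1 : ℕ) : ℝ) s C) ^ 2) := by
      field_simp
    rw [h2, hq2]
    field_simp
  · rw [map_sum]
    simp only [map_smul, smul_eq_mul, hcT]
    rw [Finset.sum_const, hJ, nsmul_eq_mul]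
    field_simp

/-- A family with the Gram matrix of a regular simplex is linearly independent. -/
theorem reg_linearIndependent (B : V →ₗ[ℝ] V →ₗ[ℝ] ℝ) {d : ℕ} (T : Fin (d + 1) → V) (m : ℝ)
    (hTT : ∀ i, B (T i) (T i) = 1) (hTm : ∀ i j, i ≠ j → B (T i) (T j) = m)
    (hm1 : m ≠ 1) (hm2 : 1 + d * m ≠ 0) : LinearIndependent ℝ T := by
  rw [Fintype.linearIndependent_iff]
  intro g hg
  have h1 : ∀ j, m * ∑ i, g i + (1 - m) * g j = 0 := by
    intro j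
    rw [← B_sum_regular B T m hTT hTm univ g j (Finset.mem_univ j), hg]
    simp
  have h2 : ∑ j, (m * ∑ i, g i + (1 - m) * g j) = 0 := Finset.sum_eq_zero fun j _ => h1 j
  have e1 : ∑ j, (1 - m) * g j = (1 - m) * ∑ j, g j := (Finset.mul_sum _ _ _).symm
  rw [Finset.sum_add_distrib, Finset.sum_const, Finset.card_univ,
    Fintype.card_fin, nsmul_eq_mul, e1] at h2
  push_cast at h2
  have h3 : (1 + d * m) * ∑ i, g i = 0 := by linarith
  have h4 : ∑ i, g i = 0 := by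
    rcases mul_eq_zero.1 h3 with h | h
    · exact absurd h hm2
    · exact h
  intro j
  have h5 := h1 j
  rw [h4, mul_zero, zero_add] at h5
  rcases mul_eq_zero.1 h5 with h | h
  · exact absurd (by linarith) hm1
  · exact h

/-- Regular simplex directions in a `d`-dimensional Euclidean space. -/
theorem exists_regular {F : Type*} [NormedAddCommGroup F] [InnerProductSpace ℝ F]
    [FiniteDimensional ℝ F] {d : ℕ} (hd : 0 < d) (hF : Module.finrank ℝ F = d) :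
    ∃ P : Fin (d + 1) → F, (∀ i, inner ℝ (P i) (P i) = (1 : ℝ)) ∧
      ∀ i j, i ≠ j → inner ℝ (P i) (P j) = -(1 / (d : ℝ)) := by
  have hd' : (0 : ℝ) < d := by exact_mod_cast hd
  have hfact : Fact (Module.finrank ℝ (EuclideanSpace ℝ (Fin (d + 1))) = d + 1) := ⟨by simp⟩
  obtain ⟨e, he⟩ : ∃ e : Fin (d + 1) → EuclideanSpace ℝ (Fin (d + 1)),
      ∀ i, e i = EuclideanSpace.single i (1 : ℝ) := ⟨_, fun i => rfl⟩
  obtain ⟨u, hu⟩ : ∃ u : EuclideanSpace ℝ (Fin (d + 1)), u = ∑ i, e i := ⟨_, rfl⟩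
  have hee : ∀ i j, inner ℝ (e i) (e j) = if i = j then (1 : ℝ) else 0 := by
    intro i j
    rw [he, he, EuclideanSpace.inner_single_left]
    simp
  have heu : ∀ i, inner ℝ (e i) u = (1 : ℝ) := by
    intro i
    rw [hu, inner_sum]
    simp only [hee]
    simp
  have huu : inner ℝ u u = ((d : ℝ) + 1) := by
    have : inner ℝ u u = ∑ i, inner ℝ (e i) u := by
      conv_lhs => arg 2; rw [hu]
      rw [sum_inner]
    rw [this]
    simp [heu]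
  have hu0 : u ≠ 0 := by
    intro h
    rw [h, inner_zero_left] at huu
    linarith
  obtain ⟨P', hP'⟩ : ∃ P' : Fin (d + 1) → EuclideanSpace ℝ (Fin (d + 1)),
      ∀ i, P' i = √((d + 1) / d) • (e i - ((d : ℝ) + 1)⁻¹ • u) := ⟨_, fun i => rfl⟩
  have hue : ∀ i, inner ℝ u (e i) = (1 : ℝ) := fun i => by rw [real_inner_comm, heu]
  have h2 : (√(((d : ℝ) + 1) / d)) ^ 2 = ((d : ℝ) + 1) / d := Real.sq_sqrt (by positivity)
  have hPP : ∀ i j, inner ℝ (P' i) (P' j) = if i = j then (1 : ℝ) else -(1 / (d : ℝ)) := by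
    intro i j
    simp only [hP', real_inner_smul_left, real_inner_smul_right, inner_sub_left, inner_sub_right,
      heu, huu, hee, hue]
    have h1 : ∀ y w : ℝ, √(((d : ℝ) + 1) / d) * (√((d + 1) / d) * y -
        ((d : ℝ) + 1)⁻¹ * (√((d + 1) / d) * w)) =
        (√(((d : ℝ) + 1) / d)) ^ 2 * (y - ((d : ℝ) + 1)⁻¹ * w) := by intro y w; ring
    rw [h1, h2]
    split_ifs with h
    · field_simp; ring
    · field_simp; ring
  have hPu : ∀ i, P' i ∈ (ℝ ∙ u)ᗮ := by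
    intro i
    rw [Submodule.mem_orthogonal_singleton_iff_inner_left, hP']
    simp only [real_inner_smul_left, inner_sub_left, heu, huu]
    field_simp
    simp
  have hfin : Module.finrank ℝ (ℝ ∙ u)ᗮ = d := Submodule.finrank_orthogonal_span_singleton hu0
  let b1 := (stdOrthonormalBasis ℝ (ℝ ∙ u)ᗮ).reindex (finCongr hfin)
  let b2 := (stdOrthonormalBasis ℝ F).reindex (finCongr hF)
  let L : (ℝ ∙ u)ᗮ ≃ₗᵢ[ℝ] F := b1.repr.trans b2.repr.symm
  refine ⟨fun i => L ⟨P' i, hPu i⟩, fun i => ?_, fun i j hij => ?_⟩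
  · rw [L.inner_map_map, Submodule.coe_inner, hPP, if_pos rfl]
  · rw [L.inner_map_map, Submodule.coe_inner, hPP, if_neg hij]

end Pool.Agent.H43.Skel
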