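import Pool.Agent.H43.Skel3

set_option autoImplicit false

namespace Pool.Agent.H43.Skel

open Finset

/-- The Lorentz form on `ℝ × ℝ^d` (positive on the first coordinate). -/
noncomputable def lorB (d : ℕ) : (ℝ × EuclideanSpace ℝ (Fin d)) →ₗ[ℝ]
    (ℝ × EuclideanSpace ℝ (Fin d)) →ₗ[ℝ] ℝ :=
  LinearMap.mk₂ ℝ (fun u v => u.1 * v.1 - inner ℝ u.2 v.2)
    (by intro a b c; simp only [Prod.fst_add, Prod.snd_add, inner_add_left]; ring)
    (by intro r a b; simp only [Prod.smul_fst, Prod.smul_snd, real_inner_smul_left, smul_eq_mul]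
        ring)
    (by intro a b c; simp only [Prod.fst_add, Prod.snd_add, inner_add_right]; ring)
    (by intro r a b; simp only [Prod.smul_fst, Prod.smul_snd, real_inner_smul_right, smul_eq_mul]
        ring)

variable {d : ℕ}

theorem lorB_apply (u v : ℝ × EuclideanSpace ℝ (Fin d)) :
    lorB d u v = u.1 * v.1 - inner ℝ u.2 v.2 := rfl

theorem lorB_symm (u v : ℝ × EuclideanSpace ℝ (Fin d)) : lorB d u v = lorB d v u := by
  rw [lorB_apply, lorB_apply, real_inner_comm, mul_comm]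

theorem lorB_ge_one {u v : ℝ × EuclideanSpace ℝ (Fin d)} (hu : 0 < u.1) (huu : lorB d u u = 1)
    (hv : 0 < v.1) (hvv : lorB d v v = 1) : 1 ≤ lorB d u v := by
  rw [lorB_apply, real_inner_self_eq_norm_sq] at huu hvv
  rw [lorB_apply]
  have h1 : inner ℝ u.2 v.2 ≤ ‖u.2‖ * ‖v.2‖ := real_inner_le_norm _ _
  have h2 : (1 + ‖u.2‖ * ‖v.2‖) ^ 2 ≤ (u.1 * v.1) ^ 2 := by
    have e1 : u.1 ^ 2 = 1 + ‖u.2‖ ^ 2 := by linarith [sq u.1]
    have e2 : v.1 ^ 2 = 1 + ‖v.2‖ ^ 2 := by linarith [sq v.1]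
    rw [mul_pow, e1, e2]
    nlinarith [sq_nonneg (‖u.2‖ - ‖v.2‖)]
  have h3 : 1 + ‖u.2‖ * ‖v.2‖ ≤ u.1 * v.1 := by
    apply le_of_sq_le_sq h2 (by positivity)
  linarith

theorem lorB_fst_pos {c z : ℝ × EuclideanSpace ℝ (Fin d)} (hc : 0 < c.1) (hcc : lorB d c c = 1)
    (hzz : lorB d z z = 1) (h : 0 < lorB d c z) : 0 < z.1 := by
  by_contra hcon
  push Not at hcon
  rw [lorB_apply] at h
  rw [lorB_apply, real_inner_self_eq_norm_sq] at hcc hzz
  have h1 : -(‖c.2‖ * ‖z.2‖) ≤ inner ℝ c.2 z.2 := by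
    have := abs_real_inner_le_norm c.2 z.2
    rw [abs_le] at this
    exact this.1
  have h2 : ‖c.2‖ ≤ c.1 := by
    apply le_of_sq_le_sq _ hc.le
    nlinarith
  have h3 : ‖z.2‖ ≤ -z.1 := by
    apply le_of_sq_le_sq _ (by linarith)
    nlinarith
  have h4 : ‖c.2‖ * ‖z.2‖ ≤ c.1 * (-z.1) :=
    mul_le_mul h2 h3 (norm_nonneg _) hc.le
  linarith

theorem finrank_mink : Module.finrank ℝ (ℝ × EuclideanSpace ℝ (Fin d)) = d + 1 := by
  rw [Module.finrank_prod, Module.finrank_self, finrank_euclideanSpace_fin]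
  ring

theorem lorB_nd {T : Fin (d + 1) → ℝ × EuclideanSpace ℝ (Fin d)} (hT : LinearIndependent ℝ T)
    (w : ℝ × EuclideanSpace ℝ (Fin d)) (hw : ∀ i, lorB d w (T i) = 0) : w = 0 := by
  have hspan : Submodule.span ℝ (Set.range T) = ⊤ :=
    hT.span_eq_top_of_card_eq_finrank' (by rw [finrank_mink, Fintype.card_fin])
  have h0 : lorB d w = 0 := by
    apply LinearMap.ext_on_range (v := T) hspan
    intro i
    rw [hw i, LinearMap.zero_apply]
  have h1 : lorB d w (w.1, -w.2) = 0 := by rw [h0, LinearMap.zero_apply]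
  rw [lorB_apply] at h1
  simp only [inner_neg_right, real_inner_self_eq_norm_sq] at h1
  have h2 : w.1 = 0 := by nlinarith [sq_nonneg ‖w.2‖, mul_self_nonneg w.1]
  have h3 : w.2 = 0 := by
    rw [← norm_eq_zero]
    nlinarith [sq_nonneg ‖w.2‖, mul_self_nonneg w.1]
  exact Prod.ext h2 h3

theorem lorB_repr {v : Fin (d + 1) → ℝ × EuclideanSpace ℝ (Fin d)} (hv : LinearIndependent ℝ v)
    (r : Fin (d + 1) → ℝ) : ∃ o, ∀ i, lorB d (v i) o = r i := by
  let b := basisOfLinearIndependentOfCardEqFinrank' v hv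
    (by rw [finrank_mink, Fintype.card_fin])
  let f : (ℝ × EuclideanSpace ℝ (Fin d)) →ₗ[ℝ] ℝ := b.constr ℝ r
  have hf : ∀ i, f (v i) = r i := by
    intro i
    have h := b.constr_basis ℝ r i
    rwa [show b i = v i by simp [b]] at h
  let f2 : EuclideanSpace ℝ (Fin d) →ₗ[ℝ] ℝ := f ∘ₗ LinearMap.inr ℝ ℝ _
  let g : EuclideanSpace ℝ (Fin d) :=
    (InnerProductSpace.toDual ℝ (EuclideanSpace ℝ (Fin d))).symm (LinearMap.toContinuousLinearMap f2)
  have hg : ∀ y, inner ℝ y g = f2 y := by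
    intro y
    rw [real_inner_comm]
    simp only [g, InnerProductSpace.toDual_symm_apply]
    rfl
  refine ⟨(f (1, 0), -g), fun i => ?_⟩
  rw [lorB_apply, ← hf i]
  simp only [inner_neg_right, hg]
  have h1 : v i = (v i).1 • ((1 : ℝ), (0 : EuclideanSpace ℝ (Fin d))) + ((0 : ℝ), (v i).2) := by
    ext <;> simp
  conv_rhs => rw [h1]
  rw [map_add, map_smul]
  simp [f2]

/-- A Lorentz isometry moving `(1, 0)` to a given point of the hyperboloid. -/
theorem exists_boost {c : ℝ × EuclideanSpace ℝ (Fin d)} (hcc : lorB d c c = 1) :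
    ∃ L : (ℝ × EuclideanSpace ℝ (Fin d)) → (ℝ × EuclideanSpace ℝ (Fin d)),
      (∀ u w, lorB d (L u) (L w) = lorB d u w) ∧ L (1, 0) = c := by
  by_cases h : c = (1, 0)
  · exact ⟨id, fun u w => rfl, h.symm⟩
  let e : ℝ × EuclideanSpace ℝ (Fin d) := (1, 0)
  have hee : lorB d e e = 1 := by rw [lorB_apply]; simp [e]
  have hec : lorB d e c = c.1 := by rw [lorB_apply]; simp [e]
  have hc1 : c.1 ≠ 1 := by
    intro h1
    apply h
    rw [lorB_apply, real_inner_self_eq_norm_sq, h1] at hcc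
    have : ‖c.2‖ ^ 2 = 0 := by linarith
    have h2 : c.2 = 0 := by simpa using this
    exact Prod.ext h1 h2
  let w : ℝ × EuclideanSpace ℝ (Fin d) := c - e
  have hww : lorB d w w = 2 - 2 * c.1 := by
    simp only [w, map_sub, LinearMap.sub_apply, hcc, hee, hec, lorB_symm c e]
    ring
  have hw0 : (2 : ℝ) - 2 * c.1 ≠ 0 := by
    intro h1; apply hc1; linarith
  have hew : lorB d e w = c.1 - 1 := by
    simp only [w, map_sub, hec, hee]
  refine ⟨fun u => u - (2 * lorB d u w / (2 - 2 * c.1)) • w, fun u u' => ?_, ?_⟩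
  · simp only [map_sub, LinearMap.sub_apply, map_smul, LinearMap.smul_apply, smul_eq_mul, hww,
      lorB_symm w u']
    field_simp
    ring
  · change e - (2 * lorB d e w / (2 - 2 * c.1)) • w = c
    rw [hew]
    have h1 : 2 * (c.1 - 1) / (2 - 2 * c.1) = -1 := by
      field_simp
      ring
    rw [h1]
    simp only [w]
    rw [neg_smul, one_smul]; abel

theorem hyp_exists_regular (hd : 0 < d) {c : ℝ × EuclideanSpace ℝ (Fin d)} (hc : 0 < c.1)
    (hcc : lorB d c c = 1) {C : ℝ} (hC : 1 < C) :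
    ∃ T : Fin (d + 1) → ℝ × EuclideanSpace ℝ (Fin d), (∀ i, 0 < (T i).1) ∧
      (∀ i, lorB d (T i) (T i) = 1) ∧ (∀ i, lorB d c (T i) = C) ∧
      ∀ i j, i ≠ j → lorB d (T i) (T j) = ((d + 1) * C ^ 2 - 1) / d := by
  obtain ⟨L, hL, hLc⟩ := exists_boost hcc
  obtain ⟨P, hP1, hP2⟩ := exists_regular (F := EuclideanSpace ℝ (Fin d)) hd
    finrank_euclideanSpace_fin
  have hd' : (0 : ℝ) < d := by exact_mod_cast hd
  have hs : √(C ^ 2 - 1) ^ 2 = C ^ 2 - 1 := Real.sq_sqrt (by nlinarith)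
  let T' : Fin (d + 1) → ℝ × EuclideanSpace ℝ (Fin d) := fun i => (C, √(C ^ 2 - 1) • P i)
  have h1 : ∀ i, lorB d (L (T' i)) (L (T' i)) = 1 := by
    intro i
    rw [hL, lorB_apply]
    simp only [T', real_inner_smul_left, real_inner_smul_right, hP1]
    nlinarith
  have h2 : ∀ i, lorB d c (L (T' i)) = C := by
    intro i
    rw [← hLc, hL, lorB_apply]
    simp [T']
  refine ⟨fun i => L (T' i), fun i => ?_, h1, h2, fun i j hij => ?_⟩
  · apply lorB_fst_pos hc hcc (h1 i)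
    rw [h2 i]; linarith
  · rw [hL, lorB_apply]
    simp only [T', real_inner_smul_left, real_inner_smul_right, hP2 i j hij]
    rw [eq_div_iff hd'.ne']
    have : √(C ^ 2 - 1) * (√(C ^ 2 - 1) * -(1 / (d : ℝ))) = -(C ^ 2 - 1) / d := by
      calc √(C ^ 2 - 1) * (√(C ^ 2 - 1) * -(1 / (d : ℝ))) = -(√(C ^ 2 - 1) ^ 2) / d := by ring
        _ = _ := by rw [hs]
    rw [this]
    field_simp
    ring

/-- Existence of a regular simplex inscribed in a spherical ball. -/
theorem sph_exists_regular {E : Type*} [NormedAddCommGroup E] [InnerProductSpace ℝ E]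
    [FiniteDimensional ℝ E] (hd : 0 < d) (hE : Module.finrank ℝ E = d + 1) {c : E}
    (hcc : inner ℝ c c = (1 : ℝ)) {C : ℝ} (hC0 : 0 < C) (hC : C < 1) :
    ∃ T : Fin (d + 1) → E, (∀ i, inner ℝ (T i) (T i) = (1 : ℝ)) ∧ (∀ i, inner ℝ c (T i) = C) ∧
      ∀ i j, i ≠ j → inner ℝ (T i) (T j) = ((d + 1) * C ^ 2 - 1) / (d : ℝ) := by
  have hfact : Fact (Module.finrank ℝ E = d + 1) := ⟨hE⟩
  have hc0 : c ≠ 0 := by
    intro h; rw [h, inner_zero_left] at hcc; norm_num at hcc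
  obtain ⟨P, hP1, hP2⟩ := exists_regular (F := (ℝ ∙ c)ᗮ) hd
    (Submodule.finrank_orthogonal_span_singleton hc0)
  have hd' : (0 : ℝ) < d := by exact_mod_cast hd
  have hs : √(1 - C ^ 2) ^ 2 = 1 - C ^ 2 := Real.sq_sqrt (by nlinarith)
  have hcP : ∀ i, inner ℝ c (P i : E) = (0 : ℝ) := fun i =>
    Submodule.mem_orthogonal_singleton_iff_inner_right.1 (P i).2
  have hPc : ∀ i, inner ℝ (P i : E) c = (0 : ℝ) := fun i => by rw [real_inner_comm, hcP]
  have hPi : ∀ i, inner ℝ (P i : E) (P i : E) = (1 : ℝ) := fun i => by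
    rw [← Submodule.coe_inner]; exact hP1 i
  have hPij : ∀ i j, i ≠ j → inner ℝ (P i : E) (P j : E) = -(1 / (d : ℝ)) := fun i j hij => by
    rw [← Submodule.coe_inner]; exact hP2 i j hij
  refine ⟨fun i => C • c + √(1 - C ^ 2) • (P i : E), fun i => ?_, fun i => ?_, fun i j hij => ?_⟩
  · simp only [inner_add_left, inner_add_right, real_inner_smul_left, real_inner_smul_right, hcP,
      hPc, hPi, hcc]
    nlinarith
  · simp only [inner_add_right, real_inner_smul_right, hcP, hcc]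
    ring
  · simp only [inner_add_left, inner_add_right, real_inner_smul_left, real_inner_smul_right, hcP,
      hPc, hPij i j hij, hcc]
    have : √(1 - C ^ 2) * (√(1 - C ^ 2) * -(1 / (d : ℝ))) = -(1 - C ^ 2) / d := by
      calc √(1 - C ^ 2) * (√(1 - C ^ 2) * -(1 / (d : ℝ))) = -(√(1 - C ^ 2) ^ 2) / d := by ring
        _ = _ := by rw [hs]
    rw [this]
    field_simp
    ring

end Pool.Agent.H43.Skel
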