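import Pool.Agent.H43.SplitDefs
import Pool.Agent.H43.Omega1

set_option autoImplicit false

namespace Pool.Agent.H43.Split

open Set

/-- The sequence version of `Split(Λ, Λ)`. -/
def SplitSeq (Z : Type) [TopologicalSpace Z] : Prop :=
  ∀ W : ℕ → Set Z, (∀ j, IsOpen (W j)) → (∀ z, {j | z ∈ W j}.Infinite) →
    ∃ B : Set ℕ, ∀ z, {j | j ∈ B ∧ z ∈ W j}.Infinite ∧ {j | j ∉ B ∧ z ∈ W j}.Infinite

theorem exists_block {c : ℕ → ℕ} (hc : StrictMono c) {j : ℕ} (hj : c 0 ≤ j) :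
    ∃ k, c k ≤ j ∧ j < c (k + 1) := by
  have h1 : ∀ n, n ≤ c n := fun n => hc.id_le n
  have hex : ∃ n, j < c (n + 1) := ⟨j, by
    have := h1 (j + 1)
    omega⟩
  classical
  refine ⟨Nat.find hex, ?_, Nat.find_spec hex⟩
  rcases Nat.eq_zero_or_pos (Nat.find hex) with h | h
  · rw [h]; exact hj
  · have := Nat.find_min hex (Nat.sub_lt h one_pos)
    have h2 : Nat.find hex - 1 + 1 = Nat.find hex := by omega
    rw [h2] at this
    exact not_lt.1 this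

theorem block_unique {c : ℕ → ℕ} (hc : StrictMono c) {j k l : ℕ} (h1 : c k ≤ j)
    (h2 : j < c (k + 1)) (h3 : c l ≤ j) (h4 : j < c (l + 1)) : k = l := by
  have h5 : k < l + 1 := hc.lt_iff_lt.1 (h1.trans_lt h4)
  have h6 : l < k + 1 := hc.lt_iff_lt.1 (h3.trans_lt h2)
  omega

/-- A splitting of blocks gives a splitting of indices. -/
theorem block_split {c : ℕ → ℕ} (hc : StrictMono c) {S T B' : Set ℕ}
    (hT : ∀ k ∈ T, ∃ j ∈ S, c k ≤ j ∧ j < c (k + 1)) (h1 : {k | k ∈ B' ∧ k ∈ T}.Infinite)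
    (h2 : {k | k ∉ B' ∧ k ∈ T}.Infinite) :
    {j | (∃ k ∈ B', c k ≤ j ∧ j < c (k + 1)) ∧ j ∈ S}.Infinite ∧
    {j | (¬ ∃ k ∈ B', c k ≤ j ∧ j < c (k + 1)) ∧ j ∈ S}.Infinite := by
  constructor
  · rw [Set.infinite_iff_exists_gt] at h1 ⊢
    intro a
    obtain ⟨k, ⟨hk1, hk2⟩, hk3⟩ := h1 a
    obtain ⟨j, hjS, hj1, hj2⟩ := hT k hk2
    exact ⟨j, ⟨⟨k, hk1, hj1, hj2⟩, hjS⟩, hk3.trans_le ((hc.id_le k).trans hj1)⟩
  · rw [Set.infinite_iff_exists_gt] at h2 ⊢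
    intro a
    obtain ⟨k, ⟨hk1, hk2⟩, hk3⟩ := h2 a
    obtain ⟨j, hjS, hj1, hj2⟩ := hT k hk2
    refine ⟨j, ⟨?_, hjS⟩, hk3.trans_le ((hc.id_le k).trans hj1)⟩
    rintro ⟨l, hl, hl1, hl2⟩
    exact hk1 (block_unique hc hj1 hj2 hl1 hl2 ▸ hl)

/-- Countably many infinite sets of integers can be split simultaneously. -/
theorem countable_split (S : ℕ → Set ℕ) (hS : ∀ i, (S i).Infinite) :
    ∃ B : Set ℕ, ∀ i, {j | j ∈ B ∧ j ∈ S i}.Infinite ∧ {j | j ∉ B ∧ j ∈ S i}.Infinite := by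
  obtain ⟨f, hf⟩ := Pool.Agent.H43.Omega.exists_wf_seq (I := ℕ) (X := ℕ × ℕ)
    (fun n g p => p.1 ∈ S (Nat.unpair n).1 ∧ p.2 ∈ S (Nat.unpair n).1 ∧ p.1 < p.2 ∧
      ∀ j (hj : j < n), (g j hj).2 < p.1) (by
    intro n g
    have hb : ∃ M, ∀ j (hj : j < n), (g j hj).2 ≤ M := by
      have hfin : (⋃ j : Set.Iio n, {(g j.1 j.2).2}).Finite :=
        Set.finite_iUnion fun _ => Set.finite_singleton _
      obtain ⟨M, hM⟩ := hfin.bddAbove
      exact ⟨M, fun j hj => hM (Set.mem_iUnion.2 ⟨⟨j, hj⟩, rfl⟩)⟩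
    obtain ⟨M, hM⟩ := hb
    obtain ⟨p, hp, hpM⟩ := (hS (Nat.unpair n).1).exists_gt M
    obtain ⟨q, hq, hqp⟩ := (hS (Nat.unpair n).1).exists_gt p
    exact ⟨(p, q), hp, hq, hqp, fun j hj => (hM j hj).trans_lt hpM⟩)
  have hmono1 : StrictMono fun n => (f n).1 := strictMono_nat_of_lt_succ fun n => by
    have h1 := (hf n).2.2.1
    have h2 := (hf (n + 1)).2.2.2 n (Nat.lt_succ_self n)
    exact h1.trans h2
  have hmono2 : StrictMono fun n => (f n).2 := strictMono_nat_of_lt_succ fun n => by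
    have h1 := (hf (n + 1)).2.2.1
    have h2 := (hf (n + 1)).2.2.2 n (Nat.lt_succ_self n)
    exact h2.trans h1
  have hne : ∀ m n, (f m).2 ≠ (f n).1 := by
    intro m n
    rcases lt_or_ge m n with h | h
    · exact ((hf n).2.2.2 m h).ne
    · exact (((hmono1.monotone h).trans_lt (hf m).2.2.1)).ne'
  refine ⟨Set.range fun n => (f n).1, fun i => ⟨?_, ?_⟩⟩
  · rw [Set.infinite_iff_exists_gt]
    intro a
    have h1 : (f (Nat.pair i (a + 1))).1 ∈ S i := by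
      have := (hf (Nat.pair i (a + 1))).1
      rwa [Nat.unpair_pair] at this
    refine ⟨_, ⟨⟨_, rfl⟩, h1⟩, ?_⟩
    have h2 := hmono1.id_le (Nat.pair i (a + 1))
    have h3 := Nat.right_le_pair i (a + 1)
    simp only [id] at h2 ⊢
    omega
  · rw [Set.infinite_iff_exists_gt]
    intro a
    have h1 : (f (Nat.pair i (a + 1))).2 ∈ S i := by
      have := (hf (Nat.pair i (a + 1))).2.1
      rwa [Nat.unpair_pair] at this
    refine ⟨_, ⟨?_, h1⟩, ?_⟩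
    · rintro ⟨m, hm⟩
      exact hne _ _ hm.symm
    · have h2 := hmono2.id_le (Nat.pair i (a + 1))
      have h3 := Nat.right_le_pair i (a + 1)
      simp only [id] at h2 ⊢
      omega

theorem SplitSeq.of_countable {Z : Type} [TopologicalSpace Z] [Countable Z] : SplitSeq Z := by
  intro W _ hinf
  rcases isEmpty_or_nonempty Z with h | h
  · exact ⟨∅, fun z => h.elim z⟩
  · obtain ⟨e, he⟩ := exists_surjective_nat Z
    obtain ⟨B, hB⟩ := countable_split (fun i => {j | e i ∈ W j}) fun i => hinf (e i)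
    refine ⟨B, fun z => ?_⟩
    obtain ⟨i, rfl⟩ := he z
    exact hB i

/-- Infinite sets case. -/
theorem splitSeq_of_infinite {Z : Type} [TopologicalSpace Z] [T1Space Z] (h : SplitLL Z)
    (W : ℕ → Set Z) (hW : ∀ j, IsOpen (W j)) (hWinf : ∀ j, (W j).Infinite)
    (hinf : ∀ z, {j | z ∈ W j}.Infinite) :
    ∃ B : Set ℕ, ∀ z, {j | j ∈ B ∧ z ∈ W j}.Infinite ∧ {j | j ∉ B ∧ z ∈ W j}.Infinite := by
  obtain ⟨p, hp⟩ := Pool.Agent.H43.Omega.exists_wf_seq (I := ℕ) (X := Z)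
    (fun k g q => q ∈ W k ∧ ∀ l (hl : l < k), q ≠ g l hl ∧ W k \ {q} ≠ W l \ {g l hl}) (by
    intro k g
    let bad : Set Z := ⋃ l : Set.Iio k, ({g l.1 l.2} ∪ {q | q ∈ W k ∧ W k \ {q} = W l.1 \ {g l.1 l.2}})
    have hbad : bad.Finite := by
      refine Set.finite_iUnion fun l => (Set.finite_singleton _).union ?_
      apply Set.Subsingleton.finite
      rintro q ⟨hq, hq'⟩ r ⟨hr, hr'⟩
      by_contra hqr
      have : q ∈ W k \ {r} := ⟨hq, hqr⟩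
      rw [hr', ← hq'] at this
      exact this.2 rfl
    obtain ⟨q, hq, hqb⟩ := ((hWinf k).sdiff hbad).nonempty
    refine ⟨q, hq, fun l hl => ⟨fun e => hqb (Set.mem_iUnion.2 ⟨⟨l, hl⟩, Or.inl e⟩),
      fun e => hqb (Set.mem_iUnion.2 ⟨⟨l, hl⟩, Or.inr ⟨hq, e⟩⟩)⟩⟩)
  let U : ℕ → Set Z := fun k => W k \ {p k}
  have hpinj : Function.Injective p := by
    intro k l hkl
    by_contra hne
    rcases lt_or_gt_of_ne hne with h1 | h1
    · exact ((hp l).2 k h1).1 hkl.symm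
    · exact ((hp k).2 l h1).1 hkl
  have hUinj : Function.Injective U := by
    intro k l hkl
    by_contra hne
    rcases lt_or_gt_of_ne hne with h1 | h1
    · exact ((hp l).2 k h1).2 hkl.symm
    · exact ((hp k).2 l h1).2 hkl
  have hUopen : ∀ k, IsOpen (U k) := fun k => (hW k).sdiff isClosed_singleton
  have hUinf : ∀ z, {k | z ∈ U k}.Infinite := by
    intro z
    have h1 : {k | z ∈ W k} \ {k | p k = z} ⊆ {k | z ∈ U k} := fun k hk =>
      ⟨hk.1, fun e => hk.2 e.symm⟩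
    have h2 : {k | p k = z}.Finite := by
      apply Set.Subsingleton.finite
      intro k hk l hl
      exact hpinj (hk.trans hl.symm)
    exact ((hinf z).sdiff h2).mono h1
  have hlarge : IsLargeCover (Set.range U) := by
    refine ⟨⟨?_, ?_, ?_⟩, fun z => ?_⟩
    · rintro _ ⟨k, rfl⟩; exact hUopen k
    · rw [Set.eq_univ_iff_forall]
      intro z
      obtain ⟨k, hk⟩ := (hUinf z).nonempty
      exact ⟨U k, ⟨k, rfl⟩, hk⟩
    · rintro ⟨k, hk⟩
      have : p k ∈ U k := hk ▸ Set.mem_univ _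
      exact this.2 rfl
    · have : {V | V ∈ Set.range U ∧ z ∈ V} = U '' {k | z ∈ U k} := by
        ext V
        constructor
        · rintro ⟨⟨k, rfl⟩, hk⟩; exact ⟨k, hk, rfl⟩
        · rintro ⟨k, hk, rfl⟩; exact ⟨⟨k, rfl⟩, hk⟩
      rw [this]
      exact (hUinf z).image hUinj.injOn
  obtain ⟨𝒱, 𝒲, hdis, hun, ⟨𝒱', h𝒱', hl𝒱⟩, ⟨𝒲', h𝒲', hl𝒲⟩⟩ := h _ hlarge
  refine ⟨{k | U k ∈ 𝒱}, fun z => ⟨?_, ?_⟩⟩
  · by_contra hfin
    rw [Set.not_infinite] at hfin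
    apply hl𝒱.2 z
    refine (hfin.image U).subset ?_
    rintro V ⟨hV, hzV⟩
    have hV1 : V ∈ 𝒱 := h𝒱' hV
    have hV2 : V ∈ Set.range U := hun ▸ Or.inl hV1
    obtain ⟨k, rfl⟩ := hV2
    exact ⟨k, ⟨hV1, hzV.1⟩, rfl⟩
  · by_contra hfin
    rw [Set.not_infinite] at hfin
    apply hl𝒲.2 z
    refine (hfin.image U).subset ?_
    rintro V ⟨hV, hzV⟩
    have hV1 : V ∈ 𝒲 := h𝒲' hV
    have hV2 : V ∈ Set.range U := hun ▸ Or.inr hV1
    obtain ⟨k, rfl⟩ := hV2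
    exact ⟨k, ⟨fun h' => Set.disjoint_left.1 hdis h' hV1, hzV.1⟩, rfl⟩

theorem SplitLL.splitSeq {Z : Type} [TopologicalSpace Z] [T1Space Z] (h : SplitLL Z) :
    SplitSeq Z := by
  intro W hW hinf
  by_cases hJ : {j | (W j).Infinite}.Infinite
  · -- blocks
    have hj : ∀ n, ∃ j, n ≤ j ∧ (W j).Infinite := by
      intro n
      obtain ⟨j, hj, hjn⟩ := hJ.exists_gt n
      exact ⟨j, hjn.le, hj⟩
    choose e he1 he2 using hj
    let c : ℕ → ℕ := fun n => Nat.rec 0 (fun _ m => e m + 1) n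
    have hc0 : c 0 = 0 := rfl
    have hcs : ∀ n, c (n + 1) = e (c n) + 1 := fun n => rfl
    have hc : StrictMono c := strictMono_nat_of_lt_succ fun n => by
      rw [hcs]; exact Nat.lt_succ_of_le (he1 _)
    let W' : ℕ → Set Z := fun k => ⋃ j ∈ Set.Ico (c k) (c (k + 1)), W j
    obtain ⟨B', hB'⟩ := splitSeq_of_infinite h W'
      (fun k => isOpen_biUnion fun j _ => hW j)
      (fun k => (he2 (c k)).mono (Set.subset_biUnion_of_mem (u := W)
        ⟨he1 _, by rw [hcs]; exact Nat.lt_succ_self _⟩))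
      (fun z => by
        rw [Set.infinite_iff_exists_gt]
        intro a
        obtain ⟨j, hj, hja⟩ := (hinf z).exists_gt (c (a + 1))
        obtain ⟨k, hk1, hk2⟩ := exists_block hc (j := j) (by rw [hc0]; exact Nat.zero_le _)
        refine ⟨k, Set.mem_biUnion ⟨hk1, hk2⟩ hj, ?_⟩
        have : a + 1 < k + 1 := hc.lt_iff_lt.1 (hja.trans hk2)
        omega)
    refine ⟨{j | ∃ k ∈ B', c k ≤ j ∧ j < c (k + 1)}, fun z => ?_⟩
    refine block_split hc (S := {j | z ∈ W j}) (T := {k | z ∈ W' k}) ?_ (hB' z).1 (hB' z).2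
    intro k hk
    obtain ⟨j, hj, hzj⟩ := Set.mem_iUnion₂.1 hk
    exact ⟨j, hzj, hj.1, hj.2⟩
  · -- countable case
    rw [Set.not_infinite] at hJ
    have hcount : Countable Z := by
      rw [← Set.countable_univ_iff]
      have : (Set.univ : Set Z) ⊆ ⋃ j ∈ {j | (W j).Infinite}ᶜ, W j := by
        intro z _
        obtain ⟨j, hj⟩ := ((hinf z).sdiff hJ).nonempty
        exact Set.mem_biUnion hj.2 hj.1
      refine Set.Countable.mono this (Set.Countable.biUnion (Set.to_countable _) fun j hj => ?_)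
      exact (Set.not_infinite.1 hj).countable
    exact SplitSeq.of_countable W hW hinf

/-- In a second countable space the sequence version gives the version for families. -/
theorem SplitSeq.splitLL {Z : Type} [TopologicalSpace Z] [SecondCountableTopology Z]
    (h : SplitSeq Z) : SplitLL Z := by
  classical
  intro 𝒰 h𝒰
  rcases isEmpty_or_nonempty Z with hZ | hZ
  · have : 𝒰 = ∅ := by
      by_contra hne
      obtain ⟨U, hU⟩ := Set.nonempty_iff_ne_empty.2 hne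
      apply h𝒰.1.2.2
      have : (univ : Set Z) = U := Set.ext fun z => hZ.elim z
      rw [this]; exact hU
    subst this
    exact ⟨∅, ∅, disjoint_bot_left, Set.union_empty _, ⟨∅, subset_rfl, h𝒰⟩, ⟨∅, subset_rfl, h𝒰⟩⟩
  -- a countable large subfamily
  have hT : ∀ n : ℕ, ∃ T : Set (Finset (Set Z)), T.Countable ∧ (∀ s ∈ T, (s : Set (Set Z)) ⊆ 𝒰) ∧
      (∀ s ∈ T, s.card = n) ∧ ∀ z, ∃ s ∈ T, ∀ U ∈ s, z ∈ U := by
    intro n
    let A : Set (Finset (Set Z)) := {s | (s : Set (Set Z)) ⊆ 𝒰 ∧ s.card = n}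
    obtain ⟨T, hTA, hTc, hT⟩ := TopologicalSpace.isOpen_biUnion_countable A
      (fun s => ⋂ U ∈ s, U) (fun s hs => isOpen_biInter_finset fun U hU => h𝒰.1.1 U (hs.1 hU))
    refine ⟨T, hTc, fun s hs => (hTA hs).1, fun s hs => (hTA hs).2, fun z => ?_⟩
    obtain ⟨s, hs, hsn⟩ := (h𝒰.2 z).exists_subset_card_eq n
    have hz : z ∈ ⋃ s ∈ A, ⋂ U ∈ s, U := by
      refine Set.mem_biUnion (x := s) ⟨fun U hU => (hs hU).1, hsn⟩ ?_
      rw [Set.mem_iInter₂]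
      exact fun U hU => (hs hU).2
    rw [← hT] at hz
    obtain ⟨s', hs', hz'⟩ := Set.mem_iUnion₂.1 hz
    exact ⟨s', hs', fun U hU => Set.mem_iInter₂.1 hz' U hU⟩
  choose T hTc hT𝒰 hTcard hTz using hT
  let 𝒰₀ : Set (Set Z) := ⋃ n, ⋃ s ∈ T n, (s : Set (Set Z))
  have h𝒰₀c : 𝒰₀.Countable := Set.countable_iUnion fun n =>
    (hTc n).biUnion fun s _ => s.countable_toSet
  have h𝒰₀ : 𝒰₀ ⊆ 𝒰 := Set.iUnion_subset fun n => Set.iUnion₂_subset fun s hs => hT𝒰 n s hs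
  have h𝒰₀z : ∀ z, {U | U ∈ 𝒰₀ ∧ z ∈ U}.Infinite := by
    intro z hfin
    obtain ⟨s, hs, hzs⟩ := hTz (hfin.toFinset.card + 1) z
    have h1 : s ⊆ hfin.toFinset := by
      intro U hU
      rw [Set.Finite.mem_toFinset]
      exact ⟨Set.mem_iUnion.2 ⟨_, Set.mem_biUnion hs hU⟩, hzs U hU⟩
    have h2 := Finset.card_le_card h1
    rw [hTcard _ s hs] at h2
    omega
  have h𝒰₀inf : 𝒰₀.Infinite := by
    obtain ⟨z⟩ := hZ
    exact (h𝒰₀z z).mono fun U hU => hU.1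
  have hc' : Countable 𝒰₀ := h𝒰₀c.to_subtype
  have hi' : Infinite 𝒰₀ := h𝒰₀inf.to_subtype
  obtain ⟨hden⟩ := nonempty_denumerable 𝒰₀
  let e : ℕ ≃ 𝒰₀ := (Denumerable.eqv 𝒰₀).symm
  let U : ℕ → Set Z := fun n => (e n : Set Z)
  have hUinj : Function.Injective U := Subtype.val_injective.comp e.injective
  have hUrange : ∀ V, V ∈ 𝒰₀ → ∃ n, U n = V := fun V hV =>
    ⟨e.symm ⟨V, hV⟩, by simp [U]⟩
  have hUmem : ∀ n, U n ∈ 𝒰₀ := fun n => (e n).2
  have hUinf : ∀ z, {n | z ∈ U n}.Infinite := by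
    intro z hfin
    apply h𝒰₀z z
    refine (hfin.image U).subset ?_
    rintro V ⟨hV, hzV⟩
    obtain ⟨n, rfl⟩ := hUrange V hV
    exact ⟨n, hzV, rfl⟩
  obtain ⟨B, hB⟩ := h U (fun n => h𝒰.1.1 _ (h𝒰₀ (hUmem n))) hUinf
  have hlarge : ∀ C : Set ℕ, (∀ z, {j | j ∈ C ∧ z ∈ U j}.Infinite) → IsLargeCover (U '' C) := by
    intro C hC
    refine ⟨⟨?_, ?_, ?_⟩, fun z => ?_⟩
    · rintro _ ⟨n, -, rfl⟩
      exact h𝒰.1.1 _ (h𝒰₀ (hUmem n))
    · rw [Set.eq_univ_iff_forall]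
      intro z
      obtain ⟨n, hn⟩ := (hC z).nonempty
      exact ⟨U n, ⟨n, hn.1, rfl⟩, hn.2⟩
    · rintro ⟨n, -, hn⟩
      exact h𝒰.1.2.2 (hn ▸ h𝒰₀ (hUmem n))
    · refine ((hC z).image hUinj.injOn).mono ?_
      rintro _ ⟨n, ⟨h1, h2⟩, rfl⟩
      exact ⟨⟨n, h1, rfl⟩, h2⟩
  refine ⟨(U '' B) ∪ (𝒰 \ 𝒰₀), U '' Bᶜ, ?_, ?_, ⟨U '' B, Set.subset_union_left,
    hlarge B fun z => (hB z).1⟩, ⟨U '' Bᶜ, subset_rfl, hlarge Bᶜ fun z => (hB z).2⟩⟩
  · rw [Set.disjoint_left]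
    rintro V (⟨n, hn, rfl⟩ | ⟨-, hV⟩) ⟨m, hm, hmV⟩
    · exact hm (hUinj hmV ▸ hn)
    · exact hV (hmV ▸ hUmem m)
  · ext V
    constructor
    · rintro ((⟨n, -, rfl⟩ | ⟨hV, -⟩) | ⟨n, -, rfl⟩)
      · exact h𝒰₀ (hUmem n)
      · exact hV
      · exact h𝒰₀ (hUmem n)
    · intro hV
      by_cases hV₀ : V ∈ 𝒰₀
      · obtain ⟨n, rfl⟩ := hUrange V hV₀
        by_cases hn : n ∈ B
        · exact Or.inl (Or.inl ⟨n, hn, rfl⟩)
        · exact Or.inr ⟨n, hn, rfl⟩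
      · exact Or.inl (Or.inr ⟨hV, hV₀⟩)

end Pool.Agent.H43.Split
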