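import Pool.Agent.H43.Split1

set_option autoImplicit false

namespace Pool.Agent.H43.Split

open Set

/-- Menger's property, for increasing sequences of open sets, infinitely often. -/
theorem Menger.seq {Y : Type} [TopologicalSpace Y] (h : Menger Y) (G : ℕ → ℕ → Set Y)
    (hG : ∀ n m, IsOpen (G n m)) (hmono : ∀ n, Monotone (G n)) (hcov : ∀ n y, ∃ m, y ∈ G n m) :
    ∃ g : ℕ → ℕ, StrictMono g ∧ (∀ n, n < g n) ∧ ∀ y, {n | y ∈ G n (g n)}.Infinite := by
  have h1 : ∀ N, ∃ g : ℕ → ℕ, ∀ y, ∃ n, N ≤ n ∧ y ∈ G n (g n) := by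
    intro N
    obtain ⟨𝒱, h𝒱, hun⟩ := h (fun n => Set.range (G (n + N))) (fun n => ⟨by
      rintro _ ⟨m, rfl⟩; exact hG _ _, by
      rw [Set.eq_univ_iff_forall]
      intro y
      obtain ⟨m, hm⟩ := hcov (n + N) y
      exact ⟨_, ⟨m, rfl⟩, hm⟩⟩)
    have h2 : ∀ n, ∃ M, ∀ V ∈ 𝒱 n, V ⊆ G (n + N) M := by
      intro n
      have hfin := (h𝒱 n).1
      have hsub := (h𝒱 n).2
      have h3 : ∀ V : Set Y, ∃ m, V ∈ 𝒱 n → V ⊆ G (n + N) m := by
        intro V
        by_cases hV : V ∈ 𝒱 n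
        · obtain ⟨m, hm⟩ := hsub hV
          exact ⟨m, fun _ => hm ▸ subset_rfl⟩
        · exact ⟨0, fun h' => absurd h' hV⟩
      choose m hm using h3
      obtain ⟨M, hM⟩ := (hfin.image m).bddAbove
      exact ⟨M, fun V hV => (hm V hV).trans (hmono _ (hM ⟨V, hV, rfl⟩))⟩
    choose M hM using h2
    refine ⟨fun n => M (n - N), fun y => ?_⟩
    have hy : y ∈ ⋃ n, ⋃₀ 𝒱 n := hun ▸ Set.mem_univ y
    obtain ⟨n, V, hV, hyV⟩ := Set.mem_iUnion.1 hy
    refine ⟨n + N, Nat.le_add_left _ _, ?_⟩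
    have := hM n V hV hyV
    simpa using this
  choose g hg using h1
  let f : ℕ → ℕ := fun n => (Finset.range (n + 1)).sup fun N => (Finset.range (n + 1)).sup fun k => g N k
  have hf : ∀ N n, N ≤ n → g N n ≤ f n := by
    intro N n hN
    refine le_trans ?_ (Finset.le_sup (f := fun N => (Finset.range (n + 1)).sup fun k => g N k)
      (Finset.mem_range.2 (Nat.lt_succ_of_le hN)))
    exact Finset.le_sup (f := fun k => g N k) (Finset.mem_range.2 (Nat.lt_succ_self n))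
  have hfm : Monotone f := by
    intro a b hab
    apply Finset.sup_le
    intro N hN
    apply Finset.sup_le
    intro k hk
    have hN' : N ∈ Finset.range (b + 1) :=
      Finset.mem_range.2 (by have := Finset.mem_range.1 hN; omega)
    have hk' : k ∈ Finset.range (b + 1) :=
      Finset.mem_range.2 (by have := Finset.mem_range.1 hk; omega)
    refine le_trans ?_ (Finset.le_sup (f := fun N => (Finset.range (b + 1)).sup fun k => g N k) hN')
    exact Finset.le_sup (f := fun k => g N k) hk'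
  refine ⟨fun n => f n + n + 1, ?_, fun n => ?_, fun y => ?_⟩
  · intro a b hab
    have := hfm hab.le
    simp only
    omega
  · simp only; omega
  · rw [Set.infinite_iff_exists_gt]
    intro a
    obtain ⟨n, hn, hy⟩ := hg (a + 1) y
    refine ⟨n, ?_, by omega⟩
    have h3 : g (a + 1) n ≤ f n + n + 1 := (hf (a + 1) n hn).trans (by omega)
    exact hmono n h3 hy

/-- If Menger's property fails, it fails for increasing sequences of open sets. -/
theorem exists_of_not_menger {Y : Type} [TopologicalSpace Y] [SecondCountableTopology Y]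
    (h : ¬ Menger Y) : ∃ G : ℕ → ℕ → Set Y, (∀ n m, IsOpen (G n m)) ∧ (∀ n, Monotone (G n)) ∧
      (∀ n y, ∃ m, y ∈ G n m) ∧ ∀ g : ℕ → ℕ, ∃ y, ∀ n, y ∉ G n (g n) := by
  classical
  unfold Menger at h
  push Not at h
  obtain ⟨𝒰, h𝒰, hno⟩ := h
  have hne : Nonempty Y := by
    by_contra hemp
    rw [not_nonempty_iff] at hemp
    exact hno (fun _ => ∅) (fun _ => ⟨Set.finite_empty, Set.empty_subset _⟩)
      (Set.eq_univ_of_forall fun y => hemp.elim y)
  have h1 : ∀ n, ∃ e : ℕ → Set Y, (∀ m, e m ∈ 𝒰 n) ∧ ∀ y, ∃ m, y ∈ e m := by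
    intro n
    obtain ⟨T, hTc, hT𝒰, hT⟩ := TopologicalSpace.isOpen_sUnion_countable (𝒰 n)
      (fun U hU => (h𝒰 n).1 U hU)
    rw [(h𝒰 n).2] at hT
    have hTne : T.Nonempty := by
      obtain ⟨y⟩ := hne
      have : y ∈ ⋃₀ T := hT ▸ Set.mem_univ y
      obtain ⟨V, hV, -⟩ := this
      exact ⟨V, hV⟩
    obtain ⟨e, rfl⟩ := hTc.exists_eq_range hTne
    refine ⟨e, fun m => hT𝒰 ⟨m, rfl⟩, fun y => ?_⟩
    have : y ∈ ⋃₀ Set.range e := hT ▸ Set.mem_univ y
    obtain ⟨V, ⟨m, rfl⟩, hm⟩ := this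
    exact ⟨m, hm⟩
  choose e he hecov using h1
  refine ⟨fun n m => ⋃ i ∈ Set.Iic m, e n i, fun n m => isOpen_biUnion fun i _ =>
    (h𝒰 n).1 _ (he n i), fun n a b hab => Set.biUnion_subset_biUnion_left (Set.Iic_subset_Iic.2 hab),
    fun n y => ?_, fun g => ?_⟩
  · obtain ⟨m, hm⟩ := hecov n y
    exact ⟨m, Set.mem_biUnion (Set.mem_Iic.2 le_rfl) hm⟩
  · have h2 := hno (fun n => e n '' Set.Iic (g n)) (fun n => ⟨(Set.finite_Iic _).image _, by
      rintro _ ⟨i, -, rfl⟩; exact he n i⟩)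
    rw [Set.ne_univ_iff_exists_notMem] at h2
    obtain ⟨y, hy⟩ := h2
    refine ⟨y, fun n hn => hy ?_⟩
    obtain ⟨i, hi, hyi⟩ := Set.mem_iUnion₂.1 hn
    exact Set.mem_iUnion.2 ⟨n, e n i, ⟨i, hi, rfl⟩, hyi⟩

/-- Products with compact spaces. -/
theorem SplitSeq.prod {X Y : Type} [TopologicalSpace X] [CompactSpace X] [TopologicalSpace Y]
    (hY : SplitSeq Y) (hM : Menger Y) : SplitSeq (X × Y) := by
  intro W hW hinf
  let G : ℕ → ℕ → Set Y := fun n m => {y | ∀ x : X, ∃ i, n ≤ i ∧ i < m ∧ (x, y) ∈ W i}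
  have hGo : ∀ n m, IsOpen (G n m) := by
    intro n m
    have : G n m = (Prod.snd '' (⋃ i ∈ Set.Ico n m, W i)ᶜ)ᶜ := by
      ext y
      constructor
      · rintro h ⟨⟨x, y'⟩, hx, rfl⟩
        obtain ⟨i, h1, h2, h3⟩ := h x
        exact hx (Set.mem_biUnion (x := i) ⟨h1, h2⟩ h3)
      · intro h x
        by_contra hcon
        apply h
        refine ⟨(x, y), fun hx => hcon ?_, rfl⟩
        obtain ⟨i, hi, h3⟩ := Set.mem_iUnion₂.1 hx
        exact ⟨i, hi.1, hi.2, h3⟩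
    rw [this]
    have h2 : IsClosed (Prod.snd '' (⋃ i ∈ Set.Ico n m, W i)ᶜ) :=
      isClosedMap_snd_of_compactSpace _ (isOpen_biUnion fun i _ => hW i).isClosed_compl
    exact h2.isOpen_compl
  have hGmono : ∀ n m n' m', n' ≤ n → m ≤ m' → G n m ⊆ G n' m' := by
    intro n m n' m' h1 h2 y hy x
    obtain ⟨i, h3, h4, h5⟩ := hy x
    exact ⟨i, h1.trans h3, h4.trans_le h2, h5⟩
  have hGcov : ∀ n y, ∃ m, y ∈ G n m := by
    intro n y
    obtain ⟨t, ht⟩ := isCompact_univ.elim_finite_subcover (X := X)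
      (fun i : ℕ => {x | n ≤ i ∧ (x, y) ∈ W i}) (fun i => by
        by_cases hi : n ≤ i
        · simp only [hi, true_and]
          exact (hW i).preimage (by fun_prop)
        · simp only [hi, false_and, Set.ofPred_false]
          exact isOpen_empty) (fun x _ => by
        obtain ⟨i, hi, hni⟩ := (hinf (x, y)).exists_gt n
        exact Set.mem_iUnion.2 ⟨i, hni.le, hi⟩)
    refine ⟨t.sup id + 1, fun x => ?_⟩
    obtain ⟨i, hi, hn, hx⟩ := Set.mem_iUnion₂.1 (ht (Set.mem_univ x))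
    exact ⟨i, hn, Nat.lt_succ_of_le (Finset.le_sup (f := id) hi), hx⟩
  -- the twice iterated covers
  obtain ⟨g, hg, hgn, hginf⟩ := hM.seq (fun n m => ⋃ p ∈ Set.Iic m, G n p ∩ G p m)
    (fun n m => isOpen_biUnion fun p _ => (hGo n p).inter (hGo p m))
    (fun n a b hab y hy => by
      obtain ⟨p, hp, h1, h2⟩ := Set.mem_iUnion₂.1 hy
      exact Set.mem_biUnion (Set.mem_Iic.2 ((Set.mem_Iic.1 hp).trans hab))
        ⟨h1, hGmono _ _ _ _ le_rfl hab h2⟩)
    (fun n y => by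
      obtain ⟨p, hp⟩ := hGcov n y
      obtain ⟨m, hm⟩ := hGcov p y
      exact ⟨max p m, Set.mem_biUnion (Set.mem_Iic.2 (le_max_left _ _))
        ⟨hp, hGmono _ _ _ _ le_rfl (le_max_right _ _) hm⟩⟩)
  let c : ℕ → ℕ := fun n => Nat.rec 0 (fun _ m => g m) n
  have hc0 : c 0 = 0 := rfl
  have hcs : ∀ n, c (n + 1) = g (c n) := fun n => rfl
  have hc : StrictMono c := strictMono_nat_of_lt_succ fun n => by rw [hcs]; exact hgn _
  let W' : ℕ → Set Y := fun j => G (c j) (c (j + 1))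
  obtain ⟨B', hB'⟩ := hY W' (fun j => hGo _ _) (fun y => by
    rw [Set.infinite_iff_exists_gt]
    intro a
    obtain ⟨n, hn, hna⟩ := (hginf y).exists_gt (c (a + 1))
    obtain ⟨j, hj1, hj2⟩ := exists_block hc (j := n) (by rw [hc0]; exact Nat.zero_le _)
    have hja : a + 1 < j + 1 := hc.lt_iff_lt.1 (hna.trans hj2)
    obtain ⟨p, hp, h1, h2⟩ := Set.mem_iUnion₂.1 hn
    by_cases hpc : p ≤ c (j + 1)
    · exact ⟨j, hGmono _ _ _ _ hj1 hpc h1, by omega⟩
    · refine ⟨j + 1, hGmono _ _ _ _ (not_le.1 hpc).le ?_ h2, by omega⟩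
      rw [hcs (j + 1)]
      exact hg.monotone hj2.le)
  refine ⟨{i | ∃ k ∈ B', c k ≤ i ∧ i < c (k + 1)}, fun z => ?_⟩
  obtain ⟨x, y⟩ := z
  refine block_split hc (S := {i | (x, y) ∈ W i}) (T := {k | y ∈ W' k}) ?_ (hB' y).1 (hB' y).2
  intro k hk
  obtain ⟨i, h1, h2, h3⟩ := hk x
  exact ⟨i, h3, h1, h2⟩

/-- If the product with the Cantor space is splittable, then the space is Menger. -/
theorem menger_of_prod {Y : Type} [TopologicalSpace Y] [SecondCountableTopology Y]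
    (h : SplitSeq ((ℕ → ℕ → Bool) × Y)) : Menger Y := by
  classical
  by_contra hM
  obtain ⟨G, hGo, hGmono, hGcov, hGno⟩ := exists_of_not_menger hM
  let W : ℕ → Set ((ℕ → ℕ → Bool) × Y) := fun m =>
    ⋃ n ∈ Set.Iic m, {p | (∀ k ∈ Set.Ico n m, p.1 n k = false) ∧ (p.1 n m = true ∨ p.2 ∈ G n m)}
  have hWo : ∀ m, IsOpen (W m) := by
    intro m
    refine isOpen_biUnion fun n _ => ?_
    have h1 : {p : (ℕ → ℕ → Bool) × Y | (∀ k ∈ Set.Ico n m, p.1 n k = false) ∧
        (p.1 n m = true ∨ p.2 ∈ G n m)} =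
        (⋂ k ∈ Set.Ico n m, (fun p : (ℕ → ℕ → Bool) × Y => p.1 n k) ⁻¹' {false}) ∩
        ((fun p : (ℕ → ℕ → Bool) × Y => p.1 n m) ⁻¹' {true} ∪ Prod.snd ⁻¹' G n m) := by
      ext p
      simp only [Set.mem_ofPred_eq, Set.mem_inter_iff, Set.mem_iInter, Set.mem_preimage,
        Set.mem_singleton_iff, Set.mem_union]
    rw [h1]
    refine ((Set.finite_Ico n m).isOpen_biInter fun k _ => ?_).inter (IsOpen.union ?_ ?_)
    · exact (isOpen_discrete _).preimage (by fun_prop)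
    · exact (isOpen_discrete _).preimage (by fun_prop)
    · exact (hGo n m).preimage continuous_snd
  have hWinf : ∀ z, {m | z ∈ W m}.Infinite := by
    rintro ⟨x, y⟩
    rw [Set.infinite_iff_exists_gt]
    intro a
    by_cases hx : ∃ k, a + 1 ≤ k ∧ x (a + 1) k = true
    · refine ⟨Nat.find hx, Set.mem_biUnion (x := a + 1) (Nat.find_spec hx).1
        ⟨fun k hk => ?_, Or.inl (Nat.find_spec hx).2⟩, (Nat.find_spec hx).1⟩
      have := Nat.find_min hx hk.2
      simp only [hk.1, true_and, Bool.not_eq_true] at this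
      exact this
    · push Not at hx
      obtain ⟨m, hm⟩ := hGcov (a + 1) y
      refine ⟨max (a + 1) m, Set.mem_biUnion (x := a + 1) (Set.mem_Iic.2 (le_max_left _ _))
        ⟨fun k hk => by simpa using hx k hk.1, Or.inr (hGmono _ (le_max_right _ _) hm)⟩,
        lt_of_lt_of_le (Nat.lt_succ_self a) (le_max_left _ _)⟩
  obtain ⟨B, hB⟩ := h W hWo hWinf
  -- one of the two parts is infinite
  have key : ∀ A : Set ℕ, A.Infinite → ∃ z, ∀ m, z ∈ W m → m ∈ A := by
    intro A hA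
    have hex : ∀ n, ∃ k, n ≤ k ∧ k ∈ A := fun n => by
      obtain ⟨k, hk, hkn⟩ := hA.exists_gt n
      exact ⟨k, hkn.le, hk⟩
    obtain ⟨y, hy⟩ := hGno fun n => Nat.find (hex n)
    refine ⟨(fun _ k => decide (k ∈ A), y), fun m hm => ?_⟩
    obtain ⟨n, hn, h1, h2⟩ := Set.mem_iUnion₂.1 hm
    by_contra hmA
    rcases h2 with h2 | h2
    · exact hmA (by simpa using h2)
    · apply hy n
      refine hGmono n ?_ h2
      by_contra hlt
      rw [not_le] at hlt
      have h3 := Nat.find_spec (hex n)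
      rcases Nat.lt_or_ge (Nat.find (hex n)) m with h4 | h4
      · have := h1 _ ⟨h3.1, h4⟩
        simp only [decide_eq_false_iff_not] at this
        exact this h3.2
      · omega
  by_cases hBi : B.Infinite
  · obtain ⟨z, hz⟩ := key B hBi
    obtain ⟨m, hm1, hm2⟩ := (hB z).2.nonempty
    exact hm1 (hz m hm2)
  · have hBc : (Bᶜ).Infinite := by
      intro hfin
      apply Set.infinite_univ (α := ℕ)
      rw [← Set.union_compl_self B]
      exact (Set.not_infinite.1 hBi).union hfin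
    obtain ⟨z, hz⟩ := key Bᶜ hBc
    obtain ⟨m, hm1, hm2⟩ := (hB z).1.nonempty
    exact hz m hm2 hm1

theorem SplitSeq.of_prod_unit {Y : Type} [TopologicalSpace Y] (h : SplitSeq (Unit × Y)) :
    SplitSeq Y := by
  intro W hW hinf
  obtain ⟨B, hB⟩ := h (fun j => Prod.snd ⁻¹' W j) (fun j => (hW j).preimage continuous_snd)
    (fun z => hinf z.2)
  exact ⟨B, fun y => hB ((), y)⟩

end Pool.Agent.H43.Split
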