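import Pool.Agent.H43.Split2

set_option autoImplicit false

namespace Pool.Agent.H43.Split

open Set Cardinal Filter

/-- The dominating number `𝔡`. -/
noncomputable def dominatingNumber : Cardinal.{0} :=
  sInf {κ | ∃ D : Set (ℕ → ℕ), #D = κ ∧ ∀ g : ℕ → ℕ, ∃ f ∈ D, ∀ᶠ n in atTop, g n ≤ f n}

/-- The reaping number `𝔯`: the least size of a family of infinite sets of integers which no set
of integers splits. -/
noncomputable def reapingNumber : Cardinal.{0} :=
  sInf {κ | ∃ R : Set (Set ℕ), #R = κ ∧ (∀ S ∈ R, S.Infinite) ∧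
    ∀ A : Set ℕ, ∃ S ∈ R, (S ∩ A).Finite ∨ (S \ A).Finite}

/-- The ultrafilter number `𝔲`: the least size of a base of a nonprincipal ultrafilter on the
integers. -/
noncomputable def ultrafilterNumber : Cardinal.{0} :=
  sInf {κ | ∃ (𝒰 : Ultrafilter ℕ) (B : Set (Set ℕ)), #B = κ ∧ (∀ A ∈ 𝒰, A.Infinite) ∧
    (∀ S ∈ B, S ∈ 𝒰) ∧ ∀ A ∈ 𝒰, ∃ S ∈ B, S ⊆ A}

/-- A family of infinite sets of integers is groupwise dense if it is closed under almost subsets
and, for every partition of the integers into finite intervals `[c k, c (k + 1))`, it contains the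
union of infinitely many of the intervals. -/
def GroupwiseDense (𝒢 : Set (Set ℕ)) : Prop :=
  (∀ A ∈ 𝒢, A.Infinite) ∧ (∀ A ∈ 𝒢, ∀ A' : Set ℕ, A'.Infinite → (A' \ A).Finite → A' ∈ 𝒢) ∧
  ∀ c : ℕ → ℕ, StrictMono c → c 0 = 0 → ∃ K : Set ℕ, K.Infinite ∧
    (⋃ k ∈ K, Set.Ico (c k) (c (k + 1))) ∈ 𝒢

/-- The groupwise density number `𝔤`: the least size of a set of groupwise dense families with
empty intersection. -/
noncomputable def groupwiseDensityNumber : Cardinal.{0} :=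
  sInf {κ | ∃ 𝔾 : Set (Set (Set ℕ)), #𝔾 = κ ∧ (∀ 𝒢 ∈ 𝔾, GroupwiseDense 𝒢) ∧ ⋂₀ 𝔾 = ∅}

/-- A dominating family of size less than `𝔯` is splittable. -/
theorem splitSeq_of_lt {Y : Type} [TopologicalSpace Y] (h : #Y < reapingNumber) : SplitSeq Y := by
  intro W _ hinf
  by_contra hcon
  push Not at hcon
  apply not_le.2 h
  have h1 : reapingNumber ≤ #(Set.range fun y : Y => {j | y ∈ W j}) := by
    apply csInf_le'
    refine ⟨_, rfl, ?_, fun A => ?_⟩
    · rintro _ ⟨y, rfl⟩; exact hinf y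
    · obtain ⟨y, hy⟩ := hcon A
      refine ⟨_, ⟨y, rfl⟩, ?_⟩
      by_cases h1 : {j | j ∈ A ∧ y ∈ W j}.Infinite
      · right
        have h2 := hy h1
        refine h2.subset ?_
        rintro j ⟨hj1, hj2⟩
        exact ⟨hj2, hj1⟩
      · left
        rw [Set.not_infinite] at h1
        refine h1.subset ?_
        rintro j ⟨hj1, hj2⟩
        exact ⟨hj2, hj1⟩
  exact h1.trans mk_range_le

theorem exists_dominating : ∃ D : Set (ℕ → ℕ), #D = dominatingNumber ∧
    ∀ g : ℕ → ℕ, ∃ f ∈ D, ∀ᶠ n in atTop, g n ≤ f n := by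
  have h : dominatingNumber ∈ {κ | ∃ D : Set (ℕ → ℕ), #D = κ ∧
      ∀ g : ℕ → ℕ, ∃ f ∈ D, ∀ᶠ n in atTop, g n ≤ f n} := by
    apply csInf_mem
    exact ⟨_, Set.univ, rfl, fun g => ⟨g, Set.mem_univ _, Eventually.of_forall fun _ => le_rfl⟩⟩
  exact h

theorem not_menger_of_dominating {D : Set (ℕ → ℕ)}
    (hD : ∀ g : ℕ → ℕ, ∃ f ∈ D, ∀ᶠ n in atTop, g n ≤ f n) : ¬ Menger D := by
  intro hM
  obtain ⟨g, -, -, hg⟩ := hM.seq (fun n m => {f : D | f.1 n < m})
    (fun n m => by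
      have : {f : D | f.1 n < m} = (fun f : D => f.1 n) ⁻¹' Set.Iio m := rfl
      rw [this]
      exact (isOpen_discrete _).preimage ((continuous_apply n).comp continuous_subtype_val))
    (fun n a b hab f hf => lt_of_lt_of_le hf hab)
    (fun n f => ⟨f.1 n + 1, Nat.lt_succ_self _⟩)
  obtain ⟨f, hf, hgf⟩ := hD g
  obtain ⟨N, hN⟩ := eventually_atTop.1 hgf
  obtain ⟨n, hn, hnN⟩ := (hg ⟨f, hf⟩).exists_gt N
  exact absurd (hN n hnN.le) (not_le.2 hn)

/-! ### The case `𝔲 < 𝔤` -/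

/-- `m` and `k` are not separated by `A`. -/
def SameBlock (A : Set ℕ) (m k : ℕ) : Prop := ∀ a ∈ A, ¬ (min m k < a ∧ a ≤ max m k)

theorem groupwiseDense_aux {Y : Type} {O : ℕ → Set Y}
    (hno : ∀ c : ℕ → ℕ, StrictMono c → ∃ y, {k | ∀ m, c k ≤ m → m < c (k + 1) → y ∉ O m}.Infinite)
    {B : Set ℕ} (hB : B.Infinite) :
    GroupwiseDense {A | A.Infinite ∧ ∃ y, ∃ N, ∀ m, N ≤ m → y ∈ O m → ∃ k ∈ B, SameBlock A m k} := by
  refine ⟨fun A hA => hA.1, ?_, ?_⟩
  · rintro A ⟨hA, y, N, hN⟩ A' hA' hfin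
    refine ⟨hA', y, ?_⟩
    obtain ⟨M, hM⟩ := hfin.bddAbove
    obtain ⟨a, ha, haM⟩ := hA.exists_gt M
    refine ⟨max N a, fun m hm hy => ?_⟩
    obtain ⟨k, hk, hsb⟩ := hN m ((le_max_left _ _).trans hm) hy
    have ham : a ≤ m := (le_max_right _ _).trans hm
    have hak : a ≤ k := by
      by_contra hlt
      rw [not_le] at hlt
      exact hsb a ha ⟨(min_le_right _ _).trans_lt hlt, ham.trans (le_max_left _ _)⟩
    refine ⟨k, hk, fun a' ha' h => ?_⟩
    by_cases h1 : a' ∈ A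
    · exact hsb a' h1 h
    · have h2 : a' ≤ M := hM ⟨ha', h1⟩
      have h3 : a ≤ min m k := le_min ham hak
      omega
  · intro c hc hc0
    -- a coarser partition
    have hstep : ∀ i, ∃ j, i < j ∧ ∃ b ∈ B, c (i + 1) ≤ b ∧ b < c j := by
      intro i
      obtain ⟨b, hb, hbc⟩ := hB.exists_gt (c (i + 1))
      refine ⟨b + 1 + i, by omega, b, hb, hbc.le, ?_⟩
      have := hc.id_le (b + 1 + i)
      simp only [id] at this
      omega
    choose s hs1 hs2 using hstep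
    let e : ℕ → ℕ := fun n => Nat.rec 0 (fun _ m => s m) n
    have he0 : e 0 = 0 := rfl
    have hes : ∀ n, e (n + 1) = s (e n) := fun n => rfl
    have he : StrictMono e := strictMono_nat_of_lt_succ fun n => by rw [hes]; exact hs1 _
    obtain ⟨y, hy⟩ := hno (c ∘ e) (hc.comp he)
    set T := {k | ∀ m, (c ∘ e) k ≤ m → m < (c ∘ e) (k + 1) → y ∉ O m} with hT
    refine ⟨e '' T, hy.image he.injective.injOn, ?_, y, ?_⟩
    · rw [Set.infinite_iff_exists_gt]
      intro a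
      obtain ⟨t, ht, hta⟩ := hy.exists_gt a
      refine ⟨c (e t), Set.mem_biUnion (x := e t) ⟨t, ht, rfl⟩ ⟨le_rfl, hc (Nat.lt_succ_self _)⟩, ?_⟩
      have h1 := hc.id_le (e t)
      have h2 := he.id_le t
      simp only [id] at h1 h2
      omega
    · obtain ⟨t₀, ht₀⟩ := hy.nonempty
      refine ⟨c (e t₀), fun m hm hym => ?_⟩
      classical
      -- the last member of `T` below `m`
      let i := Nat.findGreatest (fun t => t ∈ T ∧ c (e t) ≤ m) m
      have hle : ∀ t, t ≤ c (e t) := fun t => by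
        have h1 := hc.id_le (e t)
        have h2 := he.id_le t
        simp only [id] at h1 h2
        omega
      have hi : i ∈ T ∧ c (e i) ≤ m :=
        Nat.findGreatest_spec (P := fun t => t ∈ T ∧ c (e t) ≤ m) ((hle t₀).trans hm) ⟨ht₀, hm⟩
      have hmax : ∀ t, t ∈ T → c (e t) ≤ m → t ≤ i := fun t ht htm =>
        Nat.le_findGreatest ((hle t).trans htm) ⟨ht, htm⟩
      have him : c (e (i + 1)) ≤ m := by
        by_contra hlt
        exact hi.1 m hi.2 (not_le.1 hlt) hym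
      obtain ⟨b, hb, hb1, hb2⟩ := hs2 (e i)
      rw [← hes] at hb2
      refine ⟨b, hb, fun a ha h => ?_⟩
      obtain ⟨k, ⟨t, ht, rfl⟩, hat1, hat2⟩ := Set.mem_iUnion₂.1 ha
      have hbm : b < m := hb2.trans_le him
      rw [min_eq_right hbm.le, max_eq_left hbm.le] at h
      rcases le_or_gt t i with hti | hti
      · have h1 : c (e t + 1) ≤ c (e i + 1) := hc.monotone (by have := he.monotone hti; omega)
        omega
      · have h1 : ¬ c (e t) ≤ m := fun h' => absurd (hmax t ht h') (not_le.2 hti)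
        omega

theorem exists_partition (hug : ultrafilterNumber < groupwiseDensityNumber) {Y : Type}
    [TopologicalSpace Y] (hY : SplitSeq Y) (O : ℕ → Set Y) (hO : ∀ m, IsOpen (O m))
    (hinf : ∀ y, {m | y ∈ O m}.Infinite) :
    ∃ c : ℕ → ℕ, StrictMono c ∧ ∀ y, ∃ N, ∀ k, N ≤ k → ∃ m, c k ≤ m ∧ m < c (k + 1) ∧ y ∈ O m := by
  by_contra hcon
  have hno : ∀ c : ℕ → ℕ, StrictMono c →
      ∃ y, {k | ∀ m, c k ≤ m → m < c (k + 1) → y ∉ O m}.Infinite := by
    intro c hc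
    by_contra h
    apply hcon
    refine ⟨c, hc, fun y => ?_⟩
    have h1 : {k | ∀ m, c k ≤ m → m < c (k + 1) → y ∉ O m}.Finite := by
      by_contra h2
      exact h ⟨y, h2⟩
    obtain ⟨N, hN⟩ := h1.bddAbove
    refine ⟨N + 1, fun k hk => ?_⟩
    by_contra h2
    push Not at h2
    have : k ≤ N := hN h2
    omega
  -- the ultrafilter
  have hu : ultrafilterNumber ∈ {κ | ∃ (𝒰 : Ultrafilter ℕ) (B : Set (Set ℕ)), #B = κ ∧
      (∀ A ∈ 𝒰, A.Infinite) ∧ (∀ S ∈ B, S ∈ 𝒰) ∧ ∀ A ∈ 𝒰, ∃ S ∈ B, S ⊆ A} := by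
    apply csInf_mem
    refine ⟨_, hyperfilter ℕ, {A | A ∈ hyperfilter ℕ}, rfl, fun A hA => ?_, fun S hS => hS,
      fun A hA => ⟨A, hA, subset_rfl⟩⟩
    intro hfin
    exact Set.Finite.notMem_hyperfilter hfin hA
  obtain ⟨𝒰, 𝔅, h𝔅c, h𝒰inf, h𝔅, hbase⟩ := hu
  let 𝒢 : Set ℕ → Set (Set ℕ) := fun B =>
    {A | A.Infinite ∧ ∃ y, ∃ N, ∀ m, N ≤ m → y ∈ O m → ∃ k ∈ B, SameBlock A m k}
  have hne : (⋂₀ (𝒢 '' 𝔅)).Nonempty := by
    by_contra hemp
    rw [Set.not_nonempty_iff_eq_empty] at hemp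
    have h1 : groupwiseDensityNumber ≤ #(𝒢 '' 𝔅) := by
      apply csInf_le'
      refine ⟨_, rfl, ?_, hemp⟩
      rintro _ ⟨B, hB, rfl⟩
      exact groupwiseDense_aux hno (h𝒰inf B (h𝔅 B hB))
    have h2 : #(𝒢 '' 𝔅) ≤ #𝔅 := mk_image_le
    rw [h𝔅c] at h2
    exact absurd (h1.trans h2) (not_le.2 hug)
  obtain ⟨A, hA⟩ := hne
  have hAB : ∀ B ∈ 𝔅, A ∈ 𝒢 B := fun B hB => hA _ ⟨B, hB, rfl⟩
  have hAinf : A.Infinite := by
    obtain ⟨S, hS, -⟩ := hbase Set.univ Filter.univ_mem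
    exact (hAB S hS).1
  -- enumeration of `A`
  classical
  let c : ℕ → ℕ := Nat.nth (· ∈ A)
  have hc : StrictMono c := Nat.nth_strictMono hAinf
  have hcA : ∀ n, c n ∈ A := fun n => Nat.nth_mem_of_infinite hAinf n
  let W : ℕ → Set Y := fun k => ⋃ m ∈ Set.Ico (c k) (c (k + 1)), O m
  obtain ⟨B, hB⟩ := hY W (fun k => isOpen_biUnion fun m _ => hO m) (fun y => by
    rw [Set.infinite_iff_exists_gt]
    intro a
    obtain ⟨m, hm, hma⟩ := (hinf y).exists_gt (c (a + 1))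
    obtain ⟨k, hk1, hk2⟩ := exists_block hc (j := m)
      ((hc.monotone (Nat.zero_le _)).trans hma.le)
    refine ⟨k, Set.mem_biUnion ⟨hk1, hk2⟩ hm, ?_⟩
    have : a + 1 < k + 1 := hc.lt_iff_lt.1 (hma.trans hk2)
    omega)
  let T₁ : Set ℕ := ⋃ k ∈ B, Set.Ico (c k) (c (k + 1))
  -- same block means same interval
  have hsame : ∀ m k i, SameBlock A m k → c i ≤ m → m < c (i + 1) → c i ≤ k ∧ k < c (i + 1) := by
    intro m k i h h1 h2
    constructor
    · by_contra hlt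
      rw [not_le] at hlt
      exact h (c i) (hcA i) ⟨(min_le_right _ _).trans_lt hlt, h1.trans (le_max_left _ _)⟩
    · by_contra hle
      rw [not_lt] at hle
      exact h (c (i + 1)) (hcA _) ⟨(min_le_left _ _).trans_lt h2, hle.trans (le_max_right _ _)⟩
  rcases 𝒰.mem_or_compl_mem T₁ with hT | hT
  · obtain ⟨S, hS, hST⟩ := hbase _ hT
    obtain ⟨-, y, N, hN⟩ := hAB S hS
    obtain ⟨i, ⟨hiB, hi⟩, hiN⟩ := (hB y).2.exists_gt N
    obtain ⟨m, hm, hym⟩ := Set.mem_iUnion₂.1 hi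
    have hci := hc.id_le i
    simp only [id] at hci
    obtain ⟨k, hk, hsb⟩ := hN m (by have := hm.1; omega) hym
    obtain ⟨h1, h2⟩ := hsame m k i hsb hm.1 hm.2
    obtain ⟨j, hj, hkj⟩ := Set.mem_iUnion₂.1 (hST hk)
    exact hiB (block_unique hc h1 h2 hkj.1 hkj.2 ▸ hj)
  · obtain ⟨S, hS, hST⟩ := hbase _ hT
    obtain ⟨-, y, N, hN⟩ := hAB S hS
    obtain ⟨i, ⟨hiB, hi⟩, hiN⟩ := (hB y).1.exists_gt N
    obtain ⟨m, hm, hym⟩ := Set.mem_iUnion₂.1 hi
    have hci := hc.id_le i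
    simp only [id] at hci
    obtain ⟨k, hk, hsb⟩ := hN m (by have := hm.1; omega) hym
    obtain ⟨h1, h2⟩ := hsame m k i hsb hm.1 hm.2
    exact hST hk (Set.mem_biUnion hiB ⟨h1, h2⟩)

/-- If `𝔲 < 𝔤`, then splittable spaces are Menger. -/
theorem menger_of_lt (hug : ultrafilterNumber < groupwiseDensityNumber) {Y : Type}
    [TopologicalSpace Y] [TopologicalSpace.MetrizableSpace Y] [SecondCountableTopology Y]
    (hY : SplitSeq Y) : Menger Y := by
  by_contra hM
  obtain ⟨G, hGo, hGmono, hGcov, hGno⟩ := exists_of_not_menger hM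
  -- continuous bounds
  have hh : ∀ n, ∃ h : C(Y, ℝ), ∀ y, ∀ m : ℕ, h y ≤ m → y ∈ G n m := by
    intro n
    let _ := TopologicalSpace.metrizableSpaceMetric Y
    obtain ⟨h, hh⟩ := exists_continuous_forall_mem_convex_of_local_const
      (t := fun y : Y => {r : ℝ | ∀ m : ℕ, r ≤ m → y ∈ G n m}) (fun y => by
        apply Set.OrdConnected.convex
        refine ⟨fun a ha b _ r hr m hm => ha m (hr.1.trans hm)⟩) (fun y => by
        obtain ⟨m, hm⟩ := hGcov n y
        refine ⟨(m : ℝ), ?_⟩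
        filter_upwards [(hGo n m).mem_nhds hm] with y' hy' m' hm'
        exact hGmono n (by exact_mod_cast hm') hy')
    exact ⟨h, hh⟩
  choose h hh using hh
  let H : ℕ → Y → ℝ := fun n y => ∑ i ∈ Finset.range (n + 1), (|h i y| + 1)
  have hHc : ∀ n, Continuous (H n) := fun n =>
    continuous_finsetSum _ fun i _ => ((h i).continuous.abs).add continuous_const
  have hHs : ∀ n y, H n y + 1 ≤ H (n + 1) y := by
    intro n y
    simp only [H]
    rw [Finset.sum_range_succ _ (n + 1)]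
    have := abs_nonneg (h (n + 1) y)
    linarith
  have hHn : ∀ (n : ℕ) y, (n : ℝ) ≤ H n y := by
    intro n y
    induction n with
    | zero =>
      simp only [H, Nat.cast_zero]
      exact Finset.sum_nonneg fun i _ => by positivity
    | succ n ih =>
      push_cast
      have := hHs n y
      linarith
  have hHmono : ∀ y, StrictMono fun n => H n y := fun y =>
    strictMono_nat_of_lt_succ fun n => by
      have := hHs n y
      linarith
  have hHh : ∀ n y, h n y ≤ H n y := by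
    intro n y
    have h1 : |h n y| + 1 ≤ H n y :=
      Finset.single_le_sum (f := fun i => |h i y| + 1) (fun i _ => by positivity)
        (Finset.mem_range.2 (Nat.lt_succ_self n))
    have := le_abs_self (h n y)
    linarith
  let O : ℕ → Set Y := fun k => ⋃ n, {y | |H n y - k| < 1}
  have hO : ∀ k, IsOpen (O k) := fun k => isOpen_iUnion fun n =>
    isOpen_lt (((hHc n).sub continuous_const).abs) continuous_const
  have hOinf : ∀ y, {k | y ∈ O k}.Infinite := by
    intro y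
    rw [Set.infinite_iff_exists_gt]
    intro a
    have h1 : ((a + 1 : ℕ) : ℝ) ≤ H (a + 1) y := hHn (a + 1) y
    have h2 : a + 1 ≤ ⌊H (a + 1) y⌋₊ := Nat.le_floor h1
    refine ⟨⌊H (a + 1) y⌋₊, Set.mem_iUnion.2 ⟨a + 1, ?_⟩, by omega⟩
    have h3 := Nat.floor_le ((Nat.cast_nonneg _).trans h1)
    have h4 := Nat.lt_floor_add_one (H (a + 1) y)
    simp only [Set.mem_ofPred_eq]
    rw [abs_lt]
    constructor <;> linarith
  obtain ⟨c, hc, hcy⟩ := exists_partition hug hY O hO hOinf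
  obtain ⟨y, hy⟩ := hGno fun n => c (3 * n + 1)
  obtain ⟨N, hN⟩ := hcy y
  -- the indices reached by the intervals
  have hreach : ∀ i, ∃ n, i ≤ n ∧ H n y < c (N + 2 * i + 1) := by
    intro i
    induction i with
    | zero =>
      obtain ⟨k, hk1, hk2, hk⟩ := hN N le_rfl
      obtain ⟨n, hn⟩ := Set.mem_iUnion.1 hk
      simp only [Set.mem_ofPred_eq] at hn
      rw [abs_lt] at hn
      refine ⟨n, Nat.zero_le _, ?_⟩
      have : ((k : ℝ) + 1) ≤ c (N + 2 * 0 + 1) := by exact_mod_cast hk2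
      linarith
    | succ i ih =>
      obtain ⟨n, hin, hn⟩ := ih
      obtain ⟨k, hk1, hk2, hk⟩ := hN (N + 2 * (i + 1)) (by omega)
      obtain ⟨n', hn'⟩ := Set.mem_iUnion.1 hk
      simp only [Set.mem_ofPred_eq] at hn'
      rw [abs_lt] at hn'
      refine ⟨n', ?_, ?_⟩
      · have h1 : c (N + 2 * i + 1) < c (N + 2 * (i + 1)) := hc (by omega)
        have h2 : (c (N + 2 * i + 1) : ℝ) + 1 ≤ k := by
          have : c (N + 2 * i + 1) + 1 ≤ k := by omega
          exact_mod_cast this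
        have h3 : H n y < H n' y := by linarith
        have h4 : n < n' := (hHmono y).lt_iff_lt.1 h3
        omega
      · have : ((k : ℝ) + 1) ≤ c (N + 2 * (i + 1) + 1) := by exact_mod_cast hk2
        linarith
  apply hy N
  apply hh
  obtain ⟨n, hn1, hn2⟩ := hreach N
  have h1 : H N y ≤ H n y := (hHmono y).monotone hn1
  have h2 : N + 2 * N + 1 = 3 * N + 1 := by omega
  rw [h2] at hn2
  have h3 := hHh N y
  linarith

end Pool.Agent.H43.Split
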