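import Pool.Agent.H43.Split3

set_option autoImplicit false

namespace Pool.Agent.H43.Split

open TopologicalSpace

theorem secondCountable_of_metrizable_separable (Y : Type) [TopologicalSpace Y] [MetrizableSpace Y]
    [SeparableSpace Y] : SecondCountableTopology Y := by
  let _ := metrizableSpaceMetric Y
  exact UniformSpace.secondCountable_of_separable Y

theorem secondCountable_of_compact_metrizable (X : Type) [TopologicalSpace X] [MetrizableSpace X]
    [CompactSpace X] : SecondCountableTopology X := by
  let _ := metrizableSpaceMetric X
  infer_instance

theorem SplitLL.prod_of_menger {X Y : Type} [TopologicalSpace X] [TopologicalSpace Y]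
    [MetrizableSpace X] [CompactSpace X] [MetrizableSpace Y] [SeparableSpace Y]
    (h : SplitLL Y) (hM : Menger Y) : SplitLL (X × Y) := by
  have := secondCountable_of_metrizable_separable Y
  have := secondCountable_of_compact_metrizable X
  exact (h.splitSeq.prod hM).splitLL

theorem menger_of_splitLL_prod {Y : Type} [TopologicalSpace Y]
    [MetrizableSpace Y] [SeparableSpace Y]
    (h : SplitLL ((ℕ → ℕ → Bool) × Y)) : Menger Y := by
  have := secondCountable_of_metrizable_separable Y
  exact menger_of_prod h.splitSeq

end Pool.Agent.H43.Split
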