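import Mathlib

set_option autoImplicit false

/-!
# Splittable large covers: definitions
-/

namespace Pool.Agent.H43.Split

open Set

section

variable {Z : Type} [TopologicalSpace Z]

/-- An open cover of `Z`: a family of open sets with union `Z` which does not contain `Z`. -/
def IsOpenCover (𝒰 : Set (Set Z)) : Prop :=
  (∀ U ∈ 𝒰, IsOpen U) ∧ ⋃₀ 𝒰 = univ ∧ univ ∉ 𝒰

/-- `Λ(Z)`: a large open cover, i.e. every point lies in infinitely many members. -/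
def IsLargeCover (𝒰 : Set (Set Z)) : Prop :=
  IsOpenCover 𝒰 ∧ ∀ z : Z, {U | U ∈ 𝒰 ∧ z ∈ U}.Infinite

end

/-- `Split(Λ, Λ)`: every large open cover is the disjoint union of two parts each of which
contains a large open cover. -/
def SplitLL (Z : Type) [TopologicalSpace Z] : Prop :=
  ∀ 𝒰 : Set (Set Z), IsLargeCover 𝒰 → ∃ 𝒱 𝒲 : Set (Set Z), Disjoint 𝒱 𝒲 ∧ 𝒱 ∪ 𝒲 = 𝒰 ∧
    (∃ 𝒱' ⊆ 𝒱, IsLargeCover 𝒱') ∧ (∃ 𝒲' ⊆ 𝒲, IsLargeCover 𝒲')

/-- Menger's property: from every sequence of families of open sets covering `Z` one can choose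
finite subfamilies which together cover `Z`. -/
def Menger (Z : Type) [TopologicalSpace Z] : Prop :=
  ∀ 𝒰 : ℕ → Set (Set Z), (∀ n, (∀ U ∈ 𝒰 n, IsOpen U) ∧ ⋃₀ 𝒰 n = univ) →
    ∃ 𝒱 : ℕ → Set (Set Z), (∀ n, (𝒱 n).Finite ∧ 𝒱 n ⊆ 𝒰 n) ∧ ⋃ n, ⋃₀ 𝒱 n = univ

end Pool.Agent.H43.Split
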