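import Mathlib

set_option autoImplicit false

namespace Pool.Agent.H43.TreeSpace

open Set Topology

/-- Nodes of the binary tree of finite level. -/
abbrev Node := (n : ℕ) × (Fin n → Bool)

/-- Branches: points of the Cantor space. -/
abbrev Br := ℕ → Bool

/-- The space: isolated nodes together with branches. -/
structure X where
  /-- the underlying node or branch -/
  val : Node ⊕ Br

/-- A node as a point. -/
def nd (p : Node) : X := ⟨Sum.inl p⟩
/-- A branch as a point. -/
def br (x : Br) : X := ⟨Sum.inr x⟩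

/-- restriction of a branch to a level -/
def res (x : Br) (n : ℕ) : Fin n → Bool := fun i => x i

/-- Basic neighbourhood of the branch `x`: branches agreeing below `m`, and nodes of level
at least `m` agreeing with `x` below `m`, except the nodes lying on `x` itself. -/
def N (x : Br) (m : ℕ) : Set X :=
  {z | (∃ y : Br, z = br y ∧ ∀ i < m, y i = x i) ∨
    (∃ (n : ℕ) (s : Fin n → Bool), z = nd ⟨n, s⟩ ∧ m ≤ n ∧ (∀ i : Fin n, (i : ℕ) < m → s i = x i) ∧
      s ≠ res x n)}

theorem br_mem_N (x : Br) (m : ℕ) : br x ∈ N x m := Or.inl ⟨x, rfl, fun _ _ => rfl⟩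

theorem br_mem_N_iff {x y : Br} {m : ℕ} : br y ∈ N x m ↔ ∀ i < m, y i = x i := by
  constructor
  · rintro (⟨y', h, h'⟩ | ⟨n, s, h, -⟩)
    · simp only [br, X.mk.injEq, Sum.inr.injEq] at h
      subst h; exact h'
    · simp [br, nd] at h
  · intro h; exact Or.inl ⟨y, rfl, h⟩

theorem nd_mem_N_iff {x : Br} {m n : ℕ} {s : Fin n → Bool} : nd ⟨n, s⟩ ∈ N x m ↔
    m ≤ n ∧ (∀ i : Fin n, (i : ℕ) < m → s i = x i) ∧ s ≠ res x n := by
  constructor
  · rintro (⟨y', h, h'⟩ | ⟨n', s', h, h'⟩)
    · simp [br, nd] at h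
    · simp only [nd, X.mk.injEq, Sum.inl.injEq, Sigma.mk.injEq] at h
      obtain ⟨rfl, h2⟩ := h
      simp only [heq_eq_eq] at h2
      subst h2
      exact h'
  · intro h; exact Or.inr ⟨n, s, rfl, h⟩

theorem X_cases (z : X) : (∃ p, z = nd p) ∨ (∃ x, z = br x) := by
  rcases z with ⟨p | x⟩
  · exact Or.inl ⟨p, rfl⟩
  · exact Or.inr ⟨x, rfl⟩

theorem nd_ne_br (p : Node) (x : Br) : nd p ≠ br x := by simp [nd, br]

theorem nd_inj {p q : Node} (h : nd p = nd q) : p = q := by simpa [nd] using h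
theorem br_inj {p q : Br} (h : br p = br q) : p = q := by simpa [br] using h

theorem N_mono {x : Br} {m m' : ℕ} (h : m ≤ m') : N x m' ⊆ N x m := by
  intro z hz
  rcases X_cases z with ⟨⟨n, s⟩, rfl⟩ | ⟨y, rfl⟩
  · rw [nd_mem_N_iff] at hz ⊢
    exact ⟨h.trans hz.1, fun i hi => hz.2.1 i (hi.trans_le h), hz.2.2⟩
  · rw [br_mem_N_iff] at hz ⊢
    exact fun i hi => hz i (hi.trans_le h)

instance : TopologicalSpace X where
  IsOpen U := ∀ x : Br, br x ∈ U → ∃ m, N x m ⊆ U
  isOpen_univ := fun x _ => ⟨0, subset_univ _⟩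
  isOpen_inter := by
    intro U V hU hV x hx
    obtain ⟨m, hm⟩ := hU x hx.1
    obtain ⟨m', hm'⟩ := hV x hx.2
    exact ⟨max m m', subset_inter ((N_mono (le_max_left _ _)).trans hm)
      ((N_mono (le_max_right _ _)).trans hm')⟩
  isOpen_sUnion := by
    intro 𝒰 h𝒰 x hx
    obtain ⟨U, hU, hxU⟩ := hx
    obtain ⟨m, hm⟩ := h𝒰 U hU x hxU
    exact ⟨m, hm.trans (subset_sUnion_of_mem hU)⟩

theorem isOpen_iff' {U : Set X} : IsOpen U ↔ ∀ x : Br, br x ∈ U → ∃ m, N x m ⊆ U := Iff.rfl

theorem isOpen_nd (S : Set Node) : IsOpen (nd '' S) := by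
  intro x hx
  obtain ⟨p, -, hp⟩ := hx
  exact absurd hp (nd_ne_br p x)

/-- If two branches agree below `m` and differ somewhere below `m'`, then the smaller
neighbourhood of one sits in the neighbourhood of the other. -/
theorem N_subset_of {x y : Br} {m m' : ℕ} (h : ∀ i < m, y i = x i) (hm : m ≤ m')
    (hne : ∃ i < m', y i ≠ x i) : N y m' ⊆ N x m := by
  intro z hz
  rcases X_cases z with ⟨⟨n, s⟩, rfl⟩ | ⟨w, rfl⟩
  · rw [nd_mem_N_iff] at hz ⊢
    refine ⟨hm.trans hz.1, fun i hi => (hz.2.1 i (hi.trans_le hm)).trans (h _ hi), ?_⟩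
    rintro rfl
    obtain ⟨i, hi, hi'⟩ := hne
    exact hi' (hz.2.1 ⟨i, hi.trans_le hz.1⟩ hi).symm
  · rw [br_mem_N_iff] at hz ⊢
    exact fun i hi => (hz i (hi.trans_le hm)).trans (h i hi)

theorem isOpen_N (x : Br) (m : ℕ) : IsOpen (N x m) := by
  intro y hy
  rw [br_mem_N_iff] at hy
  by_cases hxy : y = x
  · subst hxy; exact ⟨m, subset_rfl⟩
  · have : ∃ i, y i ≠ x i := by
      by_contra hcon; push Not at hcon; exact hxy (funext hcon)
    obtain ⟨i, hi⟩ := this
    exact ⟨max m (i + 1), N_subset_of hy (le_max_left _ _)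
      ⟨i, lt_of_lt_of_le (Nat.lt_succ_self i) (le_max_right _ _), hi⟩⟩

theorem hasBasis_nhds_br (x : Br) : (𝓝 (br x)).HasBasis (fun _ : ℕ => True) (fun m => N x m) := by
  constructor
  intro t
  rw [mem_nhds_iff]
  constructor
  · rintro ⟨U, hUt, hU, hxU⟩
    obtain ⟨m, hm⟩ := hU x hxU
    exact ⟨m, trivial, hm.trans hUt⟩
  · rintro ⟨m, -, hm⟩
    exact ⟨N x m, hm, isOpen_N x m, br_mem_N x m⟩

instance : FirstCountableTopology X := by
  constructor
  intro z
  rcases X_cases z with ⟨p, rfl⟩ | ⟨x, rfl⟩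
  · have : 𝓝 (nd p) = pure (nd p) := by
      rw [← isOpen_singleton_iff_nhds_eq_pure]
      simpa using isOpen_nd {p}
    rw [this]
    infer_instance
  · exact (hasBasis_nhds_br x).isCountablyGenerated

theorem disj_N {x y : Br} (h : x ≠ y) : ∃ m, Disjoint (N x m) (N y m) := by
  have : ∃ i, x i ≠ y i := by
    by_contra hcon; push Not at hcon; exact h (funext hcon)
  obtain ⟨i, hi⟩ := this
  refine ⟨i + 1, ?_⟩
  rw [Set.disjoint_left]
  intro z hz hz'
  rcases X_cases z with ⟨⟨n, s⟩, rfl⟩ | ⟨w, rfl⟩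
  · rw [nd_mem_N_iff] at hz hz'
    apply hi
    rw [← hz.2.1 ⟨i, hz.1⟩ (Nat.lt_succ_self i), ← hz'.2.1 ⟨i, hz.1⟩ (Nat.lt_succ_self i)]
  · rw [br_mem_N_iff] at hz hz'
    exact hi ((hz i (Nat.lt_succ_self i)).symm.trans (hz' i (Nat.lt_succ_self i)))

instance : T2Space X := by
  constructor
  intro z w hzw
  have key : ∀ (p : Node) (w : X), nd p ≠ w → ∃ u v : Set X, IsOpen u ∧ IsOpen v ∧ nd p ∈ u ∧ w ∈ v ∧
      Disjoint u v := by
    rintro ⟨n, s⟩ w hw
    rcases X_cases w with ⟨q, rfl⟩ | ⟨y, rfl⟩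
    · refine ⟨nd '' {⟨n, s⟩}, nd '' {q}, isOpen_nd _, isOpen_nd _, ⟨_, rfl, rfl⟩, ⟨_, rfl, rfl⟩, ?_⟩
      simpa using hw
    · refine ⟨nd '' {⟨n, s⟩}, N y (n + 1), isOpen_nd _, isOpen_N _ _, ⟨_, rfl, rfl⟩, br_mem_N _ _, ?_⟩
      simp only [image_singleton, disjoint_singleton_left]
      rw [nd_mem_N_iff]
      rintro ⟨h, -⟩
      omega
  rcases X_cases z with ⟨p, rfl⟩ | ⟨x, rfl⟩
  · exact key p w hzw
  · rcases X_cases w with ⟨q, rfl⟩ | ⟨y, rfl⟩
    · obtain ⟨u, v, hu, hv, h1, h2, h3⟩ := key q (br x) hzw.symm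
      exact ⟨v, u, hv, hu, h2, h1, h3.symm⟩
    · have hne : x ≠ y := fun h => hzw (by rw [h])
      obtain ⟨m, hm⟩ := disj_N hne
      exact ⟨_, _, isOpen_N x m, isOpen_N y m, br_mem_N _ _, br_mem_N _ _, hm⟩

/-- The set of all branches is compact. -/
theorem continuous_br : Continuous br := by
  rw [continuous_iff_continuousAt]
  intro x
  rw [ContinuousAt, (hasBasis_nhds_br x).tendsto_right_iff]
  intro m _
  have : IsOpen {y : Br | ∀ i < m, y i = x i} := by
    have : {y : Br | ∀ i < m, y i = x i} = ⋂ i ∈ Finset.range m, {y : Br | y i = x i} := by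
      ext y; simp
    rw [this]
    apply isOpen_biInter_finset
    intro i _
    have : {y : Br | y i = x i} = (fun y : Br => y i) ⁻¹' {x i} := rfl
    rw [this]
    exact (isOpen_discrete _).preimage (continuous_apply i)
  filter_upwards [this.mem_nhds (fun i _ => rfl : x ∈ {y : Br | ∀ i < m, y i = x i})] with y hy
  exact br_mem_N_iff.2 hy

theorem isCompact_range_br : IsCompact (range br) := isCompact_range continuous_br

/-- Cofinite part of level `k` avoiding `T`. -/
def M (k : ℕ) (T : Finset (Fin k → Bool)) : Set X := {z | ∃ s, s ∉ T ∧ z = nd ⟨k, s⟩}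

theorem nd_mem_M {k : ℕ} {T : Finset (Fin k → Bool)} {s : Fin k → Bool} :
    nd ⟨k, s⟩ ∈ M k T ↔ s ∉ T := by
  constructor
  · rintro ⟨s', hs', h⟩
    have := nd_inj h
    simp only [Sigma.mk.injEq, heq_eq_eq, true_and] at this
    rwa [this]
  · intro h; exact ⟨s, h, rfl⟩

theorem finite_M (k : ℕ) (T : Finset (Fin k → Bool)) : (M k T).Finite := by
  have : M k T ⊆ (fun s : Fin k → Bool => nd ⟨k, s⟩) '' univ := by
    rintro z ⟨s, -, rfl⟩
    exact ⟨s, trivial, rfl⟩
  exact (finite_univ.image _).subset this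

theorem nonempty_M {k : ℕ} {T : Finset (Fin k → Bool)} (h : 2 * T.card ≤ k) : (M k T).Nonempty := by
  have h2 : k < 2 ^ k := Nat.lt_two_pow_self
  have : ∃ s, s ∉ T := by
    by_contra hcon
    push Not at hcon
    have : T = Finset.univ := by ext s; simp [hcon s]
    rw [this, Finset.card_univ, Fintype.card_fun, Fintype.card_bool, Fintype.card_fin] at h
    omega
  obtain ⟨s, hs⟩ := this
  exact ⟨_, nd_mem_M.2 hs⟩

/-- Every neighbourhood of the set of branches contains some large part of a level. -/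
theorem exists_M_subset {U : Set X} (hU : IsOpen U) (h : range br ⊆ U) :
    ∃ (k : ℕ) (T : Finset (Fin k → Bool)), 2 * T.card ≤ k ∧ M k T ⊆ U := by
  have h1 : ∀ x : Br, ∃ m, N x m ⊆ U := fun x => hU x (h ⟨x, rfl⟩)
  choose m hm using h1
  have hcomp : IsCompact (univ : Set Br) := isCompact_univ
  have hopen : ∀ x : Br, IsOpen (br ⁻¹' (N x (m x))) := fun x => (isOpen_N x (m x)).preimage continuous_br
  obtain ⟨F, hF⟩ := hcomp.elim_finite_subcover (fun x => br ⁻¹' (N x (m x))) hopen
    (fun x _ => mem_iUnion.2 ⟨x, br_mem_N x (m x)⟩)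
  classical
  set k := max (F.sup m) (2 * F.card) with hk
  refine ⟨k, F.image (fun x => res x k), ?_, ?_⟩
  · have := Finset.card_image_le (s := F) (f := fun x => res x k)
    have h2 : 2 * F.card ≤ k := le_max_right _ _
    omega
  · rintro z ⟨s, hs, rfl⟩
    let y : Br := fun i => if hi : i < k then s ⟨i, hi⟩ else false
    have hy := hF (mem_univ y)
    simp only [mem_iUnion, mem_preimage, exists_prop] at hy
    obtain ⟨x, hxF, hx⟩ := hy
    apply hm x
    rw [br_mem_N_iff] at hx
    rw [nd_mem_N_iff]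
    have hmk : m x ≤ k := (Finset.le_sup hxF).trans (le_max_left _ _)
    refine ⟨hmk, ?_, ?_⟩
    · intro i hi
      have := hx i hi
      simpa [y] using this
    · rintro rfl
      exact hs (Finset.mem_image_of_mem _ hxF)

/-- The nodes on a branch form a closed set of isolated points, so a compact set meets them in a
finite set. -/
theorem finite_branch {C : Set X} (hC : IsCompact C) (x : Br) :
    {k : ℕ | nd ⟨k, res x k⟩ ∈ C}.Finite := by
  -- open cover: complement of the branch, and singletons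
  let U : Option ℕ → Set X := fun o => match o with
    | none => {z | ∀ k, z ≠ nd ⟨k, res x k⟩}
    | some k => nd '' {⟨k, res x k⟩}
  have hUo : ∀ o, IsOpen (U o) := by
    intro o
    rcases o with _ | k
    · intro y _
      by_cases hxy : y = x
      · subst hxy
        refine ⟨0, ?_⟩
        intro z hz k hzk
        subst hzk
        rw [nd_mem_N_iff] at hz
        exact hz.2.2 rfl
      · have : ∃ i, y i ≠ x i := by
          by_contra hcon; push Not at hcon; exact hxy (funext hcon)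
        obtain ⟨i, hi⟩ := this
        refine ⟨i + 1, ?_⟩
        intro z hz k hzk
        subst hzk
        rw [nd_mem_N_iff] at hz
        exact hi (hz.2.1 ⟨i, hz.1⟩ (Nat.lt_succ_self i)).symm
    · exact isOpen_nd _
  obtain ⟨F, hF⟩ := hC.elim_finite_subcover U hUo (by
    intro z _
    by_cases hz : ∃ k, z = nd ⟨k, res x k⟩
    · obtain ⟨k, rfl⟩ := hz
      exact mem_iUnion.2 ⟨some k, ⟨_, rfl, rfl⟩⟩
    · push Not at hz
      exact mem_iUnion.2 ⟨none, hz⟩)
  have : {k : ℕ | nd ⟨k, res x k⟩ ∈ C} ⊆ {k | some k ∈ F} := by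
    intro k hk
    have := hF hk
    simp only [mem_iUnion, exists_prop] at this
    obtain ⟨o, hoF, ho⟩ := this
    rcases o with _ | k'
    · exact absurd rfl (ho k)
    · obtain ⟨p, hp, hp'⟩ := ho
      simp only [mem_singleton_iff] at hp
      subst hp
      have := nd_inj hp'
      simp only [Sigma.mk.injEq] at this
      rw [mem_ofPred_eq, ← this.1]
      exact hoF
  refine Finite.subset ?_ this
  exact (F.finite_toSet).preimage (Option.some_injective _).injOn

/-- Density step: a level set avoiding few nodes can be met from any finite stem. -/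
theorem exists_ext (x : Br) {n k : ℕ} (T : Finset (Fin k → Bool)) (hT : 2 * T.card ≤ k)
    (hk : 2 * n < k) : ∃ y : Br, (∀ i < n, y i = x i) ∧ res y k ∉ T := by
  classical
  let f : Fin (k - n) → (Fin k → Bool) := fun j i => if (i : ℕ) < n then x i else decide ((i : ℕ) = n + j)
  have hf : Function.Injective f := by
    intro j j' h
    have := congrFun h ⟨n + j, by omega⟩
    simp only [f] at this
    simp only [add_lt_iff_neg_left, not_lt_zero, if_false, decide_true, Nat.add_left_cancel_iff] at this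
    have h' := this.symm
    simp only [decide_eq_true_eq] at h'
    exact Fin.ext h'
  have hcard : T.card < (Finset.univ.image f).card := by
    rw [Finset.card_image_of_injective _ hf, Finset.card_univ, Fintype.card_fin]
    omega
  obtain ⟨s, hs, hsT⟩ := Finset.exists_mem_notMem_of_card_lt_card hcard
  simp only [Finset.mem_image, Finset.mem_univ, true_and] at hs
  obtain ⟨j, rfl⟩ := hs
  refine ⟨fun i => if i < n then x i else decide (i = n + j), ?_, ?_⟩
  · intro i hi; simp [hi]
  · exact hsT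

/-- A compact set contains large parts of only finitely many levels. -/
theorem finite_levels {C : Set X} (hC : IsCompact C) :
    {k : ℕ | ∃ T : Finset (Fin k → Bool), 2 * T.card ≤ k ∧ M k T ⊆ C}.Finite := by
  by_contra hinf
  change Set.Infinite _ at hinf
  set A := {k : ℕ | ∃ T : Finset (Fin k → Bool), 2 * T.card ≤ k ∧ M k T ⊆ C} with hA
  let V : ℕ → Set Br := fun j => {x | ∃ k, j ≤ k ∧ nd ⟨k, res x k⟩ ∈ C}
  have hVo : ∀ j, IsOpen (V j) := by
    intro j
    rw [isOpen_iff_mem_nhds]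
    rintro x ⟨k, hjk, hk⟩
    have : IsOpen {y : Br | ∀ i < k, y i = x i} := by
      have := (isOpen_N x k).preimage continuous_br
      convert this using 1
      ext y; exact br_mem_N_iff.symm
    filter_upwards [this.mem_nhds (fun i _ => rfl : x ∈ {y : Br | ∀ i < k, y i = x i})] with y hy
    refine ⟨k, hjk, ?_⟩
    have : res y k = res x k := by ext i; exact hy i i.2
    rwa [this]
  have hVd : ∀ j, Dense (V j) := by
    intro j x
    rw [mem_closure_iff_nhds]
    intro t ht
    -- basic neighbourhood in Cantor space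
    have : ∃ n, {y : Br | ∀ i < n, y i = x i} ⊆ t := by
      rw [nhds_pi, Filter.mem_pi] at ht
      obtain ⟨I, hI, s, hs, hst⟩ := ht
      obtain ⟨n, hn⟩ := hI.bddAbove
      refine ⟨n + 1, fun y hy => hst ?_⟩
      intro i hi
      have h1 : y i = x i := hy i (Nat.lt_succ_of_le (hn hi))
      rw [h1]
      exact mem_of_mem_nhds (hs i)
    obtain ⟨n, hn⟩ := this
    obtain ⟨k, hkA, hk⟩ := hinf.exists_gt (max j (2 * n))
    obtain ⟨T, hT, hMT⟩ := hkA
    obtain ⟨y, hy1, hy2⟩ := exists_ext x T hT (lt_of_le_of_lt (le_max_right _ _) hk)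
    exact ⟨y, hn hy1, k, (le_max_left _ _).trans hk.le, hMT (nd_mem_M.2 hy2)⟩
  obtain ⟨x, hx⟩ := (dense_iInter_of_isOpen_nat hVo hVd).nonempty
  have hfin := finite_branch hC x
  obtain ⟨b, hb⟩ := hfin.bddAbove
  obtain ⟨k, hk, hk'⟩ := mem_iInter.1 hx (b + 1)
  have := hb hk'
  omega

end Pool.Agent.H43.TreeSpace
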